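import Pool.Agent.SOE.Defs

/-! Project SOE, module Pos (size 2): the points between two consecutive reversed intervals are switching.
-/

set_option autoImplicit false

open Set

namespace Pool.Agent.SOE

open Pool.Agent.SOC Pool.Agent.SOD Pool.Agent.SOS Pool.Agent.SOP Pool.Agent.SOW Pool.Agent.RUP

variable {V : Type} [DecidableEq V] {G : SimpleGraph V} {s s' : List V}

theorem pos_one (hs : IsEnum s) {p q P Q v : V} {X₁ X₂ : Set V} (hpq : p ≠ q) (hPQ : P ≠ Q)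
    (hc : Cross s p Q q P) (c1 : CI s X₁) (c2 : CI s X₂)
    (hp : p ∈ X₁) (hq : q ∈ X₁) (h12 : X₁ ⊆ X₂) (hP : P ∉ X₂) (hQ : Q ∉ X₂) (hv : v ∈ X₂) (hv' : v ∉ X₁) :
    (CrD s q Q v p ∧ ¬ Cross s p P v q) ∨ (¬ Cross s q Q v p ∧ CrD s p P v q) := by
  have npP : p ≠ P := fun e => hP (h12 (e ▸ hp))
  have npQ : p ≠ Q := fun e => hQ (h12 (e ▸ hp))
  have nqP : q ≠ P := fun e => hP (h12 (e ▸ hq))
  have nqQ : q ≠ Q := fun e => hQ (h12 (e ▸ hq))
  have nvp : v ≠ p := fun e => hv' (e ▸ hp)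
  have nvq : v ≠ q := fun e => hv' (e ▸ hq)
  have nvP : v ≠ P := fun e => hP (e ▸ hv)
  have nvQ : v ≠ Q := fun e => hQ (e ▸ hv)
  have e1 : sep (ordFn s) p q v P = 0 := c1 p hp q hq v hv' P (fun h => hP (h12 h))
  have e2 : sep (ordFn s) v p P Q = 0 := c2 v hv p (h12 hp) P hP Q hQ
  have sk := ordFn_skew hs
  have s1 := sk p q hpq
  have s2 := sk q P nqP
  have s3 := sk p Q npQ
  have s4 := sk P v nvP.symm
  have s5 := sk Q v nvQ.symm
  have h2 : (2 : ZMod 2) = 0 := by decide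
  have hsum : sep (ordFn s) q Q v p + sep (ordFn s) p P v q = 1 := by
    unfold sep at e1 e2 ⊢
    linear_combination e1 + e2 + s1 + s2 + s3 + s4 + s5 +
      (2 - (ordFn s p P + ordFn s q P + ordFn s v P + ordFn s v Q + ordFn s p Q)) * h2
  have key : (Cross s q Q v p ∧ ¬ Cross s p P v q) ∨ (¬ Cross s q Q v p ∧ Cross s p P v q) := by
    rw [cross_iff_sep hs nvq.symm hpq.symm nvQ.symm npQ.symm,
      cross_iff_sep hs nvp.symm hpq nvP.symm nqP.symm]
    rcases zmod2_cases (sep (ordFn s) q Q v p) with h | h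
    · right
      rw [h, zero_add] at hsum
      rw [h, hsum]
      exact ⟨by decide, rfl⟩
    · left
      rw [h] at hsum
      have h3 : sep (ordFn s) p P v q = 0 := by
        linear_combination hsum
      rw [h, h3]
      exact ⟨rfl, by decide⟩
  rcases key with ⟨h1, h2⟩ | ⟨h1, h2⟩
  · exact Or.inl ⟨⟨⟨nqQ, nvq.symm, hpq.symm, nvQ.symm, npQ.symm, nvp⟩, h1⟩, h2⟩
  · exact Or.inr ⟨h1, ⟨⟨npP, nvp.symm, hpq, nvP.symm, nqP.symm, nvq⟩, h2⟩⟩

/-- PROOF. The points are different (memberships, hpq, hPQ). From CI s X₁: ¬ Cross s p q v P (p, q ∈ X₁, v, P ∉ X₁; not_cross_iff), from CI s X₂: ¬ Cross s P Q v p (complement: or Cross s v p P Q, v, p ∈ X₂, P, Q ∉ X₂, cross_comm). With Cross s p Q q P and omega on the positions (unfold Cross, Btw; idx_ne for the distinctness)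
exactly one of Cross s q Q v p, Cross s p P v q holds. The same for s'. By h1 (cross_iff_sep) Cross s q Q v p holds iff Cross s' q Q v p does not hold. -/
theorem pos_sw (hs : IsEnum s) (hs' : IsEnum s') {p q P Q v : V} {X₁ X₂ : Set V} (hpq : p ≠ q) (hPQ : P ≠ Q)
    (hc : Cross s p Q q P) (hc' : Cross s' p Q q P) (c1 : CI s X₁) (c1' : CI s' X₁) (c2 : CI s X₂) (c2' : CI s' X₂)
    (hp : p ∈ X₁) (hq : q ∈ X₁) (h12 : X₁ ⊆ X₂) (hP : P ∉ X₂) (hQ : Q ∉ X₂) (hv : v ∈ X₂) (hv' : v ∉ X₁)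
    (h1 : sep (ordFn s') q Q v p = sep (ordFn s) q Q v p + 1) :
    SwR s s' p q P Q v ∨ SwL s s' p q P Q v := by
  have nqQ : q ≠ Q := fun e => hQ (h12 (e ▸ hq))
  have nqv : q ≠ v := fun e => hv' (e ▸ hq)
  have nQv : Q ≠ v := fun e => hQ (e ▸ hv)
  have nQp : Q ≠ p := fun e => hQ (h12 (e ▸ hp))
  rcases pos_one hs hpq hPQ hc c1 c2 hp hq h12 hP hQ hv hv' with ⟨a1, a2⟩ | ⟨a1, a2⟩ <;>
  rcases pos_one hs' hpq hPQ hc' c1' c2' hp hq h12 hP hQ hv hv' with ⟨b1, b2⟩ | ⟨b1, b2⟩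
  · exfalso
    have e1 := (cross_iff_sep hs nqv hpq.symm nQv nQp).1 a1.2
    have e2 := (cross_iff_sep hs' nqv hpq.symm nQv nQp).1 b1.2
    rw [e1, e2] at h1
    exact absurd h1 (by decide)
  · exact Or.inl ⟨a1, b2⟩
  · exact Or.inr ⟨a2, b1⟩
  · exfalso
    have e1 := (not_cross_iff hs nqv hpq.symm nQv nQp).1 a1
    have e2 := (not_cross_iff hs' nqv hpq.symm nQv nQp).1 b1
    rw [e1, e2] at h1
    exact absurd h1 (by decide)


end Pool.Agent.SOE
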