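import Pool.Agent.SOE.RefD

/-! Project SOE, module Snd (size 1): SOC orders are E-WO orders.
-/

set_option autoImplicit false

open Set

namespace Pool.Agent.SOE

open Pool.Agent.SOC Pool.Agent.SOD Pool.Agent.SOS Pool.Agent.SOP Pool.Agent.SOW Pool.Agent.RUP

variable {V : Type} [DecidableEq V] {G : SimpleGraph V} {s s' : List V} {T : V → V → V → V → Prop} {p q P Q r : V}

/-- PROOF. wo: let Rigid G a b c d and Cross s a b c d; hT.some (a := a) (b := c) (c := b) (d := d) gives T a c b d or T a d b c... (edges ab, cd, crossing); QT.adj with swap₁, swap₂ gives the adjacencies of a 4-cycle through both edges, contradiction to n1 or n2 (see QF.adj4-like lemmas: from T a b c d: a~c, a~d, b~c, b~d).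
w4: sndw (RefD) with Bt ⟨hs, hT⟩; the five points of a W4 are different (adjacent ones by Adj.ne, opposite ones by d1, d2); CrD from Cross and these. -/
theorem ewo_of_qt (hs : IsEnum s) (hT : QT G (Cross s) T) : EWO G s where
  enum := hs
  wo := by
    intro a b c d hr hx
    rcases hT.some (a := a) (b := c) (c := b) (d := d) hr.ab hr.cd hr.ac hr.ad hr.bc.symm hr.bd hx with h | h
    · exact hr.n2 ⟨hT.adj (hT.swap₂ (hT.swap₁ (hT.swap₂ h))), (hT.adj (hT.swap₁ h)).symm⟩
    · exact hr.n1 ⟨hT.adj h, (hT.adj (hT.swap₂ (hT.swap₁ (hT.swap₂ (hT.swap₁ h))))).symm⟩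
  w4 := by
    intro p p' q q' r w hx
    have h1 := w.pq.ne
    have h2 := w.pq'.ne
    have h3 := w.p'q.ne
    have h4 := w.p'q'.ne
    have h5 := w.rp.ne
    have h6 := w.rp'.ne
    have h7 := w.rq.ne
    have h8 := w.rq'.ne
    refine sndw ⟨hs, hT⟩ (p := p) (p' := p') (q := q) (q' := q') (r := r) ?_ w ⟨⟨w.d1, h1, h2, h3, h4, w.d2⟩, hx⟩
    simp [w.d1, w.d2, h1, h2, h3, h4, h5.symm, h6.symm, h7.symm, h8.symm]


end Pool.Agent.SOE
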