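import Pool.Agent.SOE.Rep

/-! Project SOE, module TwoS (size 4): two consecutive reversed intervals.
-/

set_option autoImplicit false

open Set

namespace Pool.Agent.SOE

open Pool.Agent.SOC Pool.Agent.SOD Pool.Agent.SOS Pool.Agent.SOP Pool.Agent.SOW Pool.Agent.RUP

variable {V : Type} [DecidableEq V] {G : SimpleGraph V} {s s' : List V}

open Classical in
theorem two_s_sum0 {α : Type} (f : α → ZMod 2) : ∀ {L : List α}, (∀ y ∈ L, f y = 0) → (L.map f).sum = 0 := by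
  intro L
  induction L with
  | nil => intro _; rfl
  | cons a l ih =>
    intro h
    rw [List.map_cons, List.sum_cons, h a List.mem_cons_self, zero_add]
    exact ih (fun y hy => h y (List.mem_cons_of_mem _ hy))

theorem two_s_sum {α : Type} (f : α → ZMod 2) {x : α} (h1 : f x = 1) : ∀ {L : List α}, L.Nodup → x ∈ L →
    (∀ y ∈ L, y ≠ x → f y = 0) → (L.map f).sum = 1 := by
  intro L
  induction L with
  | nil => intro _ h; cases h
  | cons a l ih =>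
    intro hN hx h0
    rw [List.map_cons, List.sum_cons]
    rw [List.nodup_cons] at hN
    rcases List.mem_cons.1 hx with hxa | hxl
    · rw [← hxa, h1, two_s_sum0 f, add_zero]
      intro y hy
      refine h0 y (List.mem_cons_of_mem _ hy) (fun e => hN.1 ?_)
      rw [← hxa, ← e]
      exact hy
    · rw [h0 a List.mem_cons_self (fun e => hN.1 (e ▸ hxl)), zero_add]
      exact ih hN.2 hxl (fun y hy hne => h0 y (List.mem_cons_of_mem _ hy) hne)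

omit [DecidableEq V] in
theorem two_s_spv1 {X : Set V} {a b c d : V} (h : Spl X a b c d) : spv X a b c d = 1 := by
  classical
  unfold spv
  rw [if_pos h]

omit [DecidableEq V] in
theorem two_s_spv0 {X : Set V} {a b c d : V} (h : ¬ Spl X a b c d) : spv X a b c d = 0 := by
  classical
  unfold spv
  rw [if_neg h]

/-- PROOF. L' := L.map (norm P) (min_norm), Nodup (min_nodup), P ∉ Y for all Y ∈ L', X ∈ L' (P ∉ X). For Y ∈ L' and the points: (*) if Y crosses a member of L' we have a contradiction (SC.st with CI of the other). Let D := members Y of L' with p, q ∈ Y, Q ∉ Y (P ∉ Y anyway). X ∈ D.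
D is a chain: Y, Y' ∈ D: p in both, P in none, so Y ⊆ Y' or Y' ⊆ Y (otherwise Crossing).
(1) D has another member: both orders have crossing p Q | q P, so sep = 1 in both (cross_iff_sep), so the sum over L' of spv Y p Q q P is 0. spv Y p Q q P = 1 iff Spl: q ∈ Y (as P ∉ Y) and exactly one of p, Q is in Y: if p ∈ Y, Q ∉ Y: Y ∈ D. If Q ∈ Y, p ∉ Y: Y crosses X (q, p, Q, P): impossible. So if X were the only member
of D, exactly one term of the sum (L' is Nodup) would be 1, the sum would be 1. [Use: a sum over a Nodup list of values 0/1 with exactly one 1 is 1: e.g. List.sum_map_... or convert to a Finset sum, Finset.sum_eq_single.]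
(2) X₁ := member of D with minimal Set.ncard, X₂ := member of D different from X₁ with minimal ncard. By the chain property X₁ ⊆ Y for all Y ∈ D, X₂ ⊆ Y for all Y ∈ D, Y ≠ X₁. X₁ ≠ X₂ so there is v ∈ X₂, v ∉ X₁.
(3) Let v ∈ X₂, v ∉ X₁ (so v ≠ p, q, P, Q). Members Y of L' with Spl Y q Q v p: exactly X₁. X₁ is one. Let Y be one. If q ∈ Y, Q ∉ Y, p ∈ Y, v ∉ Y: Y ∈ D and v ∉ Y so Y = X₁ (else X₂ ⊆ Y). If q ∈ Y, Q ∉ Y, p ∉ Y, v ∈ Y: crosses X₁ (q; v; p; P). If Q ∈ Y, q ∉ Y, p ∈ Y, v ∉ Y: crosses X₁ (p; Q; q; P).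
If Q ∈ Y, q ∉ Y, p ∉ Y, v ∈ Y: crosses X₂ (v; Q; q; P). So the sum of spv Y q Q v p is 1 (Nodup), and RepL.eq gives the first formula. The same for Spl Y p P v q: p ∈ Y (P ∉ Y) and exactly one of v, q in Y. q ∈ Y, v ∉ Y: if Q ∉ Y then Y ∈ D, so Y = X₁; if Q ∈ Y it crosses X₂ (p; Q; v; P). q ∉ Y, v ∈ Y:
crosses X₁ (p; v; q; P). -/
theorem two_sets [Finite V] (hs : IsEnum s) (hs' : IsEnum s') {L : List (Set V)} (hM : MinL s s' L) {X : Set V} (hX : X ∈ L)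
    {p q P Q : V} (hpq : p ≠ q) (hPQ : P ≠ Q) (hp : p ∈ X) (hq : q ∈ X) (hP : P ∉ X) (hQ : Q ∉ X)
    (hc : Cross s p Q q P) (hc' : Cross s' p Q q P) :
    ∃ X₁ X₂ : Set V, SC s s' X₁ ∧ SC s s' X₂ ∧ X₁ ⊆ X₂ ∧ (∃ v, v ∈ X₂ ∧ v ∉ X₁) ∧ p ∈ X₁ ∧ q ∈ X₁ ∧ P ∉ X₂ ∧ Q ∉ X₂ ∧
      ∀ v, v ∈ X₂ → v ∉ X₁ → sep (ordFn s') q Q v p = sep (ordFn s) q Q v p + 1 ∧
        sep (ordFn s') p P v q = sep (ordFn s) p P v q + 1 := by
  classical
  have hpP : p ≠ P := fun e => hP (e ▸ hp)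
  have hqP : q ≠ P := fun e => hP (e ▸ hq)
  have hpQ : p ≠ Q := fun e => hQ (e ▸ hp)
  have hqQ : q ≠ Q := fun e => hQ (e ▸ hq)
  have hM' := min_norm hs hs' hM P
  obtain ⟨L', hL'⟩ : ∃ L' : List (Set V), L' = L.map (fun X => if P ∈ X then Xᶜ else X) := ⟨_, rfl⟩
  rw [← hL'] at hM'
  have hN : L'.Nodup := min_nodup hM'
  have hPn : ∀ Y ∈ L', P ∉ Y := by
    intro Y hY
    rw [hL'] at hY
    obtain ⟨Z, hZ, rfl⟩ := List.mem_map.1 hY
    by_cases h : P ∈ Z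
    · rw [if_pos h]
      exact fun h' => h' h
    · rw [if_neg h]
      exact h
  have hXL : X ∈ L' := by
    rw [hL']
    exact List.mem_map.2 ⟨X, hX, by rw [if_neg hP]⟩
  have hnc : ∀ Y ∈ L', ∀ Z ∈ L', ¬ Crossing Y Z := fun Y hY Z hZ =>
    (hM'.rep.sc Y hY).st Z (hM'.rep.sc Z hZ).ci (hM'.rep.sc Z hZ).ci'
  obtain ⟨D, hD⟩ : ∃ D : Set (Set V), D = {Y | Y ∈ L' ∧ p ∈ Y ∧ q ∈ Y ∧ Q ∉ Y} := ⟨_, rfl⟩
  have hDm : ∀ Y, Y ∈ D ↔ (Y ∈ L' ∧ p ∈ Y ∧ q ∈ Y ∧ Q ∉ Y) := fun Y => by rw [hD]; rfl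
  have hXD : X ∈ D := (hDm X).2 ⟨hXL, hp, hq, hQ⟩
  have hchain : ∀ Y ∈ D, ∀ Z ∈ D, Y ⊆ Z ∨ Z ⊆ Y := by
    intro Y hY Z hZ
    rw [hDm] at hY hZ
    by_contra h
    push Not at h
    obtain ⟨a, ha, ha'⟩ := Set.not_subset.1 h.1
    obtain ⟨b, hb, hb'⟩ := Set.not_subset.1 h.2
    exact hnc Y hY.1 Z hZ.1 ⟨⟨p, hY.2.1, hZ.2.1⟩, ⟨a, ha, ha'⟩, ⟨b, hb', hb⟩, ⟨P, hPn Y hY.1, hPn Z hZ.1⟩⟩
  have hother : ∃ Y ∈ D, Y ≠ X := by
    by_contra h
    push Not at h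
    have e1 := (cross_iff_sep hs hpq hpP hqQ.symm hPQ.symm).1 hc
    have e2 := (cross_iff_sep hs' hpq hpP hqQ.symm hPQ.symm).1 hc'
    have e3 := hM'.rep.eq p Q q P hpq hpP hqQ.symm hPQ.symm
    rw [e1, e2, two_s_sum (fun Y => spv Y p Q q P) (two_s_spv1 ⟨fun e => hQ (e.1 hp), fun e => hP (e.1 hq)⟩)
      hN hXL (fun Y hY hne => two_s_spv0 (fun hS => ?_))] at e3
    · exact absurd e3 (by decide)
    · have hPY := hPn Y hY
      have hqY : q ∈ Y := by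
        by_contra hqY
        exact hS.2 ⟨fun e => absurd e hqY, fun e => absurd e hPY⟩
      by_cases hpY : p ∈ Y
      · have hQY : Q ∉ Y := fun hQY => hS.1 ⟨fun _ => hQY, fun _ => hpY⟩
        exact hne (h Y ((hDm Y).2 ⟨hY, hpY, hqY, hQY⟩))
      · have hQY : Q ∈ Y := by
          by_contra hQY
          exact hS.1 ⟨fun e => absurd e hpY, fun e => absurd e hQY⟩
        exact hnc X hXL Y hY ⟨⟨q, hq, hqY⟩, ⟨p, hp, hpY⟩, ⟨Q, hQ, hQY⟩, ⟨P, hP, hPY⟩⟩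
  obtain ⟨X₁, hX1, hmin1⟩ := Set.exists_min_image D Set.ncard (Set.toFinite D) ⟨X, hXD⟩
  have hne2 : (D \ {X₁}).Nonempty := by
    obtain ⟨Y, hY, hYX⟩ := hother
    by_cases h : X = X₁
    · exact ⟨Y, hY, fun e => hYX (by rw [h]; exact e)⟩
    · exact ⟨X, hXD, h⟩
  obtain ⟨X₂, hX2, hmin2⟩ := Set.exists_min_image (D \ {X₁}) Set.ncard (Set.toFinite _) hne2
  have hsub1 : ∀ Y ∈ D, X₁ ⊆ Y := by
    intro Y hY
    rcases hchain X₁ hX1 Y hY with h | h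
    · exact h
    · exact (Set.eq_of_subset_of_ncard_le h (hmin1 Y hY) (Set.toFinite _)).symm.subset
  have hsub2 : ∀ Y ∈ D, Y ≠ X₁ → X₂ ⊆ Y := by
    intro Y hY hne
    rcases hchain X₂ hX2.1 Y hY with h | h
    · exact h
    · exact (Set.eq_of_subset_of_ncard_le h (hmin2 Y ⟨hY, hne⟩) (Set.toFinite _)).symm.subset
  obtain ⟨h1L, h1p, h1q, h1Q⟩ := (hDm X₁).1 hX1
  obtain ⟨h2L, h2p, h2q, h2Q⟩ := (hDm X₂).1 hX2.1
  have h1P := hPn X₁ h1L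
  have h2P := hPn X₂ h2L
  have h12 : X₁ ⊆ X₂ := hsub1 X₂ hX2.1
  have hv : ∃ v, v ∈ X₂ ∧ v ∉ X₁ := by
    by_contra h
    push Not at h
    exact hX2.2 (Set.Subset.antisymm (fun v hv => h v hv) h12)
  refine ⟨X₁, X₂, hM'.rep.sc X₁ h1L, hM'.rep.sc X₂ h2L, h12, hv, h1p, h1q, h2P, h2Q, ?_⟩
  intro v hv2 hv1
  have hpv : p ≠ v := fun e => hv1 (e ▸ h1p)
  have hqv : q ≠ v := fun e => hv1 (e ▸ h1q)
  have hPv : P ≠ v := fun e => h2P (e ▸ hv2)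
  have hQv : Q ≠ v := fun e => h2Q (e ▸ hv2)
  constructor
  · rw [hM'.rep.eq q Q v p hqv hpq.symm hQv hpQ.symm]
    congr 1
    refine two_s_sum (fun Y => spv Y q Q v p) (two_s_spv1 ⟨fun e => h1Q (e.1 h1q), fun e => hv1 (e.2 h1p)⟩)
      hN h1L (fun Y hY hne => two_s_spv0 (fun hS => ?_))
    have hPY := hPn Y hY
    by_cases hqY : q ∈ Y
    · have hQY : Q ∉ Y := fun hQY => hS.1 ⟨fun _ => hQY, fun _ => hqY⟩
      by_cases hpY : p ∈ Y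
      · exact hS.2 ⟨fun _ => hpY, fun _ => hsub2 Y ((hDm Y).2 ⟨hY, hpY, hqY, hQY⟩) hne hv2⟩
      · have hvY : v ∈ Y := by
          by_contra hvY
          exact hS.2 ⟨fun e => absurd e hvY, fun e => absurd e hpY⟩
        exact hnc X₁ h1L Y hY ⟨⟨q, h1q, hqY⟩, ⟨p, h1p, hpY⟩, ⟨v, hv1, hvY⟩, ⟨P, h1P, hPY⟩⟩
    · have hQY : Q ∈ Y := by
        by_contra hQY
        exact hS.1 ⟨fun e => absurd e hqY, fun e => absurd e hQY⟩
      by_cases hpY : p ∈ Y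
      · exact hnc X₁ h1L Y hY ⟨⟨p, h1p, hpY⟩, ⟨q, h1q, hqY⟩, ⟨Q, h1Q, hQY⟩, ⟨P, h1P, hPY⟩⟩
      · have hvY : v ∈ Y := by
          by_contra hvY
          exact hS.2 ⟨fun e => absurd e hvY, fun e => absurd e hpY⟩
        exact hnc X₂ h2L Y hY ⟨⟨v, hv2, hvY⟩, ⟨q, h2q, hqY⟩, ⟨Q, h2Q, hQY⟩, ⟨P, h2P, hPY⟩⟩
  · rw [hM'.rep.eq p P v q hpv hpq hPv hqP.symm]
    congr 1
    refine two_s_sum (fun Y => spv Y p P v q) (two_s_spv1 ⟨fun e => h1P (e.1 h1p), fun e => hv1 (e.2 h1q)⟩)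
      hN h1L (fun Y hY hne => two_s_spv0 (fun hS => ?_))
    have hPY := hPn Y hY
    have hpY : p ∈ Y := by
      by_contra hpY
      exact hS.1 ⟨fun e => absurd e hpY, fun e => absurd e hPY⟩
    by_cases hqY : q ∈ Y
    · have hvY : v ∉ Y := fun hvY => hS.2 ⟨fun _ => hqY, fun _ => hvY⟩
      by_cases hQY : Q ∈ Y
      · exact hnc X₂ h2L Y hY ⟨⟨p, h2p, hpY⟩, ⟨v, hv2, hvY⟩, ⟨Q, h2Q, hQY⟩, ⟨P, h2P, hPY⟩⟩
      · exact hvY (hsub2 Y ((hDm Y).2 ⟨hY, hpY, hqY, hQY⟩) hne hv2)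
    · have hvY : v ∈ Y := by
        by_contra hvY
        exact hS.2 ⟨fun e => absurd e hvY, fun e => absurd e hqY⟩
      exact hnc X₁ h1L Y hY ⟨⟨p, h1p, hpY⟩, ⟨q, h1q, hqY⟩, ⟨v, hv1, hvY⟩, ⟨P, h1P, hPY⟩⟩


end Pool.Agent.SOE
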