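import Pool.Agent.SOE.Cen
import Pool.Agent.SOE.TwoS
import Pool.Agent.SOE.Pos
import Pool.Agent.SOE.Snd

/-! Project SOE, module AllE (size 3): without centre all reversed intervals are E-P-cuts.
-/

set_option autoImplicit false

open Set

namespace Pool.Agent.SOE

open Pool.Agent.SOC Pool.Agent.SOD Pool.Agent.SOS Pool.Agent.SOP Pool.Agent.SOW Pool.Agent.RUP

variable {V : Type} [DecidableEq V] {G : SimpleGraph V} {s s' : List V} {T : V → V → V → V → Prop} {p q P Q r : V}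

theorem alle_cross {t : List V} (ht : EWO G t) {X : Set V} (hci : CI t X) (hw : W4 G p P q Q r) (hp : p ∈ X) (hq : q ∈ X)
    (hP : P ∉ X) (hQ : Q ∉ X) : Cross t p Q q P := by
  rcases (crD_sepr ht.enum).one hw.pq'.ne hw.pq.ne hw.d1 (fun e => hw.d2 e.symm) (fun e => hw.p'q'.ne e.symm)
    (fun e => hw.p'q.ne e.symm) with h | h | h
  · exact h.2
  · exfalso
    have h1 := hci p hp q hq Q hQ P hP
    exact (not_cross_iff ht.enum hw.pq'.ne hw.d1 hw.d2 (fun e => hw.p'q.ne e.symm)).2 h1 h.2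
  · exact absurd (cross_sr h.2) (ht.w4 hw)

/-- PROOF. hse : EWO G s := ewo_of_qt. X ∈ L: sc_cut. Suppose not EPC: there is W4 G p₀ p₀' q₀ q₀' r with Spl X. By w4_swap, w4_swap' rename: W4 G p P q Q r with p, q ∈ X, P, Q ∉ X. Cross s p Q q P: in a cyclic order of four different points exactly one of the three pairings crosses (crD_sepr.one), p P | q Q does not (hse.w4), p q | P Q does not (CI s X); the same in s'.
Ctx. two_sets: X₁, X₂; sc_cut for both; pos_sw for the v in between; cen_exists: contradiction to hc. -/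
theorem all_epc [Finite V] (hG : PrimeG G) (hc : CFree G) (hs : IsEnum s) (hT : QT G (Cross s) T) (hs' : EWO G s')
    {L : List (Set V)} (hM : MinL s s' L) : ∀ X ∈ L, EPC G X := by
  intro X hX
  have hse : EWO G s := ewo_of_qt hs hT
  have hXs : SC s s' X := hM.rep.sc X hX
  have hconn := hG.1.preconnected
  refine ⟨sc_cut hconn hse hs' hXs, ?_⟩
  intro p₀ p₀' q₀ q₀' r hw₀ hsp
  obtain ⟨p, P, q, Q, hw, hp, hq, hP, hQ⟩ : ∃ p P q Q, W4 G p P q Q r ∧ p ∈ X ∧ q ∈ X ∧ P ∉ X ∧ Q ∉ X := by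
    obtain ⟨hs1, hs2⟩ := hsp
    by_cases k1 : p₀ ∈ X
    · have k1' : p₀' ∉ X := fun t => hs1 (iff_of_true k1 t)
      by_cases k2 : q₀ ∈ X
      · have k2' : q₀' ∉ X := fun t => hs2 (iff_of_true k2 t)
        exact ⟨_, _, _, _, hw₀, k1, k2, k1', k2'⟩
      · have k2' : q₀' ∈ X := by
          by_contra t
          exact hs2 (iff_of_false k2 t)
        exact ⟨_, _, _, _, w4_swap' hw₀, k1, k2', k1', k2⟩
    · have k1' : p₀' ∈ X := by
        by_contra t
        exact hs1 (iff_of_false k1 t)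
      by_cases k2 : q₀ ∈ X
      · have k2' : q₀' ∉ X := fun t => hs2 (iff_of_true k2 t)
        exact ⟨_, _, _, _, w4_swap hw₀, k1', k2, k1, k2'⟩
      · have k2' : q₀' ∈ X := by
          by_contra t
          exact hs2 (iff_of_false k2 t)
        exact ⟨_, _, _, _, w4_swap (w4_swap' hw₀), k1', k2', k1, k2⟩
  have c := alle_cross hse hXs.ci hw hp hq hP hQ
  have c' := alle_cross hs' hXs.ci' hw hp hq hP hQ
  have hctx : Ctx G s s' T p q P Q r := ⟨hs, hT, hs', hw, c, c'⟩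
  obtain ⟨X₁, X₂, s1, s2, h12, hv, hp1, hq1, hP2, hQ2, hf⟩ :=
    two_sets hs hs'.enum hM hX hw.pq.ne hw.p'q'.ne hp hq hP hQ c c'
  obtain ⟨z, L', hz⟩ := cen_exists hG hctx (sc_cut hconn hse hs' s1) (sc_cut hconn hse hs' s2) h12 hv hp1 hq1 hP2 hQ2
    (fun v hv1 hv2 => pos_sw hs hs'.enum hw.pq.ne hw.p'q'.ne c c' s1.ci s1.ci' s2.ci s2.ci' hp1 hq1 h12 hP2 hQ2 hv1 hv2
      (hf v hv1 hv2).1)
  exact hc z L' hz


end Pool.Agent.SOE
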