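import Pool.Agent.SOE.Defs

/-! Project SOE, module Bip (size 4): a family of bipartitions closed under crossing operations and without strong member contains everything.
-/

set_option autoImplicit false

open Set

namespace Pool.Agent.SOE

open Pool.Agent.SOC Pool.Agent.SOD Pool.Agent.SOS Pool.Agent.SOP Pool.Agent.SOW Pool.Agent.RUP

variable {K : Type}

theorem bip_union {E : Set (Set K)} (hcompl : ∀ X ∈ E, Xᶜ ∈ E)
    (hint : ∀ X ∈ E, ∀ Y ∈ E, Crossing X Y → X ∩ Y ∈ E) {X Y : Set K} (hX : X ∈ E) (hY : Y ∈ E)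
    (hc : Crossing X Y) : X ∪ Y ∈ E := by
  obtain ⟨⟨p, h1, h2⟩, ⟨q, h3, h4⟩, ⟨r, h5, h6⟩, ⟨t, h7, h8⟩⟩ := hc
  have h := hcompl _ (hint _ (hcompl _ hX) _ (hcompl _ hY) ⟨⟨t, h7, h8⟩, ⟨r, h5, not_not.2 h6⟩, ⟨q, not_not.2 h3, h4⟩,
    ⟨p, not_not.2 h1, not_not.2 h2⟩⟩)
  rwa [← compl_union, compl_compl] at h

theorem bip_diff {E : Set (Set K)} (hcompl : ∀ X ∈ E, Xᶜ ∈ E)
    (hint : ∀ X ∈ E, ∀ Y ∈ E, Crossing X Y → X ∩ Y ∈ E) {X Y : Set K} (hX : X ∈ E) (hY : Y ∈ E)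
    (hc : Crossing X Y) : X \ Y ∈ E := by
  obtain ⟨⟨p, h1, h2⟩, ⟨q, h3, h4⟩, ⟨r, h5, h6⟩, ⟨t, h7, h8⟩⟩ := hc
  exact hint _ hX _ (hcompl _ hY) ⟨⟨q, h3, h4⟩, ⟨p, h1, not_not.2 h2⟩, ⟨t, h7, h8⟩, ⟨r, h5, not_not.2 h6⟩⟩

/-- a member with two elements -/
theorem bip_pair [Finite K] {E : Set (Set K)} (hcompl : ∀ X ∈ E, Xᶜ ∈ E)
    (hint : ∀ X ∈ E, ∀ Y ∈ E, Crossing X Y → X ∩ Y ∈ E)
    (hst : ∀ X ∈ E, Nontriv X → ∃ Y ∈ E, Crossing X Y) :
    ∀ n : ℕ, ∀ X ∈ E, Nontriv X → X.ncard = n → ∃ a b : K, a ≠ b ∧ {a, b} ∈ E := by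
  intro n
  induction n using Nat.strong_induction_on with
  | _ n ih =>
    intro X hX hn hcard
    obtain ⟨Y, hY, hc⟩ := hst X hX hn
    have hc' := hc
    obtain ⟨⟨p, h1, h2⟩, ⟨q, h3, h4⟩, _, _⟩ := hc
    have key : ∀ Z ∈ E, Z ⊆ X → (∃ z ∈ X, z ∉ Z) → (∃ x ∈ Z, ∃ y ∈ Z, x ≠ y) → ∃ a b : K, a ≠ b ∧ {a, b} ∈ E := by
      intro Z hZ hs ⟨z, hz, hz'⟩ h2
      refine ih Z.ncard ?_ Z hZ ⟨h2, ?_⟩ rfl
      · rw [← hcard]
        exact Set.ncard_lt_ncard ⟨hs, fun hh => hz' (hh hz)⟩ (Set.toFinite X)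
      · obtain ⟨_, y, hy, y', hy', hne⟩ := hn
        exact ⟨y, fun h => hy (hs h), y', fun h => hy' (hs h), hne⟩
    by_cases k1 : ∃ x ∈ X ∩ Y, ∃ y ∈ X ∩ Y, x ≠ y
    · exact key _ (hint _ hX _ hY hc') inter_subset_left ⟨q, h3, fun h => h4 h.2⟩ k1
    · by_cases k2 : ∃ x ∈ X \ Y, ∃ y ∈ X \ Y, x ≠ y
      · exact key _ (bip_diff hcompl hint hX hY hc') diff_subset ⟨p, h1, fun h => h.2 h2⟩ k2
      · push Not at k1 k2
        refine ⟨p, q, fun h => h4 (h ▸ h2), ?_⟩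
        have he : ({p, q} : Set K) = X := by
          ext x
          constructor
          · rintro (h | h)
            · exact h ▸ h1
            · exact (mem_singleton_iff.1 h) ▸ h3
          · intro hx
            by_cases hy : x ∈ Y
            · exact Or.inl (k1 x ⟨hx, hy⟩ p ⟨h1, h2⟩)
            · exact Or.inr (k2 x ⟨hx, hy⟩ q ⟨h3, h4⟩)
        rw [he]
        exact hX

/-- replacing the part of `Y` inside of `C` -/
theorem bip_repl {E : Set (Set K)} (hcompl : ∀ X ∈ E, Xᶜ ∈ E)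
    (hint : ∀ X ∈ E, ∀ Y ∈ E, Crossing X Y → X ∩ Y ∈ E)
    (hsym : ∀ X ∈ E, ∀ Y ∈ E, Crossing X Y → {v | ¬ (v ∈ X ↔ v ∈ Y)} ∈ E) {C Y : Set K}
    (hC : ∀ S, S ⊆ C → S ∈ E) (hY : Y ∈ E) (hc : Crossing C Y) {T : Set K} (hT : T ⊆ C) : (Y \ C) ∪ T ∈ E := by
  obtain ⟨⟨p, h1, h2⟩, ⟨q, h3, h4⟩, ⟨r, h5, h6⟩, ⟨t, h7, h8⟩⟩ := hc
  by_cases k1 : ∃ x, x ∈ Y ∧ x ∈ C ∧ x ∉ T
  · obtain ⟨x, x1, x2, x3⟩ := k1
    by_cases k2 : ∃ y, y ∈ T ∧ y ∉ Y
    · obtain ⟨y, y1, y2⟩ := k2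
      have h := hsym Y hY {v | v ∈ C ∧ ¬ (v ∈ Y ↔ v ∈ T)} (hC _ fun v hv => hv.1)
        ⟨⟨x, x1, x2, fun e => x3 (e.1 x1)⟩, ⟨r, h6, fun e => h5 e.1⟩, ⟨y, y2, hT y1, fun e => y2 (e.2 y1)⟩,
          ⟨t, h8, fun e => h7 e.1⟩⟩
      have he : (Y \ C) ∪ T = {v | ¬ (v ∈ Y ↔ v ∈ {v | v ∈ C ∧ ¬ (v ∈ Y ↔ v ∈ T)})} := by
        ext v
        have hv : v ∈ T → v ∈ C := fun h => hT h
        simp only [mem_union, mem_diff, mem_setOf_eq]
        tauto
      rw [he]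
      exact h
    · push Not at k2
      have h := bip_diff hcompl hint hY (hC (C \ T) diff_subset)
        ⟨⟨x, x1, x2, x3⟩, ⟨r, h6, fun e => h5 e.1⟩, ⟨q, h4, h3, fun e => h4 (k2 q e)⟩, ⟨t, h8, fun e => h7 e.1⟩⟩
      have he : (Y \ C) ∪ T = Y \ (C \ T) := by
        ext v
        have hv : v ∈ T → v ∈ C := fun h => hT h
        have hv' : v ∈ T → v ∈ Y := fun h => k2 v h
        simp only [mem_union, mem_diff]
        tauto
      rw [he]
      exact h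
  · push Not at k1
    have he : (Y \ C) ∪ T = Y ∪ T := by
      ext v
      have hv : v ∈ Y → v ∈ C → v ∈ T := fun a b => k1 v a b
      simp only [mem_union, mem_diff]
      tauto
    rw [he]
    by_cases k2 : ∃ y, y ∈ T ∧ y ∉ Y
    · obtain ⟨y, y1, y2⟩ := k2
      exact bip_union hcompl hint hY (hC T hT)
        ⟨⟨p, h2, k1 p h2 h1⟩, ⟨r, h6, fun e => h5 (hT e)⟩, ⟨y, y2, y1⟩, ⟨t, h8, fun e => h7 (hT e)⟩⟩
    · push Not at k2
      rw [union_eq_left.2 k2]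
      exact hY

/-- a good set can be enlarged -/
theorem bip_grow [Finite K] {E : Set (Set K)} (hcompl : ∀ X ∈ E, Xᶜ ∈ E)
    (hint : ∀ X ∈ E, ∀ Y ∈ E, Crossing X Y → X ∩ Y ∈ E)
    (hsym : ∀ X ∈ E, ∀ Y ∈ E, Crossing X Y → {v | ¬ (v ∈ X ↔ v ∈ Y)} ∈ E)
    (hst : ∀ X ∈ E, Nontriv X → ∃ Y ∈ E, Crossing X Y) {C : Set K}
    (hC : ∀ S, S ⊆ C → S ∈ E) (h2 : ∃ a ∈ C, ∃ b ∈ C, a ≠ b) :
    ∀ n : ℕ, ∀ Y ∈ E, Crossing C Y → (Y \ C).ncard = n → ∃ d, d ∉ C ∧ ∀ T, T ⊆ C → {d} ∪ T ∈ E := by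
  intro n
  induction n using Nat.strong_induction_on with
  | _ n ih =>
    intro Y hY hc hcard
    have hR := fun {T : Set K} (hT : T ⊆ C) => bip_repl hcompl hint hsym hC hY hc hT
    obtain ⟨a, ha, b, hb, hab⟩ := h2
    obtain ⟨_, _, ⟨r, h5, h6⟩, _⟩ := hc
    by_cases k : ∀ x ∈ Y \ C, x = r
    · refine ⟨r, h5, fun T hT => ?_⟩
      have he : ({r} : Set K) = Y \ C := by
        ext x
        constructor
        · rintro rfl
          exact ⟨h6, h5⟩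
        · exact fun hx => k x hx
      rw [he]
      exact hR hT
    · push Not at k
      obtain ⟨x, hx, xr⟩ := k
      have hD : Y \ C ∈ E := by
        have h := hR (empty_subset C)
        rwa [union_empty] at h
      have hDn : Nontriv (Y \ C) := ⟨⟨x, hx, r, ⟨h6, h5⟩, xr⟩, a, fun h => h.2 ha, b, fun h => h.2 hb, hab⟩
      obtain ⟨Z', hZ', hcz'⟩ := hst _ hD hDn
      obtain ⟨Z, hZ, hcz, haZ⟩ : ∃ Z ∈ E, Crossing (Y \ C) Z ∧ a ∉ Z := by
        by_cases ha' : a ∈ Z'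
        · exact ⟨Z'ᶜ, hcompl _ hZ', crossing_compl.2 hcz', fun h => h ha'⟩
        · exact ⟨Z', hZ', hcz', ha'⟩
      obtain ⟨⟨u1, u2, u3⟩, ⟨v1, v2, v3⟩, ⟨w1, w2, w3⟩, ⟨t1, t2, t3⟩⟩ := hcz
      have hM := hR (singleton_subset_iff.2 ha)
      have hN : ((Y \ C) ∪ {a}) \ Z ∈ E := by
        by_cases ho : ∃ o, o ∉ (Y \ C) ∪ {a} ∧ o ∉ Z
        · obtain ⟨o, o1, o2⟩ := ho
          refine bip_diff hcompl hint hM hZ ⟨⟨u1, Or.inl u2, u3⟩, ⟨a, Or.inr rfl, haZ⟩, ⟨w1, ?_, w3⟩, ⟨o, o1, o2⟩⟩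
          rintro (h | h)
          · exact w2 h
          · exact haZ ((mem_singleton_iff.1 h) ▸ w3)
        · push Not at ho
          have he : ((Y \ C) ∪ {a}) \ Z = Zᶜ := by
            ext z
            constructor
            · exact fun h => h.2
            · intro h
              refine ⟨?_, h⟩
              by_contra h'
              exact h (ho z h')
          rw [he]
          exact hcompl _ hZ
      refine ih (((Y \ C) \ Z).ncard) ?_ _ hN ⟨⟨a, ha, Or.inr rfl, haZ⟩, ⟨b, hb, ?_⟩, ⟨v1, v2.2, Or.inl v2, v3⟩,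
        ⟨u1, u2.2, fun h => h.2 u3⟩⟩ ?_
      · rw [← hcard]
        exact Set.ncard_lt_ncard ⟨diff_subset, fun hh => (hh u2).2 u3⟩ (Set.toFinite _)
      · rintro ⟨h | h, _⟩
        · exact h.2 hb
        · exact hab (mem_singleton_iff.1 h).symm
      · congr 1
        ext z
        simp only [mem_diff, mem_union, mem_singleton_iff]
        constructor
        · rintro ⟨⟨h | h, h'⟩, h''⟩
          · exact ⟨h, h'⟩
          · exact absurd (h ▸ ha) h''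
        · rintro ⟨h, h'⟩
          exact ⟨⟨Or.inl h, h'⟩, h.2⟩

/-- from a good set to all sets -/
theorem bip_all [Finite K] {E : Set (Set K)} (hcompl : ∀ X ∈ E, Xᶜ ∈ E)
    (hint : ∀ X ∈ E, ∀ Y ∈ E, Crossing X Y → X ∩ Y ∈ E)
    (hsym : ∀ X ∈ E, ∀ Y ∈ E, Crossing X Y → {v | ¬ (v ∈ X ↔ v ∈ Y)} ∈ E)
    (hst : ∀ X ∈ E, Nontriv X → ∃ Y ∈ E, Crossing X Y) :
    ∀ n : ℕ, ∀ C : Set K, (∀ S, S ⊆ C → S ∈ E) → (∃ a ∈ C, ∃ b ∈ C, a ≠ b) → Cᶜ.ncard = n → ∀ X, X ∈ E := by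
  intro n
  induction n using Nat.strong_induction_on with
  | _ n ih =>
    intro C hC h2 hcard X
    by_cases k : ∃ y, y ∉ C ∧ ∃ y', y' ∉ C ∧ y ≠ y'
    · obtain ⟨Y, hY, hc⟩ := hst C (hC C Subset.rfl) ⟨h2, k⟩
      obtain ⟨d, hd, hg⟩ := bip_grow hcompl hint hsym hst hC h2 _ Y hY hc rfl
      refine ih (({d} ∪ C)ᶜ.ncard) ?_ ({d} ∪ C) ?_ ?_ rfl X
      · rw [← hcard]
        exact Set.ncard_lt_ncard ⟨compl_subset_compl.2 subset_union_right, fun hh => (hh hd) (Or.inl rfl)⟩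
          (Set.toFinite _)
      · intro S hS
        by_cases hdS : d ∈ S
        · have he : S = {d} ∪ (S \ {d}) := by
            rw [union_diff_self, union_eq_right.2 (singleton_subset_iff.2 hdS)]
          rw [he]
          refine hg _ ?_
          rintro x ⟨hx, hxd⟩
          rcases hS hx with h | h
          · exact absurd h hxd
          · exact h
        · refine hC S fun x hx => ?_
          rcases hS hx with h | h
          · exact absurd ((mem_singleton_iff.1 h) ▸ hx) hdS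
          · exact h
      · obtain ⟨a, ha, b, hb, hab⟩ := h2
        exact ⟨a, Or.inr ha, b, Or.inr hb, hab⟩
    · push Not at k
      by_cases hX : X ⊆ C
      · exact hC X hX
      · obtain ⟨x, hx, hxC⟩ := not_subset.1 hX
        have h := hcompl _ (hC Xᶜ fun y hy => by
          by_contra hyC
          exact hy (k y hyC x hxC ▸ hx))
        rwa [compl_compl] at h

theorem bip [Finite K] {E : Set (Set K)} (h4 : ∃ a b c d : K, a ≠ b ∧ a ≠ c ∧ a ≠ d ∧ b ≠ c ∧ b ≠ d ∧ c ≠ d)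
    (h0 : ∅ ∈ E) (h1 : ∀ a, {a} ∈ E) (hcompl : ∀ X ∈ E, Xᶜ ∈ E)
    (hint : ∀ X ∈ E, ∀ Y ∈ E, Crossing X Y → X ∩ Y ∈ E)
    (hsym : ∀ X ∈ E, ∀ Y ∈ E, Crossing X Y → {v | ¬ (v ∈ X ↔ v ∈ Y)} ∈ E)
    (hst : ∀ X ∈ E, Nontriv X → ∃ Y ∈ E, Crossing X Y) (hex : ∃ X ∈ E, Nontriv X) : ∀ X, X ∈ E := by
  obtain ⟨X, hX, hn⟩ := hex
  obtain ⟨a, b, hab, he⟩ := bip_pair hcompl hint hst _ X hX hn rfl
  refine bip_all hcompl hint hsym hst _ {a, b} ?_ ⟨a, Or.inl rfl, b, Or.inr rfl, hab⟩ rfl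
  intro S hS
  by_cases ha : a ∈ S
  · by_cases hb : b ∈ S
    · have h : S = {a, b} := Subset.antisymm hS (by
        rintro x (h | h)
        · exact h ▸ ha
        · exact (mem_singleton_iff.1 h) ▸ hb)
      rw [h]
      exact he
    · have h : S = {a} := by
        ext x
        constructor
        · intro hx
          rcases hS hx with h | h
          · exact h
          · exact absurd ((mem_singleton_iff.1 h) ▸ hx) hb
        · intro h
          exact (mem_singleton_iff.1 h) ▸ ha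
      rw [h]
      exact h1 a
  · by_cases hb : b ∈ S
    · have h : S = {b} := by
        ext x
        constructor
        · intro hx
          rcases hS hx with h | h
          · exact absurd (h ▸ hx) ha
          · exact h
        · intro h
          exact (mem_singleton_iff.1 h) ▸ hb
      rw [h]
      exact h1 b
    · have h : S = ∅ := by
        ext x
        constructor
        · intro hx
          rcases hS hx with h | h
          · exact absurd (h ▸ hx) ha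
          · exact absurd ((mem_singleton_iff.1 h) ▸ hx) hb
        · intro h
          exact h.elim
      rw [h]
      exact h0


end Pool.Agent.SOE
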