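import Pool.Agent.SOE.Defs

/-! Project SOE, module Comb (size 3): splits of an order plus a bipartition which is not an interval.
-/

set_option autoImplicit false

open Set

namespace Pool.Agent.SOE

open Pool.Agent.SOC Pool.Agent.SOD Pool.Agent.SOS Pool.Agent.SOP Pool.Agent.SOW Pool.Agent.RUP

variable {V : Type} [DecidableEq V] {G : SimpleGraph V} {s s' : List V}

theorem Comb_or {p q r : Prop} (h : ¬ (p ↔ q)) (h' : ¬ (q ↔ r)) : p ↔ r := by tauto

theorem Comb_bool {a b c d : Prop} (o1 : ¬ (a ∧ c ∧ ¬ b ∧ ¬ d)) (o2 : ¬ (b ∧ d ∧ ¬ c ∧ ¬ a))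
    (p1 : ¬ (a ∧ b ∧ ¬ c ∧ ¬ d)) (p2 : ¬ (b ∧ c ∧ ¬ d ∧ ¬ a)) (p3 : ¬ (c ∧ d ∧ ¬ a ∧ ¬ b))
    (p4 : ¬ (d ∧ a ∧ ¬ b ∧ ¬ c))
    (mo : ¬ (¬ (a ∧ b) ∧ ¬ (a ∧ c) ∧ ¬ (a ∧ d) ∧ ¬ (b ∧ c) ∧ ¬ (b ∧ d) ∧ ¬ (c ∧ d))) :
    ¬ (¬ a ∧ ¬ b) ∧ ¬ (¬ a ∧ ¬ c) ∧ ¬ (¬ a ∧ ¬ d) ∧ ¬ (¬ b ∧ ¬ c) ∧ ¬ (¬ b ∧ ¬ d) ∧ ¬ (¬ c ∧ ¬ d) := by
  by_cases ha : a <;> by_cases hb : b <;> by_cases hc : c <;> by_cases hd : d <;> simp_all

/-- alternating set -/
structure CombAlt (s : List V) (X : Set V) (a b c d : V) : Prop where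
  ac : a ∈ X ↔ c ∈ X
  bd : b ∈ X ↔ d ∈ X
  ab : ¬ (a ∈ X ↔ b ∈ X)
  cr : CrD s a c b d

theorem CombAlt.rot {X : Set V} {a b c d : V} (hs : IsEnum s) (h : CombAlt s X a b c d) : CombAlt s X b c d a := by
  have hS := crD_sepr hs
  have h1 := h.ac
  have h2 := h.bd
  have h3 := h.ab
  refine ⟨h2, h1.symm, fun e => h3 (h1.trans e.symm), ?_⟩
  exact hS.comm (hS.swap (hS.comm (hS.comm h.cr)))

theorem CombAlt.flip {X : Set V} {a b c d : V} (hs : IsEnum s) (h : CombAlt s X a b c d) : CombAlt s X a d c b := by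
  have hS := crD_sepr hs
  have h1 := h.ac
  have h2 := h.bd
  have h3 := h.ab
  exact ⟨h1, h2.symm, fun e => h3 (e.trans h2.symm), hS.comm (hS.swap (hS.comm h.cr))⟩

theorem Comb_sep {X : Set V} {a b c d : V} :
    sep (fun x y => ordFn s x y + cutSum [X] x y) a b c d = sep (ordFn s) a b c d + spv X a b c d := by
  rw [← corner_sep]
  unfold sep
  ring

omit [DecidableEq V] in
theorem Comb_spv1 {X : Set V} {a b c d : V} (h : Spl X a b c d) : spv X a b c d = 1 := by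
  unfold spv
  exact if_pos h

omit [DecidableEq V] in
theorem Comb_spv0 {X : Set V} {a b c d : V} (h : ¬ Spl X a b c d) : spv X a b c d = 0 := by
  unfold spv
  exact if_neg h

theorem Comb_skew {X : Set V} (hs : IsEnum s) : Skew 1 (fun x y => ordFn s x y + cutSum [X] x y) := by
  intro x y hxy
  have h1 := ordFn_skew hs x y hxy
  have h2 : cutSum [X] x y = cutSum [X] y x := by
    classical
    rw [corner_one, corner_one]
    exact if_congr and_comm rfl rfl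
  have h3 := zadd_self (cutSum [X] y x)
  show ordFn s x y + cutSum [X] x y + (ordFn s y x + cutSum [X] y x) = 1
  rw [h2]
  linear_combination h1 + h3

theorem CombAlt.opp {X Z : Set V} {a b c d : V} (hs : IsEnum s)
    (hZ : IsSplit (fun x y => ordFn s x y + cutSum [X] x y) Z) (h : CombAlt s X a b c d) :
    ¬ (a ∈ Z ∧ c ∈ Z ∧ b ∉ Z ∧ d ∉ Z) := by
  rintro ⟨ha, hc, hb, hd⟩
  have h1 := hZ a ha c hc b hb d hd
  rw [Comb_sep, Comb_spv0 (fun e => e.1 h.ac), add_zero] at h1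
  obtain ⟨⟨n1, n2, n3, n4, n5, n6⟩, h2⟩ := h.cr
  rw [cross_iff_sep hs n2 n3 n4 n5, h1] at h2
  exact zero_ne_one h2

theorem CombAlt.adj {X Z : Set V} {a b c d : V} (hs : IsEnum s)
    (hZ : IsSplit (fun x y => ordFn s x y + cutSum [X] x y) Z) (h : CombAlt s X a b c d) :
    ¬ (a ∈ Z ∧ b ∈ Z ∧ c ∉ Z ∧ d ∉ Z) := by
  rintro ⟨ha, hb, hc, hd⟩
  have h1 := hZ a ha b hb c hc d hd
  have g1 := h.ac
  have g2 := h.bd
  have g3 := h.ab
  have hspl : Spl X a b c d := ⟨g3, fun e => g3 (g1.trans (e.trans g2.symm))⟩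
  rw [Comb_sep, Comb_spv1 hspl] at h1
  obtain ⟨⟨n1, n2, n3, n4, n5, n6⟩, h2⟩ := h.cr
  have h3 : Cross s a b c d := by
    rw [cross_iff_sep hs n1 n3 n4.symm n6]
    have h4 := zadd_self (1 : ZMod 2)
    linear_combination h1 - h4
  exact (crD_sepr hs).amo h.cr ⟨⟨n2, n1, n3, n4.symm, n6, n5⟩, h3⟩

/-- the main step -/
theorem Comb_main {X Z : Set V} (hs : IsEnum s)
    (hZ : IsSplit (fun x y => ordFn s x y + cutSum [X] x y) Z) {a b c d : V}
    (h : CombAlt s X a b c d) (mo : ¬ (a ∈ Z ∧ b ∈ Z) ∧ ¬ (a ∈ Z ∧ c ∈ Z) ∧ ¬ (a ∈ Z ∧ d ∈ Z) ∧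
      ¬ (b ∈ Z ∧ c ∈ Z) ∧ ¬ (b ∈ Z ∧ d ∈ Z) ∧ ¬ (c ∈ Z ∧ d ∈ Z)) :
    ∀ x ∈ Z, ∀ z ∈ Z, Blk s X x z := by
  have hS := crD_sepr hs
  -- an alternating set for a point of the type of `a`
  have step : ∀ {a b c d : V}, CombAlt s X a b c d → (¬ (a ∈ Z ∧ b ∈ Z) ∧ ¬ (a ∈ Z ∧ c ∈ Z) ∧ ¬ (a ∈ Z ∧ d ∈ Z) ∧
      ¬ (b ∈ Z ∧ c ∈ Z) ∧ ¬ (b ∈ Z ∧ d ∈ Z) ∧ ¬ (c ∈ Z ∧ d ∈ Z)) → ∀ z ∈ Z, (z ∈ X ↔ a ∈ X) →
      ∃ b' c' d', CombAlt s X z b' c' d' ∧ b' ∉ Z ∧ c' ∉ Z ∧ d' ∉ Z := by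
    intro a b c d h mo z hz hza
    by_cases e1 : z = a
    · subst e1
      exact ⟨b, c, d, h, fun e => mo.1 ⟨hz, e⟩, fun e => mo.2.1 ⟨hz, e⟩, fun e => mo.2.2.1 ⟨hz, e⟩⟩
    by_cases e2 : z = c
    · subst e2
      exact ⟨d, a, b, (h.rot hs).rot hs, fun e => mo.2.2.2.2.2 ⟨hz, e⟩, fun e => mo.2.1 ⟨e, hz⟩,
        fun e => mo.2.2.2.1 ⟨e, hz⟩⟩
    have g1 := h.ac
    have g2 := h.bd
    have g3 := h.ab
    have e3 : z ≠ b := by
      rintro rfl
      exact g3 hza.symm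
    have e4 : z ≠ d := by
      rintro rfl
      exact g3 (hza.symm.trans g2.symm)
    -- chord b d separates z from c or from a
    have key : ∀ {a' b' c' d' : V}, CombAlt s X z b' c' d' → (¬ (b' ∈ Z ∧ c' ∈ Z)) → (¬ (b' ∈ Z ∧ d' ∈ Z)) →
        (¬ (c' ∈ Z ∧ d' ∈ Z)) → b' ∉ Z ∧ c' ∉ Z ∧ d' ∉ Z := by
      intro a' b' c' d' h' m1 m2 m3
      have q1 := h'.adj hs hZ
      have q2 := h'.opp hs hZ
      have q3 := (h'.flip hs).adj hs hZ
      refine ⟨fun e => ?_, fun e => ?_, fun e => ?_⟩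
      · exact q1 ⟨hz, e, fun e' => m1 ⟨e, e'⟩, fun e' => m2 ⟨e, e'⟩⟩
      · exact q2 ⟨hz, e, fun e' => m1 ⟨e', e⟩, fun e' => m3 ⟨e, e'⟩⟩
      · exact q3 ⟨hz, e, fun e' => m3 ⟨e', e⟩, fun e' => m2 ⟨e', e⟩⟩
    rcases hS.add2 (hS.comm h.cr) (Ne.symm e2) (Ne.symm e1) (Ne.symm e3) (Ne.symm e4) with k | k
    · -- CrD b d c z
      have h' : CombAlt s X z b c d := ⟨hza.trans g1, g2, fun e => g3 (hza.symm.trans e), hS.swap (hS.comm k)⟩
      obtain ⟨u1, u2, u3⟩ := key (a' := z) h' mo.2.2.2.1 mo.2.2.2.2.1 mo.2.2.2.2.2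
      exact ⟨b, c, d, h', u1, u2, u3⟩
    · -- CrD b d a z
      have h' : CombAlt s X z b a d := ⟨hza, g2, fun e => g3 (hza.symm.trans e), hS.swap (hS.comm k)⟩
      obtain ⟨u1, u2, u3⟩ := key (a' := z) h' (fun e => mo.1 ⟨e.2, e.1⟩) mo.2.2.2.2.1 mo.2.2.1
      exact ⟨b, a, d, h', u1, u2, u3⟩
  have step2 : ∀ z ∈ Z, ∃ b' c' d', CombAlt s X z b' c' d' ∧ b' ∉ Z ∧ c' ∉ Z ∧ d' ∉ Z := by
    intro z hz
    by_cases hza : z ∈ X ↔ a ∈ X
    · exact step h mo z hz hza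
    · have g3 := h.ab
      refine step (h.rot hs) ?_ z hz (Comb_or hza g3)
      exact ⟨mo.2.2.2.1, mo.2.2.2.2.1, fun e => mo.1 ⟨e.2, e.1⟩, mo.2.2.2.2.2, fun e => mo.2.1 ⟨e.2, e.1⟩,
        fun e => mo.2.2.1 ⟨e.2, e.1⟩⟩
  -- all points of Z have the same type
  have ty : ∀ x ∈ Z, ∀ z ∈ Z, (x ∈ X ↔ z ∈ X) := by
    intro x hx z hz
    by_contra hne
    obtain ⟨b', c', d', h', hb', hc', hd'⟩ := step2 x hx
    have g1 := h'.ac
    have g2 := h'.bd
    have g3 := h'.ab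
    have g4 : z ∈ X ↔ b' ∈ X := Comb_or (fun e => hne e.symm) g3
    have n1 : z ≠ b' := fun e => hb' (e ▸ hz)
    have n2 : z ≠ c' := fun e => hc' (e ▸ hz)
    have n3 : z ≠ d' := fun e => hd' (e ▸ hz)
    have n4 : z ≠ x := by
      rintro rfl
      exact hne Iff.rfl
    rcases hS.add2 h'.cr (Ne.symm n3) (Ne.symm n1) (Ne.symm n4) (Ne.symm n2) with k | k
    · -- CrD x c' d' z
      have h'' : CombAlt s X x z c' d' := ⟨g1, g4.trans g2, hne, hS.comm (hS.swap (hS.comm k))⟩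
      exact h''.adj hs hZ ⟨hx, hz, hc', hd'⟩
    · have h'' : CombAlt s X x z c' b' := ⟨g1, g4, hne, hS.comm (hS.swap (hS.comm k))⟩
      exact h''.adj hs hZ ⟨hx, hz, hc', hb'⟩
  intro x hx z hz
  refine ⟨ty x hx z hz, fun y y' hy hy' hcr => ?_⟩
  have t1 := ty x hx z hz
  have hyZ : y ∉ Z := by
    intro e
    exact iff_not_self ((ty x hx y e).trans hy)
  have hyZ' : y' ∉ Z := by
    intro e
    exact iff_not_self ((ty x hx y' e).trans hy')
  have n1 : x ≠ z := by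
    rintro rfl
    unfold Cross SOC.Btw at hcr
    omega
  have n2 : x ≠ y := by
    rintro rfl
    exact hyZ hx
  have n3 : x ≠ y' := by
    rintro rfl
    exact hyZ' hx
  have n4 : z ≠ y := by
    rintro rfl
    exact hyZ hz
  have n5 : z ≠ y' := by
    rintro rfl
    exact hyZ' hz
  have n6 : y ≠ y' := by
    rintro rfl
    exact hcr Iff.rfl
  have h' : CombAlt s X x y z y' := ⟨t1, hy.trans hy'.symm, fun e => iff_not_self (e.trans hy), ⟨n1, n2, n3, n4, n5, n6⟩, hcr⟩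
  exact h'.opp hs hZ ⟨hx, hz, hyZ, hyZ'⟩

/-- PROOF. w' := ordFn s + cutSum [X]; sep w' a b c d = sep (ordFn s) a b c d + spv X a b c d (corner_sep). Call x, y, x', y' ALTERNATING if x, x' ∈ X, y, y' ∉ X and Cross s x x' y y'. For an
alternating set all three pairings have sep w' = 1: (x x' | y y'): crossing, spv = 0; (x y | x' y') and (x y' | x' y): not crossing (at most one pairing crosses, e.g. by crD_sepr.amo or omega on positions), spv = 1.
So the split Z contains 0, 1, 3 or 4 points of an alternating set (if it contains exactly two then sep w' of these two and the other two is 0). X is not an interval: there is an alternating set (not CI s X, cross_iff_sep).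
Replace Z by its complement (IsSplit.compl, the claim is symmetric) such that Z contains at most one point of x y x' y'. Claim: all points of Z are in one block. Suppose z, z' ∈ Z, ¬ Blk s X z z'.
STEP 1. For every point z there is an alternating set consisting of z and three points of {x, y, x', y'} (z replaces the point of the same type in the arc between the two points of the other type which contains z). With z ∈ Z
it has at most two points in Z, so exactly one: z. Rename: z ∈ Z and the three others are not in Z; call them again x y x' y' with z among them, say z = x (if z ∉ X: the same with the types exchanged).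
STEP 2. If z' ∉ X (other type): z' replaces y or y' (the one in the same arc between x and x'): alternating set with exactly two points in Z. Contradiction. If z' ∈ X: if z' is in the arc between y and y' which contains x': replace x' by z':
contradiction. Otherwise z' is in the arc between y' and y which contains z; as z, z' are not in one block there is t ∉ X between z and z' in this arc (Blk: there are t, t' ∉ X with Cross s z z' t t'; one of them is not separated from z and z'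
by ... the part of the arc between z and z'). If t ∉ Z: z, t, z' and one of y, y' form an alternating set with exactly two points in Z. If t ∈ Z: z, t, x' and one of y, y' (the one on the other side of z) form an alternating set with
exactly two points (z, t) in Z. Contradiction in all cases. (All statements about positions are decided by omega after unfolding Cross, Btw, with idx_ne for the distinctness.) -/
theorem split_block {X Z : Set V} (hs : IsEnum s) (hX : ¬ CI s X)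
    (hZ : IsSplit (fun x y => ordFn s x y + cutSum [X] x y) Z) :
    (∀ x ∈ Z, ∀ z ∈ Z, Blk s X x z) ∨ (∀ x, x ∉ Z → ∀ z, z ∉ Z → Blk s X x z) := by
  have hS := crD_sepr hs
  -- an alternating set
  have hex : ∃ a b c d, CombAlt s X a b c d := by
    by_contra hno
    apply hX
    intro a ha c hc b hb d hd
    by_contra hne
    have h1 : sep (ordFn s) a c b d = 1 := (zmod2_cases _).resolve_left hne
    have n1 : a ≠ c := by
      rintro rfl
      exact hne (sep_self_left _ _ _ _)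
    have n6 : b ≠ d := by
      rintro rfl
      exact hne (sep_self_right _ _ _ _)
    have n2 : a ≠ b := fun e => hb (e ▸ ha)
    have n3 : a ≠ d := fun e => hd (e ▸ ha)
    have n4 : c ≠ b := fun e => hb (e ▸ hc)
    have n5 : c ≠ d := fun e => hd (e ▸ hc)
    exact hno ⟨a, b, c, d, ⟨fun _ => hc, fun _ => ha⟩, ⟨fun e => absurd e hb, fun e => absurd e hd⟩,
      fun e => hb (e.1 ha), ⟨n1, n2, n3, n4, n5, n6⟩, (cross_iff_sep hs n2 n3 n4 n5).2 h1⟩
  obtain ⟨a, b, c, d, h⟩ := hex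
  have hZ' : IsSplit (fun x y => ordFn s x y + cutSum [X] x y) Zᶜ := IsSplit.compl (Comb_skew hs) hZ
  have o1 := h.opp hs hZ
  have o2 := (h.rot hs).opp hs hZ
  have p1 := h.adj hs hZ
  have p2 := (h.rot hs).adj hs hZ
  have p3 := ((h.rot hs).rot hs).adj hs hZ
  have p4 := (((h.rot hs).rot hs).rot hs).adj hs hZ
  by_cases mo : ¬ (a ∈ Z ∧ b ∈ Z) ∧ ¬ (a ∈ Z ∧ c ∈ Z) ∧ ¬ (a ∈ Z ∧ d ∈ Z) ∧
      ¬ (b ∈ Z ∧ c ∈ Z) ∧ ¬ (b ∈ Z ∧ d ∈ Z) ∧ ¬ (c ∈ Z ∧ d ∈ Z)
  · exact Or.inl (Comb_main hs hZ h mo)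
  · right
    exact Comb_main hs hZ' h (Comb_bool o1 o2 p1 p2 p3 p4 mo)


end Pool.Agent.SOE
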