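import Pool.Agent.SOE.Defs

/-! Project SOE, module Hf (size 2): without centre there is no free centre at a prime partition with a W4.
-/

set_option autoImplicit false

open Set

namespace Pool.Agent.SOE

open Pool.Agent.SOC Pool.Agent.SOD Pool.Agent.SOS Pool.Agent.SOP Pool.Agent.SOW Pool.Agent.RUP

variable {V : Type} {G : SimpleGraph V}

theorem Hf_core {π : V → Set V} (hH : Hub G π) {z : V} (hz : FreeC G π z) {p p' q q' r : V}
    (h : W4 G p p' q q' r) (L : Set V) (hL : ∀ u v, π u = π v → (u ∈ L ↔ v ∈ L)) (hp : p ∈ L)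
    (hp' : p' ∉ L) (hzL : z ∉ L) (zp' : p' ≠ z) (zq : q ≠ z) (zq' : q' ≠ z)
    (hqq : ¬ (q ∈ L ↔ q' ∈ L)) : Centre G z L := by
  have hL' : ∀ u v, π u = π v → (u ∈ insert z L ↔ v ∈ insert z L) := by
    intro u v huv
    by_cases hu : u = z
    · subst hu
      rw [hz.1 v huv.symm]
    · by_cases hv : v = z
      · subst hv
        rw [hz.1 u huv]
      · rw [mem_insert_iff, mem_insert_iff, or_iff_right hu, or_iff_right hv]
        exact hL u v huv
  have hcut : ∀ X : Set V, (∀ u v, π u = π v → (u ∈ X ↔ v ∈ X)) → IsPCut G X := by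
    intro X hX x hx x' hx' y hy y' hy' hr
    rcases hH _ _ _ _ hr with e | e
    · exact hy ((hX _ _ e).1 hx)
    · exact hy' ((hX _ _ e).1 hx')
  refine ⟨hzL, ?_, ?_, hcut L hL, hcut _ hL', ?_, ?_⟩
  · by_cases hq : q ∈ L
    · exact ⟨p, hp, q, hq, h.pq.ne⟩
    · have hq' : q' ∈ L := by
        by_contra hq'
        exact hqq ⟨fun e => absurd e hq, fun e => absurd e hq'⟩
      exact ⟨p, hp, q', hq', h.pq'.ne⟩
  · by_cases hq : q ∈ L
    · have hq' : q' ∉ L := fun hq' => hqq ⟨fun _ => hq', fun _ => hq⟩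
      exact ⟨p', hp', zp', q', hq', zq', h.p'q'.ne⟩
    · exact ⟨p', hp', zp', q, hq, zq, h.p'q.ne⟩
  · intro he
    exact he.w4 h ⟨fun e => hp' (e.1 hp), hqq⟩
  · intro a ha b hb hbz hab
    have hne : π a ≠ π b := fun e => hb ((hL _ _ e).1 ha)
    exact ⟨hz.2 a ⟨b, hab, fun e => hne e.symm⟩ (fun e => hzL (e ▸ ha)), hz.2 b ⟨a, hab.symm, hne⟩ hbz⟩

/-- PROOF. Let π, the W4 (p p' | q q' ; r) and z with FreeC G π z be given; hH : Hub G π := hub_of_pp hG hF.sol hπ. p, p', q, q' are attached (e.g. p is adjacent to q and q'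
which are in different parts, so one of them is not in the part of p; see hatt in the proof of no_w42). z is none of p, p', q, q' (if z = p then G.Adj z p' by FreeC, contradiction
to n1; and so on). z is alone in its part. Choose L: if π p' ≠ π q and π p ≠ π q' let L := {v | π v = π p ∨ π v = π q}; then p, q ∈ L, p', q' ∉ L. Otherwise let
L := {v | π v = π p ∨ π v = π q'}; then p, q' ∈ L, p', q ∉ L (if π p' = π q then π p' ≠ π q' since π q ≠ π q', and π q = π p' ≠ π p; if π p = π q' the same).
Centre G z L: z ∉ L (z alone in its part). two, two': the points above (different since p ~ q etc.; ≠ z). cut: L is a union of parts: for a rigid pair x y, x' y' with x, x' ∈ L,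
y, y' ∉ L the ends of each edge are in different parts, contradiction to Hub. cut': insert z L is a union of parts too. nepc: the W4 (Spl L p p' q q': p ∈ L, p' ∉ L, exactly one
of q, q' in L). adj: a ∈ L, b ∉ L, G.Adj a b: π a ≠ π b, so a and b are attached, and z is adjacent to both (a ≠ z, b ≠ z). -/
theorem hfree_of_cfree {ι : Type} {w : ι → V → V → ZMod 2} (hG : G.Preconnected) (hF : Fam G w) (hc : CFree G) : HFree G w := by
  intro π hπ p p' q q' r h h1 h2 z hz
  have hH : Hub G π := hub_of_pp hG hF.sol hπ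
  have hatt : ∀ v x y, G.Adj v x → G.Adj v y → π x ≠ π y → Att G π v := by
    intro v x y hx hy hxy
    by_cases he : π x = π v
    · exact ⟨y, hy, fun e => hxy (he.trans e.symm)⟩
    · exact ⟨x, hx, he⟩
  have ap := hatt p q q' h.pq h.pq' h2
  have ap' := hatt p' q q' h.p'q h.p'q' h2
  have aq := hatt q p p' h.pq.symm h.p'q.symm h1
  have aq' := hatt q' p p' h.pq'.symm h.p'q'.symm h1
  have zp : p ≠ z := by
    rintro rfl
    exact h.n1 (hz.2 p' ap' (Ne.symm h.d1))
  have zp' : p' ≠ z := by
    rintro rfl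
    exact h.n1 (hz.2 p ap h.d1).symm
  have zq : q ≠ z := by
    rintro rfl
    exact h.n2 (hz.2 q' aq' (Ne.symm h.d2))
  have zq' : q' ≠ z := by
    rintro rfl
    exact h.n2 (hz.2 q aq h.d2).symm
  by_cases hA : π p' ≠ π q ∧ π p ≠ π q'
  · refine hc z {v | π v = π p ∨ π v = π q} (Hf_core hH hz h _ ?_ (Or.inl rfl) ?_ ?_ zp' zq zq' ?_)
    · intro u v huv
      show (π u = π p ∨ π u = π q) ↔ (π v = π p ∨ π v = π q)
      rw [huv]
    · rintro (e | e)
      · exact h1 e.symm
      · exact hA.1 e
    · rintro (e | e)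
      · exact zp (hz.1 p e.symm)
      · exact zq (hz.1 q e.symm)
    · intro e
      rcases e.1 (Or.inr rfl) with e | e
      · exact hA.2 e.symm
      · exact h2 e.symm
  · have hB : π p' = π q ∨ π p = π q' := by
      by_contra hno
      push Not at hno
      exact hA hno
    have b1 : π p' ≠ π q' := by
      rcases hB with e | e
      · rw [e]
        exact h2
      · rw [← e]
        exact fun e' => h1 e'.symm
    have b2 : π q ≠ π p := by
      rcases hB with e | e
      · rw [← e]
        exact fun e' => h1 e'.symm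
      · rw [e]
        exact h2
    refine hc z {v | π v = π p ∨ π v = π q'} (Hf_core hH hz h _ ?_ (Or.inl rfl) ?_ ?_ zp' zq zq' ?_)
    · intro u v huv
      show (π u = π p ∨ π u = π q') ↔ (π v = π p ∨ π v = π q')
      rw [huv]
    · rintro (e | e)
      · exact h1 e.symm
      · exact b1 e
    · rintro (e | e)
      · exact zp (hz.1 p e.symm)
      · exact zq' (hz.1 q' e.symm)
    · intro e
      rcases e.2 (Or.inr rfl) with e | e
      · exact b2 e
      · exact h2 e


end Pool.Agent.SOE
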