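import Pool.Agent.SOE.NoW4b
import Pool.Agent.SOE.Hf
import Pool.Agent.SOE.Comb

/-! Project SOE, module Blocks (size 2): unions of blocks of an E-P-cut are E-P-cuts.
-/

set_option autoImplicit false

open Set

namespace Pool.Agent.SOE

open Pool.Agent.SOC Pool.Agent.SOD Pool.Agent.SOS Pool.Agent.SOP Pool.Agent.SOW Pool.Agent.RUP

variable {V : Type} [DecidableEq V] {G : SimpleGraph V} {s s' : List V}

/-- PROOF. If CI s X: ¬ Spl X a b c d (corner_spl for a rigid pair, hX.w4 for a W4), so (a ∈ X ↔ b ∈ X) or (c ∈ X ↔ d ∈ X); two elements on the same side of an interval are in one block (CI gives sep = 0, not_cross_iff; for two elements outside use the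
complement IsSplit.compl (ordFn_skew hs)). If not CI s X: w := fun x y => ordFn s x y + cutSum [X] x y is Skew 1 (ordFn_skew, cutSum symmetric: kspan symmetric facts or unfold), IsSol G w (isWO_iff and ind_sol), and for a W4: sep w p p' q q' = sep (ordFn s) .. + spv X .. = 0 + 0
(not_cross_iff from hs.w4, hX.w4). hF : Fam G (fun _ : Unit => w). thmA (rigid pair) or aplus2 (W4, with hfree_of_cfree) give a split Z of w with a, b ∈ Z, c, d ∉ Z; split_block. -/
theorem blk_pair [Finite V] (hG : PrimeG G) (hc : CFree G) (hs : EWO G s) {X : Set V} (hX : EPC G X) {a b c d : V}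
    (h : Rigid G a b c d ∨ ∃ r, W4 G a b c d r) : Blk s X a b ∨ Blk s X c d := by
  have hsk := ordFn_skew hs.enum
  have hn : ¬ Spl X a b c d := by
    rcases h with h | ⟨r, h⟩
    · exact corner_spl hX.cut h
    · exact hX.w4 h
  by_cases hci : CI s X
  · have blkOf : ∀ x z : V, (x ∈ X ↔ z ∈ X) → Blk s X x z := by
      intro x z hxz
      refine ⟨hxz, fun y y' h1 h2 => ?_⟩
      have h1' : (y ∈ X ↔ z ∉ X) := by rw [← hxz]; exact h1
      have h2' : (y' ∈ X ↔ z ∉ X) := by rw [← hxz]; exact h2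
      rw [not_cross_iff hs.enum (strong_ne h1) (strong_ne h2) (strong_ne h1') (strong_ne h2')]
      by_cases hx : x ∈ X
      · exact hci x hx z (hxz.1 hx) y (fun t => h1.1 t hx) y' (fun t => h2.1 t hx)
      · exact (IsSplit.compl hsk hci) x hx z (fun t => hx (hxz.2 t)) y (fun t => t (h1.2 hx)) y' (fun t => t (h2.2 hx))
    by_cases h1 : (a ∈ X ↔ b ∈ X)
    · exact Or.inl (blkOf a b h1)
    · by_cases h2 : (c ∈ X ↔ d ∈ X)
      · exact Or.inr (blkOf c d h2)
      · exact absurd ⟨h1, h2⟩ hn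
  · obtain ⟨w, hwdef⟩ : ∃ w : V → V → ZMod 2, w = fun x y => ordFn s x y + cutSum [X] x y := ⟨_, rfl⟩
    have hsep : ∀ x y z t : V, sep w x y z t = sep (ordFn s) x y z t + spv X x y z t := by
      intro x y z t
      rw [← corner_sep, hwdef]
      unfold sep
      ring
    have hsym : ∀ x y : V, cutSum [X] x y = cutSum [X] y x := by
      intro x y
      unfold cutSum
      congr 2
      funext Y
      by_cases h1 : x ∈ Y <;> by_cases h2 : y ∈ Y <;> simp [h1, h2]
    have hw : Skew 1 w := by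
      intro x y hxy
      have e1 := hsk x y hxy
      have e2 : ∀ t : ZMod 2, t + t = 0 := by decide
      have e3 : w x y + w y x = (ordFn s x y + ordFn s y x) + (cutSum [X] x y + cutSum [X] y x) := by
        rw [hwdef]
        ring
      rw [e3, e1, hsym x y, e2, add_zero]
    have hsol : IsSol G w := by
      intro x y z t hr
      have h1 := (isWO_iff hs.enum).1 hs.wo x y z t hr
      have h2 := ind_sol hX.cut x y z t hr
      rw [hsep, h1, ← corner_sep, h2, add_zero]
    have h4 : ∀ p p' q q' r, W4 G p p' q q' r → sep w p p' q q' = 0 := by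
      intro p p' q q' r h5
      have h1 := (not_cross_iff hs.enum h5.pq.ne h5.pq'.ne h5.p'q.ne h5.p'q'.ne).1 (hs.w4 h5)
      have h2 : spv X p p' q q' = 0 := by
        unfold spv
        rw [if_neg (hX.w4 h5)]
      rw [hsep, h1, h2, add_zero]
    have hF : Fam G (fun _ : Unit => w) :=
      ⟨fun _ => ⟨1, hw⟩, fun _ => hsol, fun {p p' q q' r} h5 _ => h4 p p' q q' r h5⟩
    have hZ : ∃ Z : Set V, a ∈ Z ∧ b ∈ Z ∧ c ∉ Z ∧ d ∉ Z ∧ IsSplit w Z := by
      rcases h with h | ⟨r, h⟩
      · exact thmA hG.1.preconnected hsol h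
      · exact aplus2 hG hw hsol h4 (hfree_of_cfree hG.1.preconnected hF hc) h
    obtain ⟨Z, ha, hb, hc', hd, hZs⟩ := hZ
    rw [hwdef] at hZs
    rcases split_block hs.enum hci hZs with h1 | h1
    · exact Or.inl (h1 a ha b hb)
    · exact Or.inr (h1 c hc' d hd)

/-- PROOF. cut: pcut_blocks. w4: blk_pair: p, p' in one block, then p ∈ U ↔ p' ∈ U (hU, blk_symm), the same for q, q'. -/
theorem epc_blocks [Finite V] (hG : PrimeG G) (hc : CFree G) (hs : EWO G s) {X : Set V} (hX : EPC G X) (hn : Nontriv X) {U : Set V}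
    (hU : ∀ x z, Blk s X x z → x ∈ U → z ∈ U) : EPC G U := by
  refine ⟨pcut_blocks hG hs.enum hs.wo hX.cut hn hU, ?_⟩
  intro p p' q q' r hw hsp
  have hsy : ∀ {x z : V}, Blk s X x z → (x ∈ U ↔ z ∈ U) := fun h => ⟨hU _ _ h, hU _ _ (blk_symm hs.enum h)⟩
  rcases blk_pair hG hc hs hX (Or.inr ⟨r, hw⟩) with h | h
  · exact hsp.1 (hsy h)
  · exact hsp.2 (hsy h)


end Pool.Agent.SOE
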