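import Pool.Agent.SOE.RefA

/-! Project SOE, module CF (size 3): switching vertices, clean statements.
-/

set_option autoImplicit false

open Set

namespace Pool.Agent.SOE

open Pool.Agent.SOC Pool.Agent.SOD Pool.Agent.SOS Pool.Agent.SOP Pool.Agent.SOW Pool.Agent.RUP

variable {V : Type} [DecidableEq V] {G : SimpleGraph V} {s s' : List V} {T : V → V → V → V → Prop} {p q P Q r : V}

/-- PROOF: the points are different (adjacency, d1, d2 of the W4), CrD. -/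
theorem ctx_cd (h : Ctx G s s' T p q P Q r) : CrD s p Q q P ∧ CrD s' p Q q P := by
  have hw := h.w
  have e : p ≠ Q ∧ p ≠ q ∧ p ≠ P ∧ Q ≠ q ∧ Q ≠ P ∧ q ≠ P :=
    ⟨hw.pq'.ne, hw.pq.ne, hw.d1, hw.d2.symm, hw.p'q'.ne.symm, hw.p'q.ne.symm⟩
  exact ⟨⟨e, h.c⟩, ⟨e, h.c'⟩⟩

theorem ctx_bs (h : Ctx G s s' T p q P Q r) : Bs G s s' T := ⟨h.en, h.qt, h.ew⟩

/-- PROOF: in the order s the points are p q Q P cyclically, v cannot be between q and Q and between P and p (omega on positions, or crD_sepr: add). -/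
theorem cf0 (h : Ctx G s s' T p q P Q r) {v : V} (hr : SwR s s' p q P Q v) (hl : SwL s s' p q P Q v) : False := by
  obtain ⟨⟨h1, h2, h3, h4, h5, h6⟩, hc⟩ := (ctx_cd h).1
  obtain ⟨⟨a1, a2, a3, a4, a5, a6⟩, ha⟩ := hr.1
  obtain ⟨⟨b1, b2, b3, b4, b5, b6⟩, hb⟩ := hl.1
  have i1 := idx_ne h.en h1
  have i2 := idx_ne h.en h2
  have i3 := idx_ne h.en h3
  have i4 := idx_ne h.en h4
  have i5 := idx_ne h.en h5
  have i6 := idx_ne h.en h6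
  have j1 := idx_ne h.en a2
  have j2 := idx_ne h.en a4
  have j3 := idx_ne h.en a6
  have j4 := idx_ne h.en b4
  unfold Cross SOC.Btw at hc ha hb
  omega

theorem CF_d4 (h : Ctx G s s' T p q P Q r) : p ≠ q ∧ p ≠ P ∧ p ≠ Q ∧ q ≠ P ∧ q ≠ Q ∧ P ≠ Q :=
  ⟨h.w.pq.ne, h.w.d1, h.w.pq'.ne, h.w.p'q.ne.symm, h.w.d2, h.w.p'q'.ne⟩

theorem CF_r4 (h : Ctx G s s' T p q P Q r) : r ≠ p ∧ r ≠ q ∧ r ≠ P ∧ r ≠ Q :=
  ⟨h.w.rp.ne, h.w.rq.ne, h.w.rp'.ne, h.w.rq'.ne⟩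

theorem CF_swr {v : V} (hr : SwR s s' p q P Q v) : v ≠ p ∧ v ≠ q ∧ v ≠ P ∧ v ≠ Q :=
  ⟨hr.1.1.2.2.2.2.2, hr.1.1.2.1.symm, hr.2.1.2.2.2.1.symm, hr.1.1.2.2.2.1.symm⟩

theorem CF_swl {v : V} (hr : SwL s s' p q P Q v) : v ≠ p ∧ v ≠ q ∧ v ≠ P ∧ v ≠ Q :=
  ⟨hr.1.1.2.1.symm, hr.1.1.2.2.2.2.2, hr.1.1.2.2.2.1.symm, hr.2.1.2.2.2.1.symm⟩

/-- PROOF. If m = r: At4 (W4). Otherwise c1a (RefA): the list [p, q, P, Q, r, m] has no repetition. -/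
theorem cf1 (h : Ctx G s s' T p q P Q r) {m : V} (hm : SwR s s' p q P Q m) : At4 G p q P Q m ∨ Un4 G p q P Q m := by
  by_cases e : m = r
  · subst e
    exact Or.inl ⟨h.w.rp, h.w.rq, h.w.rp', h.w.rq'⟩
  · by_contra hn
    rw [not_or] at hn
    obtain ⟨d1, d2, d3, d4, d5, d6⟩ := CF_d4 h
    obtain ⟨r1, r2, r3, r4⟩ := CF_r4 h
    obtain ⟨m1, m2, m3, m4⟩ := CF_swr hm
    refine c1a (ctx_bs h) (r := r) (m := m) ?_ h.w (ctx_cd h).1 (ctx_cd h).2 hm hn.2 hn.1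
    simp only [List.nodup_cons, List.mem_cons, List.not_mem_nil, or_false, not_or, not_false_eq_true, List.nodup_nil, and_true]
    exact ⟨⟨d1, d2, d3, r1.symm, m1.symm⟩, ⟨d4, d5, r2.symm, m2.symm⟩, ⟨d6, r3.symm, m3.symm⟩, ⟨r4.symm, m4.symm⟩, fun e' => e e'.symm⟩

/-- PROOF. x = p, q, P, Q: Un4. x = m: irreflexive. x = r: c1b0 (m ≠ r since m is not At4). Otherwise c1b. -/
theorem cf2 (h : Ctx G s s' T p q P Q r) {m x : V} (hm : SwR s s' p q P Q m) (hu : Un4 G p q P Q m)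
    (hx : ¬ SwR s s' p q P Q x) (hx' : ¬ SwL s s' p q P Q x) : ¬ G.Adj m x := by
  intro e
  have x1 : x ≠ p := fun k => hu.1 (k ▸ e)
  have x2 : x ≠ q := fun k => hu.2.1 (k ▸ e)
  have x3 : x ≠ P := fun k => hu.2.2.1 (k ▸ e)
  have x4 : x ≠ Q := fun k => hu.2.2.2 (k ▸ e)
  have mr : m ≠ r := fun k => hu.1 (k ▸ h.w.rp)
  obtain ⟨d1, d2, d3, d4, d5, d6⟩ := CF_d4 h
  obtain ⟨r1, r2, r3, r4⟩ := CF_r4 h
  obtain ⟨m1, m2, m3, m4⟩ := CF_swr hm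
  by_cases xr : x = r
  · subst xr
    refine c1b0 (ctx_bs h) (r := x) (m := m) ?_ h.w (ctx_cd h).1 (ctx_cd h).2 hm hu hx hx' e
    simp only [List.nodup_cons, List.mem_cons, List.not_mem_nil, or_false, not_or, not_false_eq_true, List.nodup_nil, and_true]
    exact ⟨⟨d1, d2, d3, r1.symm, m1.symm⟩, ⟨d4, d5, r2.symm, m2.symm⟩, ⟨d6, r3.symm, m3.symm⟩, ⟨r4.symm, m4.symm⟩, mr.symm⟩
  · refine c1b (ctx_bs h) (r := r) (m := m) (x := x) ?_ h.w (ctx_cd h).1 (ctx_cd h).2 hm hu hx hx' e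
    simp only [List.nodup_cons, List.mem_cons, List.not_mem_nil, or_false, not_or, not_false_eq_true, List.nodup_nil, and_true]
    exact ⟨⟨d1, d2, d3, r1.symm, m1.symm, x1.symm⟩, ⟨d4, d5, r2.symm, m2.symm, x2.symm⟩, ⟨d6, r3.symm, m3.symm, x3.symm⟩,
      ⟨r4.symm, m4.symm, x4.symm⟩, ⟨mr.symm, fun k => xr k.symm⟩, e.ne⟩

theorem CF_nd (h : Ctx G s s' T p q P Q r) {m k : V} (hm : SwR s s' p q P Q m) (hk : SwL s s' p q P Q k) :
    [p, q, P, Q, m, k].Nodup := by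
  obtain ⟨d1, d2, d3, d4, d5, d6⟩ := CF_d4 h
  obtain ⟨m1, m2, m3, m4⟩ := CF_swr hm
  obtain ⟨k1, k2, k3, k4⟩ := CF_swl hk
  have mk : m ≠ k := fun e => cf0 h hm (e ▸ hk)
  simp only [List.nodup_cons, List.mem_cons, List.not_mem_nil, or_false, not_or, not_false_eq_true, List.nodup_nil, and_true]
  exact ⟨⟨d1, d2, d3, m1.symm, k1.symm⟩, ⟨d4, d5, m2.symm, k2.symm⟩, ⟨d6, m3.symm, k3.symm⟩, ⟨m4.symm, k4.symm⟩, mk⟩

/-- PROOF. c2b (m ≠ k by cf0). -/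
theorem cf3 (h : Ctx G s s' T p q P Q r) {m k : V} (hm : SwR s s' p q P Q m) (hk : SwL s s' p q P Q k)
    (am : At4 G p q P Q m) (ak : At4 G p q P Q k) : G.Adj m k := by
  by_contra e
  exact c2b (ctx_bs h) (CF_nd h hm hk) h.w (ctx_cd h).1 (ctx_cd h).2 hm hk am ak e

/-- PROOF. cf1 for m and for k (k: h.mir; SwL for p q P Q is definitionally SwR for q p Q P; At4, Un4 permuted). The three bad cases: c2a, c2d, c2c. -/
theorem cf4 (h : Ctx G s s' T p q P Q r) {m k : V} (hm : SwR s s' p q P Q m) (hk : SwL s s' p q P Q k)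
    (hmk : G.Adj m k) : At4 G p q P Q m ∧ At4 G p q P Q k := by
  have nd := CF_nd h hm hk
  have hcd := ctx_cd h
  have k1 : At4 G p q P Q k ∨ Un4 G p q P Q k := by
    rcases cf1 h.mir (m := k) hk with a | a
    · exact Or.inl ⟨a.2.1, a.1, a.2.2.2, a.2.2.1⟩
    · exact Or.inr ⟨a.2.1, a.1, a.2.2.2, a.2.2.1⟩
  rcases cf1 h hm with a | a <;> rcases k1 with b | b
  · exact ⟨a, b⟩
  · exact (c2a (ctx_bs h) nd h.w hcd.1 hcd.2 hm hk a b hmk).elim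
  · exact (c2d (ctx_bs h) nd h.w hcd.1 hcd.2 hm hk a b hmk).elim
  · exact (c2c (ctx_bs h) nd h.w hcd.1 hcd.2 hm hk a b hmk).elim

/-- PROOF. x = p, q, P, Q: At4. x = k: x is SwR, contradiction to hx. x = m: irreflexive. m = k: trivial. Otherwise c3. -/
theorem cf5 (h : Ctx G s s' T p q P Q r) {m k x : V} (hm : SwR s s' p q P Q m) (hk : SwR s s' p q P Q k)
    (am : At4 G p q P Q m) (ak : At4 G p q P Q k) (hx : ¬ SwR s s' p q P Q x) (hx' : ¬ SwL s s' p q P Q x)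
    (hmx : G.Adj m x) : G.Adj k x := by
  by_cases x1 : x = p
  · exact x1 ▸ ak.1
  by_cases x2 : x = q
  · exact x2 ▸ ak.2.1
  by_cases x3 : x = P
  · exact x3 ▸ ak.2.2.1
  by_cases x4 : x = Q
  · exact x4 ▸ ak.2.2.2
  by_cases mk : m = k
  · exact mk ▸ hmx
  by_contra e
  have kx : k ≠ x := fun c => hx (c ▸ hk)
  obtain ⟨d1, d2, d3, d4, d5, d6⟩ := CF_d4 h
  obtain ⟨m1, m2, m3, m4⟩ := CF_swr hm
  obtain ⟨k1, k2, k3, k4⟩ := CF_swr hk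
  refine c3 (ctx_bs h) (m := m) (k := k) (x := x) ?_ h.w (ctx_cd h).1 (ctx_cd h).2 hm hk am ak hx hx' hmx e
  simp only [List.nodup_cons, List.mem_cons, List.not_mem_nil, or_false, not_or, not_false_eq_true, List.nodup_nil, and_true]
  exact ⟨⟨d1, d2, d3, m1.symm, k1.symm, fun c => x1 c.symm⟩, ⟨d4, d5, m2.symm, k2.symm, fun c => x2 c.symm⟩,
    ⟨d6, m3.symm, k3.symm, fun c => x3 c.symm⟩, ⟨m4.symm, k4.symm, fun c => x4 c.symm⟩, ⟨mk, hmx.ne⟩, kx⟩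

end Pool.Agent.SOE
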