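import Pool.Agent.SOE.PairC

/-! Project SOE, module Cen (size 3): two consecutive reversed P-cuts give a centre.
-/

set_option autoImplicit false

open Set

namespace Pool.Agent.SOE

open Pool.Agent.SOC Pool.Agent.SOD Pool.Agent.SOS Pool.Agent.SOP Pool.Agent.SOW Pool.Agent.RUP

variable {V : Type} [DecidableEq V] {G : SimpleGraph V} {s s' : List V} {T : V → V → V → V → Prop} {p q P Q r : V}

theorem cen_aux (hG : PrimeG G) (h : Ctx G s s' T p q P Q r) {X₁ X₂ : Set V} (h1 : IsPCut G X₁)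
    (h12 : X₁ ⊆ X₂) (hp : p ∈ X₁) (hq : q ∈ X₁) (hP : P ∉ X₂) (hQ : Q ∉ X₂) {z : V}
    (hz1 : z ∉ X₁) (hz2 : z ∈ X₂) (hc : IsPCut G (insert z X₁))
    (hadj : ∀ a ∈ X₁, ∀ b, b ∉ X₁ → b ≠ z → G.Adj a b → G.Adj z a ∧ G.Adj z b) : Centre G z X₁ where
  hz := hz1
  two := ⟨p, hp, q, hq, h.w.pq.ne⟩
  two' := ⟨P, fun k => hP (h12 k), fun k => hP (k ▸ hz2), Q, fun k => hQ (h12 k), fun k => hQ (k ▸ hz2), h.w.p'q'.ne⟩
  cut := h1
  cut' := hc
  nepc := by
    intro he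
    refine he.w4 h.w ⟨?_, ?_⟩
    · intro k
      exact hP (h12 (k.1 hp))
    · intro k
      exact hQ (h12 (k.1 hq))
  adj := hadj

theorem cen_pair (hG : PrimeG G) (h : Ctx G s s' T p q P Q r) {X₁ X₂ : Set V} (h1 : IsPCut G X₁) (h2 : IsPCut G X₂)
    (h12 : X₁ ⊆ X₂) (hp : p ∈ X₁) (hq : q ∈ X₁) (hP : P ∉ X₂) (hQ : Q ∉ X₂) {z t : V}
    (hz : SwR s s' p q P Q z) (ht : SwL s s' p q P Q t) (hz1 : z ∉ X₁) (hz2 : z ∈ X₂) (ht1 : t ∉ X₁) (ht2 : t ∈ X₂)
    (hall : ∀ v, v ∈ X₂ → v ∉ X₁ → v = z ∨ v = t) (hc : IsPCut G (insert z X₁)) (hzt : z ≠ t) : Centre G z X₁ := by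
  refine cen_aux hG h h1 h12 hp hq hP hQ hz1 hz2 hc ?_
  intro a ha b hb hbz hab
  by_cases hbt : b = t
  · subst hbt
    have az := (uniqR hG h hz hz).2
    have at' := (uniqL hG h ht ht).2
    have hzb : G.Adj z b := cf3 h hz ht az at'
    refine ⟨?_, hzb⟩
    have hPX : P ∉ insert z X₁ := by
      rintro (k | k)
      · exact hP (k ▸ hz2)
      · exact hP (h12 k)
    have hbX : b ∉ insert z X₁ := by
      rintro (k | k)
      · exact hbz k
      · exact hb k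
    have hza : z ≠ a := fun k => hz1 (k ▸ ha)
    have hPb : P ≠ b := fun k => hP (k ▸ ht2)
    rcases pcc hc (Set.mem_insert z X₁) (Set.mem_insert_of_mem z ha) hPX hbX hza hPb az.2.2.1 hab with k | k
    · exact k.1
    · exact (endp hG h h1 h2 h12 hp hq hP hQ (Or.inl hz) hz1 hz2 ha hP k.2.symm).1
  · have hb2 : b ∉ X₂ := by
      intro k
      rcases hall b k hb with k' | k'
      · exact hbz k'
      · exact hbt k'
    exact endp hG h h1 h2 h12 hp hq hP hQ (Or.inl hz) hz1 hz2 ha hb2 hab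

theorem cen_R (hG : PrimeG G) (h : Ctx G s s' T p q P Q r) {X₁ X₂ : Set V} (h1 : IsPCut G X₁) (h2 : IsPCut G X₂)
    (h12 : X₁ ⊆ X₂) (hp : p ∈ X₁) (hq : q ∈ X₁) (hP : P ∉ X₂) (hQ : Q ∉ X₂)
    (hsw : ∀ v, v ∈ X₂ → v ∉ X₁ → SwR s s' p q P Q v ∨ SwL s s' p q P Q v) {z : V} (hz1 : z ∉ X₁) (hz2 : z ∈ X₂)
    (hz : SwR s s' p q P Q z) : ∃ z L, Centre G z L := by
  by_cases hall : ∀ v, v ∈ X₂ → v ∉ X₁ → v = z
  · have he : X₂ = insert z X₁ := by
      ext v
      constructor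
      · intro k
        by_cases k1 : v ∈ X₁
        · exact Set.mem_insert_of_mem z k1
        · exact Or.inl (hall v k k1)
      · rintro (k | k)
        · exact k ▸ hz2
        · exact h12 k
    refine ⟨z, X₁, cen_aux hG h h1 h12 hp hq hP hQ hz1 hz2 (he ▸ h2) ?_⟩
    intro a ha b hb hbz hab
    have hb2 : b ∉ X₂ := fun k => hbz (hall b k hb)
    exact endp hG h h1 h2 h12 hp hq hP hQ (Or.inl hz) hz1 hz2 ha hb2 hab
  · push Not at hall
    obtain ⟨t, ht2, ht1, htz⟩ := hall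
    have ht : SwL s s' p q P Q t := by
      rcases hsw t ht2 ht1 with k | k
      · exact absurd (uniqR hG h k hz).1 htz
      · exact k
    have hall : ∀ v, v ∈ X₂ → v ∉ X₁ → v = z ∨ v = t := by
      intro v k2 k1
      rcases hsw v k2 k1 with k | k
      · exact Or.inl (uniqR hG h k hz).1
      · exact Or.inr (uniqL hG h k ht).1
    have he : X₂ = insert z (insert t X₁) := by
      ext v
      constructor
      · intro k
        by_cases k1 : v ∈ X₁
        · exact Set.mem_insert_of_mem z (Set.mem_insert_of_mem t k1)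
        · rcases hall v k k1 with k' | k'
          · exact Or.inl k'
          · exact Or.inr (Or.inl k')
      · rintro (k | k | k)
        · exact k ▸ hz2
        · exact k ▸ ht2
        · exact h12 k
    rcases pair_cut hG h h1 hz ht (he ▸ h2) hp hq (fun k => hP (h12 k)) (fun k => hQ (h12 k)) hz1 ht1 with k | k
    · exact ⟨z, X₁, cen_pair hG h h1 h2 h12 hp hq hP hQ hz ht hz1 hz2 ht1 ht2 hall k (fun e => htz e.symm)⟩
    · exact ⟨t, X₁, cen_pair hG h.mir h1 h2 h12 hq hp hQ hP (z := t) (t := z) ht hz ht1 ht2 hz1 hz2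
        (fun v k2 k1 => (hall v k2 k1).symm) k htz⟩

/-- PROOF. Let z ∈ X₂, z ∉ X₁. By h.mir (and exchange of p, q and of P, Q) assume SwR z. CASE 1: no other element: X₂ = insert z X₁. Centre G z X₁: two: p, q; two': P, Q (≠ z); cut, cut'; nepc: W4 G p P q Q r with Spl X₁ p P q Q; adj: a ∈ X₁, b ∉ X₂: endp.
CASE 2: there is another element t; it is SwL (uniqR), and there is no third one (uniqR, uniqL): X₂ = insert z (insert t X₁). pair_cut. If insert z X₁ is a P-cut: Centre G z X₁: adj: let a ∈ X₁, b ∉ X₁, b ≠ z, a ~ b. If b ≠ t: b ∉ X₂, endp. If b = t: z ~ t (cf3, uniqR, uniqL), and z ~ a: pcc for insert z X₁ and the edges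
z P, a t: (z ~ a ∧ P ~ t) ∨ (z ~ t ∧ P ~ a); in the second case endp for the edge a P gives z ~ a. If insert t X₁ is a P-cut: the same for h.mir. -/
theorem cen_exists (hG : PrimeG G) (h : Ctx G s s' T p q P Q r) {X₁ X₂ : Set V} (h1 : IsPCut G X₁) (h2 : IsPCut G X₂)
    (h12 : X₁ ⊆ X₂) (hv : ∃ v, v ∈ X₂ ∧ v ∉ X₁) (hp : p ∈ X₁) (hq : q ∈ X₁) (hP : P ∉ X₂) (hQ : Q ∉ X₂)
    (hsw : ∀ v, v ∈ X₂ → v ∉ X₁ → SwR s s' p q P Q v ∨ SwL s s' p q P Q v) : ∃ z L, Centre G z L := by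
  obtain ⟨z, hz2, hz1⟩ := hv
  rcases hsw z hz2 hz1 with k | k
  · exact cen_R hG h h1 h2 h12 hp hq hP hQ hsw hz1 hz2 k
  · exact cen_R hG h.mir h1 h2 h12 hq hp hQ hP (fun v k2 k1 => (hsw v k2 k1).symm) hz1 hz2 k


end Pool.Agent.SOE
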