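import Pool.Agent.SOE.Gath
import Pool.Agent.SOP.Corner

/-! Project SOE, module Corn (size 3): corners and symmetric differences of crossing E-P-cuts.
-/

set_option autoImplicit false

open Set

namespace Pool.Agent.SOE

open Pool.Agent.SOC Pool.Agent.SOD Pool.Agent.SOS Pool.Agent.SOP Pool.Agent.SOW Pool.Agent.RUP

variable {V : Type} [DecidableEq V] {G : SimpleGraph V} {s s' : List V}

omit [DecidableEq V] in
theorem Corn_ne {Z : Set V} {x y : V} (hx : x ∈ Z) (hy : y ∉ Z) : x ≠ y := fun e => hy (e ▸ hx)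

/-- reversing an E-P-cut which is an interval -/
theorem Corn_flip (hs : EWO G s) {X : Set V} (hX : EPC G X) (hci : CI s X) :
    ∃ s₂, EWO G s₂ ∧ ∀ a b c d, a ≠ c → a ≠ d → b ≠ c → b ≠ d →
      sep (ordFn s₂) a b c d = sep (ordFn s) a b c d + spv X a b c d := by
  obtain ⟨s₂, h1, h2⟩ := flip_one hs.enum hci
  refine ⟨s₂, ⟨h1, ?_, ?_⟩, h2⟩
  · refine flip_wo (L := [X]) hs.enum h1 hs.wo (fun Z hZ => ?_) ?_
    · rw [List.mem_singleton] at hZ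
      exact hZ ▸ hX.cut
    · intro a b c d e1 e2 e3 e4
      rw [h2 a b c d e1 e2 e3 e4, List.map_cons, List.map_nil, List.sum_cons, List.sum_nil, add_zero]
  · intro p p' q q' r hw
    have e1 := hw.pq.ne
    have e2 := hw.pq'.ne
    have e3 := hw.p'q.ne
    have e4 := hw.p'q'.ne
    rw [not_cross_iff h1 e1 e2 e3 e4, h2 p p' q q' e1 e2 e3 e4, (not_cross_iff hs.enum e1 e2 e3 e4).1 (hs.w4 hw), zero_add]
    unfold spv
    exact if_neg (hX.w4 hw)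

theorem Corn_core [Finite V] (hG : PrimeG G) (hc : CFree G) (hs : EWO G s) {X Y : Set V} (hX : EPC G X) (hY : EPC G Y)
    (hcr : Crossing X Y) {p p' q q' r : V} (hw : W4 G p p' q q' r) (hpY : p ∈ Y) (hp'Y : p' ∉ Y)
    (hqX : q ∈ X) (hqY : q ∈ Y) (hq'X : q' ∉ X) (hq'Y : q' ∈ Y) : False := by
  obtain ⟨⟨c1, c1X, c1Y⟩, ⟨u, huX, huY⟩, ⟨c3, c3X, c3Y⟩, ⟨v, hvX, hvY⟩⟩ := hcr
  have hn : Nontriv X := ⟨⟨c1, c1X, u, huX, Corn_ne c1Y huY⟩, ⟨c3, c3X, v, hvX, Corn_ne c3Y hvY⟩⟩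
  obtain ⟨s₁, h1, hci, -, -⟩ := gath hG hc hs hX hn
  obtain ⟨s₂, h2, hsep⟩ := Corn_flip h1 hX hci
  have key : ∀ t : List V, EWO G t → sep (ordFn t) q q' u v = 0 := by
    intro t ht
    rcases blk_pair hG hc ht hY (Or.inr ⟨r, hw⟩) with hb | hb
    · exact absurd (hb.1.1 hpY) hp'Y
    · have hu : u ∈ Y ↔ q ∉ Y := ⟨fun k => absurd k huY, fun k => absurd hqY k⟩
      have hv : v ∈ Y ↔ q ∉ Y := ⟨fun k => absurd k hvY, fun k => absurd hqY k⟩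
      exact (not_cross_iff ht.enum (Corn_ne hqY huY) (Corn_ne hqY hvY) (Corn_ne hq'Y huY) (Corn_ne hq'Y hvY)).1 (hb.2 u v hu hv)
  have e1 := key s₁ h1
  have e2 := key s₂ h2
  rw [hsep q q' u v (Corn_ne hqY huY) (Corn_ne hqY hvY) (Corn_ne hq'Y huY) (Corn_ne hq'Y hvY), e1, zero_add] at e2
  unfold spv at e2
  rw [if_pos ⟨fun k => hq'X (k.1 hqX), fun k => hvX (k.1 huX)⟩] at e2
  exact absurd e2 (by decide)

theorem Corn_core2 [Finite V] (hG : PrimeG G) (hc : CFree G) (hs : EWO G s) {X Y : Set V} (hX : EPC G X) (hY : EPC G Y)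
    (hcr : Crossing X Y) {p p' q q' r : V} (hw : W4 G p p' q q' r) (hp : p ∈ X ∩ Y) (hp' : p' ∉ X ∩ Y)
    (hq : q ∈ X ∩ Y) (hq' : q' ∉ X ∩ Y) : False := by
  have hpX := hp.1
  have hpY := hp.2
  have hqX := hq.1
  have hqY := hq.2
  have a1 : p' ∈ X ∨ q' ∈ X := by
    by_contra k
    rw [not_or] at k
    exact hX.w4 hw ⟨fun e => k.1 (e.1 hpX), fun e => k.2 (e.1 hqX)⟩
  have a2 : p' ∈ Y ∨ q' ∈ Y := by
    by_contra k
    rw [not_or] at k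
    exact hY.w4 hw ⟨fun e => k.1 (e.1 hpY), fun e => k.2 (e.1 hqY)⟩
  rcases a1 with b1 | b1
  · have b2 : p' ∉ Y := fun k => hp' ⟨b1, k⟩
    have b3 : q' ∈ Y := a2.resolve_left b2
    have b4 : q' ∉ X := fun k => hq' ⟨k, b3⟩
    exact Corn_core hG hc hs hX hY hcr hw hpY b2 hqX hqY b4 b3
  · have b2 : q' ∉ Y := fun k => hq' ⟨b1, k⟩
    have b3 : p' ∈ Y := a2.resolve_right b2
    have b4 : p' ∉ X := fun k => hp' ⟨k, b3⟩
    exact Corn_core hG hc hs hX hY hcr (w4_comm hw) hqY b2 hpX hpY b4 b3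

/-- PROOF. cut: pcut_inter. w4: let W4 G p p' q q' r with Spl (X ∩ Y). By w4_swap, w4_swap' assume p, q ∈ X ∩ Y, p', q' ∉ X ∩ Y. ¬ Spl X: p' ∈ X or q' ∈ X; ¬ Spl Y: p' ∈ Y or q' ∈ Y. So (p' ∈ X, p' ∉ Y, q' ∈ Y, q' ∉ X) or the same with X and Y exchanged (state the first case as a lemma for both).
gath for X (Nontriv X from the crossing): s₁ with CI s₁ X. flip_one: s₂ with sep s₂ = sep s₁ + spv X; EWO G s₂ (rigid pairs and W4 pairs have spv X = 0: corner_spl, hX.w4). blk_pair for Y, s₁ and this W4: not Blk s₁ Y p p' (p ∈ Y, p' ∉ Y), so Blk s₁ Y q q'; the same for s₂. Let u ∈ X, u ∉ Y and v ∉ X, v ∉ Y (crossing).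
Blk: ¬ Cross s₁ q q' u v and ¬ Cross s₂ q q' u v. But Spl X q q' u v (q, u ∈ X, q', v ∉ X), so the seps differ: contradiction. -/
theorem epc_inter [Finite V] (hG : PrimeG G) (hc : CFree G) (hs : EWO G s) {X Y : Set V} (hX : EPC G X) (hY : EPC G Y)
    (hcr : Crossing X Y) : EPC G (X ∩ Y) := by
  refine ⟨pcut_inter hG.1.preconnected hX.cut hY.cut hcr, ?_⟩
  rintro p p' q q' r hw ⟨h1, h2⟩
  by_cases hp : p ∈ X ∩ Y
  · have hp' : p' ∉ X ∩ Y := fun k => h1 ⟨fun _ => k, fun _ => hp⟩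
    by_cases hq : q ∈ X ∩ Y
    · have hq' : q' ∉ X ∩ Y := fun k => h2 ⟨fun _ => k, fun _ => hq⟩
      exact Corn_core2 hG hc hs hX hY hcr hw hp hp' hq hq'
    · have hq' : q' ∈ X ∩ Y := by
        by_contra k
        exact h2 ⟨fun t => absurd t hq, fun t => absurd t k⟩
      exact Corn_core2 hG hc hs hX hY hcr (w4_swap' hw) hp hp' hq' hq
  · have hp' : p' ∈ X ∩ Y := by
      by_contra k
      exact h1 ⟨fun t => absurd t hp, fun t => absurd t k⟩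
    by_cases hq : q ∈ X ∩ Y
    · have hq' : q' ∉ X ∩ Y := fun k => h2 ⟨fun _ => k, fun _ => hq⟩
      exact Corn_core2 hG hc hs hX hY hcr (w4_swap hw) hp' hp hq hq'
    · have hq' : q' ∈ X ∩ Y := by
        by_contra k
        exact h2 ⟨fun t => absurd t hq, fun t => absurd t k⟩
      exact Corn_core2 hG hc hs hX hY hcr (w4_swap (w4_swap' hw)) hp' hp hq' hq

omit [DecidableEq V] in
theorem Corn_key {X Y : Set V} (hE : EPC G (X ∩ Y)) {p p' q q' r : V} (hw : W4 G p p' q q' r) (h1 : p ∈ X) (h2 : p' ∈ X)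
    (h3 : q ∈ Y) (h4 : q' ∈ Y) (h5 : ¬ (p ∈ Y ↔ p' ∈ Y)) (h6 : ¬ (q ∈ X ↔ q' ∈ X)) : False := by
  refine hE.w4 hw ⟨fun e => h5 ⟨fun k => (e.1 ⟨h1, k⟩).2, fun k => (e.2 ⟨h2, k⟩).2⟩,
    fun e => h6 ⟨fun k => (e.1 ⟨k, h3⟩).1, fun k => (e.2 ⟨k, h4⟩).1⟩⟩

omit [DecidableEq V] in
theorem Corn_key4 {X Y : Set V} (e1 : EPC G (X ∩ Y)) (e2 : EPC G (Xᶜ ∩ Y)) (e3 : EPC G (X ∩ Yᶜ)) (e4 : EPC G (Xᶜ ∩ Yᶜ))
    {p p' q q' r : V} (hw : W4 G p p' q q' r) (h1 : p ∈ X ↔ p' ∈ X)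
    (h3 : q ∈ Y ↔ q' ∈ Y) (h5 : ¬ (p ∈ Y ↔ p' ∈ Y)) (h6 : ¬ (q ∈ X ↔ q' ∈ X)) : False := by
  have h5' : ¬ (p ∈ Yᶜ ↔ p' ∈ Yᶜ) := fun e => h5 (not_iff_not.1 e)
  have h6' : ¬ (q ∈ Xᶜ ↔ q' ∈ Xᶜ) := fun e => h6 (not_iff_not.1 e)
  by_cases k1 : p ∈ X <;> by_cases k2 : q ∈ Y
  · exact Corn_key e1 hw k1 (h1.1 k1) k2 (h3.1 k2) h5 h6
  · exact Corn_key e3 hw k1 (h1.1 k1) k2 (fun t => k2 (h3.2 t)) h5' h6
  · exact Corn_key e2 hw k1 (fun t => k1 (h1.2 t)) k2 (h3.1 k2) h5 h6'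
  · exact Corn_key e4 hw k1 (fun t => k1 (h1.2 t)) k2 (fun t => k2 (h3.2 t)) h5' h6'

/-- PROOF. cut: pcut_symmDiff (the same set: (X \ Y) ∪ (Y \ X) or symmDiff, see the statement there). w4: let Spl of the symmetric difference for p p' | q q'. Exactly one of X, Y separates p, p', and exactly one separates q, q'; not the same one (EPC). Say X separates p, p' and Y separates q, q' (otherwise w4_comm or exchange). p, p' are on the same side Y' ∈ {Y, Yᶜ} of Y,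
q, q' on the same side X' of X. Then X' ∩ Y' contains exactly one of p, p' and exactly one of q, q': contradiction to epc_inter for X', Y' (EPC.compl, crossing_compl). -/
theorem epc_symm [Finite V] (hG : PrimeG G) (hc : CFree G) (hs : EWO G s) {X Y : Set V} (hX : EPC G X) (hY : EPC G Y)
    (hcr : Crossing X Y) : EPC G {v | ¬ (v ∈ X ↔ v ∈ Y)} := by
  have hcr2 : Crossing X Yᶜ := crossing_compl.2 hcr
  have hcr3 : Crossing Xᶜ Y := crossing_comm.1 (crossing_compl.2 (crossing_comm.1 hcr))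
  have hcr4 : Crossing Xᶜ Yᶜ := crossing_compl.2 hcr3
  have e1 := epc_inter hG hc hs hX hY hcr
  have e2 := epc_inter hG hc hs hX.compl hY hcr3
  have e3 := epc_inter hG hc hs hX hY.compl hcr2
  have e4 := epc_inter hG hc hs hX.compl hY.compl hcr4
  refine ⟨pcut_compl (pcut_symmDiff hG.1.preconnected hX.cut hY.cut hcr), ?_⟩
  rintro p p' q q' r hw ⟨h1, h2⟩
  have h1' : ¬ ((p ∈ X ↔ p ∈ Y) ↔ (p' ∈ X ↔ p' ∈ Y)) := fun e => h1 (not_iff_not.2 e)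
  have h2' : ¬ ((q ∈ X ↔ q ∈ Y) ↔ (q' ∈ X ↔ q' ∈ Y)) := fun e => h2 (not_iff_not.2 e)
  by_cases k1 : p ∈ X ↔ p' ∈ X
  · have k2 : ¬ (p ∈ Y ↔ p' ∈ Y) := fun e => h1' (iff_congr k1 e)
    have k3 : q ∈ Y ↔ q' ∈ Y := by
      by_contra k
      exact hY.w4 hw ⟨k2, k⟩
    have k4 : ¬ (q ∈ X ↔ q' ∈ X) := fun e => h2' (iff_congr e k3)
    exact Corn_key4 e1 e2 e3 e4 hw k1 k3 k2 k4
  · have k2 : q ∈ X ↔ q' ∈ X := by
      by_contra k
      exact hX.w4 hw ⟨k1, k⟩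
    have k3 : ¬ (q ∈ Y ↔ q' ∈ Y) := fun e => h2' (iff_congr k2 e)
    have k4 : p ∈ Y ↔ p' ∈ Y := by
      by_contra k
      exact hY.w4 hw ⟨k, k3⟩
    exact Corn_key4 e1 e2 e3 e4 (w4_comm hw) k2 k4 k3 k1

end Pool.Agent.SOE
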