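import Pool.Agent.SOE.DDefs

/-! Project SOE, module DBig (size 2): attached vertices.
-/

set_option autoImplicit false

open Set

namespace Pool.Agent.SOE

open Pool.Agent.SOC Pool.Agent.SOD Pool.Agent.SOS Pool.Agent.SOP Pool.Agent.SOW Pool.Agent.RUP

variable {V : Type} {G : SimpleGraph V} {π : V → Set V}

/-- PROOF. A := {u | π u = π v} is nonempty and its complement is nonempty, G is connected: an edge u b with u ∈ A, b ∉ A (walk from a vertex of A to a vertex outside). -/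
theorem att_ex (hG : G.Connected) (h2 : ∃ a b, π a ≠ π b) (v : V) : ∃ u, π u = π v ∧ Att G π u := by
  have hw : ∃ w, π w ≠ π v := by
    obtain ⟨a, b, hab⟩ := h2
    by_cases h : π a = π v
    · exact ⟨b, fun e => hab (h.trans e.symm)⟩
    · exact ⟨a, h⟩
  obtain ⟨w, hw⟩ := hw
  obtain ⟨p⟩ := hG.preconnected v w
  obtain ⟨d, -, h1, h2⟩ := p.exists_boundary_dart {u | π u = π v} rfl hw
  exact ⟨d.fst, h1, d.snd, d.adj, fun e => h2 (e.trans h1)⟩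

/-- PROOF. A := {u | π u = π v}; an edge a₀ b₀ with a₀ ∈ A, b₀ ∉ A (att_ex). IsSpl G A a₀ b₀ is false: hG.2 would give A = {a₀} (but v, u ∈ A) or Aᶜ = {b₀} (but a, b). So there are a ∈ A, b ∉ A with ¬ (a ~ b ↔ a ~ b₀ ∧ a₀ ~ b). If a ~ b and ¬ a ~ b₀: a and b₀ are attached: RR a b₀, a₀ ~ b₀: result (a₀, a, b₀).
If a ~ b, ¬ a₀ ~ b: (a, a₀, b). If ¬ a ~ b, a ~ b₀, a₀ ~ b: (a₀, a, b). -/
theorem big_diff (hG : PrimeG G) {v : V} (hv : ∃ u, π u = π v ∧ u ≠ v) (h3 : ∃ a b, π a ≠ π v ∧ π b ≠ π v ∧ a ≠ b) :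
    ∃ a a' b, π a = π v ∧ π a' = π v ∧ π b ≠ π v ∧ G.Adj a b ∧ RR G π a' b := by
  obtain ⟨u, hu, huv⟩ := hv
  obtain ⟨x, y, hx, hy, hxy⟩ := h3
  obtain ⟨a₀, ha₀, b₀, hab, hb₀⟩ := att_ex hG.1 ⟨x, v, hx⟩ v
  have hb₀' : π b₀ ≠ π v := fun e => hb₀ (e.trans ha₀.symm)
  have hn : ¬ IsSpl G {u | π u = π v} a₀ b₀ := by
    intro h
    rcases hG.2 _ _ _ h with h1 | h1
    · have e1 : v ∈ ({a₀} : Set V) := h1 ▸ (rfl : π v = π v)
      have e2 : u ∈ ({a₀} : Set V) := h1 ▸ hu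
      exact huv ((show u = a₀ from e2).trans (show v = a₀ from e1).symm)
    · have e1 : x ∈ ({b₀} : Set V) := h1 ▸ (show x ∈ {u | π u = π v}ᶜ from hx)
      have e2 : y ∈ ({b₀} : Set V) := h1 ▸ (show y ∈ {u | π u = π v}ᶜ from hy)
      exact hxy ((show x = b₀ from e1).trans (show y = b₀ from e2).symm)
  by_contra hcon
  push Not at hcon
  apply hn
  have hA0 : Att G π a₀ := ⟨b₀, hab, hb₀⟩
  have hB0 : Att G π b₀ := ⟨a₀, hab.symm, Ne.symm hb₀⟩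
  refine ⟨ha₀, hb₀', hab, ?_⟩
  intro a b ha hb
  have hab' : π a ≠ π b := fun e => hb (e.symm.trans ha)
  constructor
  · intro h
    have hAa : Att G π a := ⟨b, h, hab'.symm⟩
    have hAb : Att G π b := ⟨a, h.symm, hab'⟩
    constructor
    · by_contra hn1
      exact hcon a₀ a b₀ ha₀ ha hb₀' hab ⟨hAa, hB0, fun e => hb₀' (e.symm.trans ha), hn1⟩
    · by_contra hn1
      exact hcon a a₀ b ha ha₀ hb h ⟨hA0, hAb, fun e => hb (e.symm.trans ha₀), hn1⟩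
  · rintro ⟨h1, h2⟩
    by_contra hn1
    have hAa : Att G π a := ⟨b₀, h1, fun e => hb₀' (e.trans ha)⟩
    have hAb : Att G π b := ⟨a₀, h2.symm, fun e => hb (e.symm.trans ha₀)⟩
    exact hcon a₀ a b ha₀ ha hb h2 ⟨hAa, hAb, hab', hn1⟩


end Pool.Agent.SOE
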