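import Pool.Agent.SOE.Defs

/-! Project SOE, module DDefs: nodes where all unions of parts are E-P-cuts (complete nodes); definitions and the easy facts on letters are in SOW.Hubs (rr_nbr, rr_trans, rr_adj, wide_rr, RR.symm, RR.lt, Lt.symm, Lt.trans).
-/

set_option autoImplicit false

open Set

namespace Pool.Agent.SOE

open Pool.Agent.SOC Pool.Agent.SOD Pool.Agent.SOS Pool.Agent.SOP Pool.Agent.SOW Pool.Agent.RUP

variable {V : Type} {G : SimpleGraph V} {π : V → Set V}

/-- no pair of a W4 is separated on both sides -/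
def NW (G : SimpleGraph V) (π : V → Set V) : Prop := ∀ p p' q q' r, W4 G p p' q q' r → π p ≠ π p' → π q = π q'

/-- five big parts -/
structure Five (G : SimpleGraph V) (π : V → Set V) (v : Fin 5 → V) : Prop where
  hG : PrimeG G
  hH : Hub G π
  hN : NW G π
  hv : ∀ i j, i ≠ j → π (v i) ≠ π (v j)
  hb : ∀ i, ∃ u, π u = π (v i) ∧ u ≠ v i


end Pool.Agent.SOE
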