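import Pool.Agent.SOE.DBig

/-! Project SOE, module DNar (size 4): with five big parts every letter with a link meets three parts.
-/

set_option autoImplicit false

open Set

namespace Pool.Agent.SOE

open Pool.Agent.SOC Pool.Agent.SOD Pool.Agent.SOS Pool.Agent.SOP Pool.Agent.SOW Pool.Agent.RUP

variable {V : Type} {G : SimpleGraph V} {π : V → Set V} {v : Fin 5 → V}

/-- a cycle of four vertices in four different parts with a hub is impossible. -/
theorem nar_w4 (hH : Hub G π) (hN : NW G π) {x x' y y' r : V} (hx : RR G π x x') (hy : RR G π y y') (hn : ¬ Lt G π x y)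
    (h1 : π x ≠ π y) (h2 : π x ≠ π y') (h3 : π x' ≠ π y) (h4 : π x' ≠ π y') (hr : Att G π r) (nx : ¬ Lt G π x r) (ny : ¬ Lt G π y r) : False := by
  have hn' : ¬ Lt G π x y' := fun h => hn (h.trans hy.symm.lt)
  have a1 := rr_adj hH hx hy.1 hn
  have a2 := rr_adj hH hx hy.2.1 hn'
  have a3 := rr_adj hH hx hr nx
  have a4 := rr_adj hH hy hr ny
  have hw : W4 G x x' y y' r := ⟨hx.2.2.2, hy.2.2.2, fun e => hx.2.2.1 (e ▸ rfl), fun e => hy.2.2.1 (e ▸ rfl), a1.1, a2.1, a1.2, a2.2,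
    a3.1.symm, a3.2.symm, a4.1.symm, a4.2.symm⟩
  exact hy.2.2.1 (hN _ _ _ _ _ hw hx.2.2.1)

/-- two links with a common part A at the second vertices. -/
theorem nar_two (hH : Hub G π) (hN : NW G π) {c d c' d' r : V} (h : RR G π c d) (h' : RR G π c' d') (hn : ¬ Lt G π c c') (hcc : π c ≠ π c')
    (hd : π d = π d') (hr : Att G π r) (nr : ¬ Lt G π c r) (nr' : ¬ Lt G π c' r) : False := by
  have hn' : ¬ Lt G π c d' := fun k => hn (k.trans h'.symm.lt)
  have a1 := rr_adj hH h h'.1 hn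
  have a2 := rr_adj hH h h'.2.1 hn'
  have a3 := rr_adj hH h hr nr
  have a4 := rr_adj hH h' hr nr'
  have hdd : d ≠ d' := by
    rintro rfl
    exact hn (h.lt.trans h'.symm.lt)
  by_cases hadj : G.Adj d d'
  · have hw : W4 G c d c' d' r := ⟨h.2.2.2, h'.2.2.2, fun e => h.2.2.1 (e ▸ rfl), fun e => h'.2.2.1 (e ▸ rfl), a1.1, a2.1, a1.2, hadj,
      a3.1.symm, a3.2.symm, a4.1.symm, a4.2.symm⟩
    exact h'.2.2.1 (hN _ _ _ _ _ hw h.2.2.1)
  · have hrig : Rigid G c d' c' d := ⟨a2.1, a1.2.symm, fun e => hcc (e ▸ rfl), fun e => h.2.2.1 (e ▸ rfl), fun e => h'.2.2.1 (e ▸ rfl),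
      fun e => hdd e.symm, fun k => hadj k.2.symm, fun k => h.2.2.2 k.1⟩
    rcases hH _ _ _ _ hrig with e | e
    · exact h.2.2.1 (e.trans hd.symm)
    · exact h'.2.2.1 (e.trans hd)

/-- three parts among the five are different from two given ones -/
theorem nar_three {A B : Set V} (hv : ∀ i j, i ≠ j → π (v i) ≠ π (v j)) :
    ∃ i j k : Fin 5, i ≠ j ∧ i ≠ k ∧ j ≠ k ∧ π (v i) ≠ A ∧ π (v i) ≠ B ∧ π (v j) ≠ A ∧ π (v j) ≠ B ∧ π (v k) ≠ A ∧ π (v k) ≠ B := by
  classical
  have hA : (Finset.univ.filter (fun i : Fin 5 => π (v i) = A)).card ≤ 1 := by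
    rw [Finset.card_le_one]
    intro a ha b hb
    by_contra hne
    exact hv a b hne ((Finset.mem_filter.1 ha).2.trans (Finset.mem_filter.1 hb).2.symm)
  have hB : (Finset.univ.filter (fun i : Fin 5 => π (v i) = B)).card ≤ 1 := by
    rw [Finset.card_le_one]
    intro a ha b hb
    by_contra hne
    exact hv a b hne ((Finset.mem_filter.1 ha).2.trans (Finset.mem_filter.1 hb).2.symm)
  have hC : 2 < (Finset.univ.filter (fun i : Fin 5 => π (v i) ≠ A ∧ π (v i) ≠ B)).card := by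
    have hsub : (Finset.univ : Finset (Fin 5)) ⊆ (Finset.univ.filter (fun i : Fin 5 => π (v i) = A)) ∪
        (Finset.univ.filter (fun i : Fin 5 => π (v i) = B)) ∪ (Finset.univ.filter (fun i : Fin 5 => π (v i) ≠ A ∧ π (v i) ≠ B)) := by
      intro i _
      simp only [Finset.mem_union, Finset.mem_filter, Finset.mem_univ, true_and]
      tauto
    have h1 := Finset.card_le_card hsub
    have h2 := Finset.card_union_le ((Finset.univ.filter (fun i : Fin 5 => π (v i) = A)) ∪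
        (Finset.univ.filter (fun i : Fin 5 => π (v i) = B))) (Finset.univ.filter (fun i : Fin 5 => π (v i) ≠ A ∧ π (v i) ≠ B))
    have h3 := Finset.card_union_le (Finset.univ.filter (fun i : Fin 5 => π (v i) = A)) (Finset.univ.filter (fun i : Fin 5 => π (v i) = B))
    have h4 : (Finset.univ : Finset (Fin 5)).card = 5 := by simp
    omega
  obtain ⟨i, j, k, hi, hj, hk, hij, hik, hjk⟩ := Finset.two_lt_card_iff.1 hC
  exact ⟨i, j, k, hij, hik, hjk, (Finset.mem_filter.1 hi).2.1, (Finset.mem_filter.1 hi).2.2, (Finset.mem_filter.1 hj).2.1,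
    (Finset.mem_filter.1 hj).2.2, (Finset.mem_filter.1 hk).2.1, (Finset.mem_filter.1 hk).2.2⟩

/-- other parts are available for big_diff -/
theorem nar_big (h : Five G π v) (l : Fin 5) :
    ∃ a a' b, π a = π (v l) ∧ π a' = π (v l) ∧ π b ≠ π (v l) ∧ G.Adj a b ∧ RR G π a' b := by
  refine big_diff h.hG (h.hb l) ?_
  have hl : l ≠ l + 1 ∧ l ≠ l + 2 ∧ l + 1 ≠ l + 2 := by
    revert l
    decide
  exact ⟨v (l + 1), v (l + 2), h.hv _ _ hl.1.symm, h.hv _ _ hl.2.1.symm, fun e => h.hv _ _ hl.2.2 (e ▸ rfl)⟩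

/-- step (N1) for one part -/
theorem nar_n1 (h : Five G π v) {x x' : V} (hx : RR G π x x') (hcon : ∀ u, Lt G π x u → π u = π x ∨ π u = π x') {c d : V}
    (hcd : RR G π c d) (hc1 : π c ≠ π x) (hc2 : π c ≠ π x') (l : Fin 5) (hl1 : π (v l) ≠ π x) (hl2 : π (v l) ≠ π x')
    (hlc : π (v l) ≠ π c) (hld : π (v l) ≠ π d) : π d = π x ∨ π d = π x' := by
  by_contra hd
  push Not at hd
  obtain ⟨a, a', b, ha, ha', hb, hab, hrr⟩ := nar_big h l
  have hxc : ¬ Lt G π x c := fun k => (hcon c k).elim hc1 hc2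
  have hatt : Att G π a := ⟨b, hab, fun e => hb (e.trans ha)⟩
  have hnot : ¬ (Lt G π c a ∧ Lt G π c a') := by
    rintro ⟨k1, k2⟩
    have hlab : Lt G π a b := k1.symm.trans (k2.trans hrr.lt)
    have hpab : π a ≠ π b := fun e => hb (e.symm.trans ha)
    by_cases hcb : π c = π b
    · have hr := wide_rr h.hH hlab (k1.symm.trans hcd.lt) hpab (fun e => hld (ha.symm.trans e.symm))
        (fun e => hcd.2.2.1 (hcb.trans e.symm))
      exact hr.2.2.2 hab
    · have hr := wide_rr h.hH hlab k1.symm hpab (fun e => hlc (ha.symm.trans e.symm)) hcb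
      exact hr.2.2.2 hab
  have key : ∀ r, π r = π (v l) → Att G π r → ¬ Lt G π c r → False := by
    intro r hr1 hr2 hr3
    have hxr : ¬ Lt G π x r := fun k => (hcon r k).elim (fun e => hl1 (hr1.symm.trans e)) (fun e => hl2 (hr1.symm.trans e))
    exact nar_w4 h.hH h.hN hx hcd hxc hc1.symm (fun e => hd.1 e.symm) hc2.symm (fun e => hd.2 e.symm) hr2 hxr hr3
  by_cases k1 : Lt G π c a
  · exact key a' ha' hrr.1 (fun k2 => hnot ⟨k1, k2⟩)
  · exact key a ha hatt k1

theorem nar (h : Five G π v) {x x' : V} (hx : RR G π x x') : ∃ u, Lt G π x u ∧ π u ≠ π x ∧ π u ≠ π x' := by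
  by_contra hcon0
  have hcon : ∀ u, Lt G π x u → π u = π x ∨ π u = π x' := by
    intro u hu
    by_contra hne
    push Not at hne
    exact hcon0 ⟨u, hu, hne.1, hne.2⟩
  obtain ⟨i, j, k, hij, hik, hjk, i1, i2, j1, j2, k1, k2⟩ := nar_three (A := π x) (B := π x') h.hv
  -- (N1) in general form
  have n1 : ∀ (e f g : Fin 5), e ≠ f → e ≠ g → f ≠ g → π (v e) ≠ π x → π (v e) ≠ π x' → π (v f) ≠ π x → π (v f) ≠ π x' →
      π (v g) ≠ π x → π (v g) ≠ π x' → ∀ c d, π c = π (v e) → RR G π c d → π d = π x ∨ π d = π x' := by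
    intro e f g hef heg hfg e1 e2 f1 f2 g1 g2 c d hc hcd
    by_cases hfd : π (v f) = π d
    · exact nar_n1 h hx hcon hcd (fun q => e1 (hc.symm.trans q)) (fun q => e2 (hc.symm.trans q)) g g1 g2
        (fun q => h.hv _ _ heg (hc.symm.trans q.symm)) (fun q => h.hv _ _ hfg (hfd.trans q.symm))
    · exact nar_n1 h hx hcon hcd (fun q => e1 (hc.symm.trans q)) (fun q => e2 (hc.symm.trans q)) f f1 f2
        (fun q => h.hv _ _ hef (hc.symm.trans q.symm)) hfd
  have n1i := n1 i j k hij hik hjk i1 i2 j1 j2 k1 k2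
  have n1j := n1 j i k hij.symm hjk hik j1 j2 i1 i2 k1 k2
  obtain ⟨_, c, d, _, hc, _, _, hcd⟩ := nar_big h i
  obtain ⟨_, c', d', _, hc', _, _, hcd'⟩ := nar_big h j
  obtain ⟨r, hr, hra⟩ := att_ex h.hG.1 ⟨v i, v j, h.hv _ _ hij⟩ (v k)
  have hdAB := n1i c d hc hcd
  have hdAB' := n1j c' d' hc' hcd'
  -- general: c is not in a letter with an attached vertex of another big part
  have far : ∀ (e f : Fin 5) (c d u : V), e ≠ f → π c = π (v e) → RR G π c d → (π d = π x ∨ π d = π x') →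
      (∀ c d, π c = π (v e) → RR G π c d → π d = π x ∨ π d = π x') → π u = π (v f) →
      π (v f) ≠ π x → π (v f) ≠ π x' → ¬ Lt G π c u := by
    intro e f c d u hef hc hcd hd hn hu f1 f2 hlt
    have hr := wide_rr h.hH hlt hcd.lt (fun q => h.hv _ _ hef (hc.symm.trans (q.trans hu))) (fun q => hcd.2.2.1 q.symm)
      (fun q => hd.elim (fun w => f1 (hu.symm.trans (q.symm.trans w))) (fun w => f2 (hu.symm.trans (q.symm.trans w))))
    exact (hn c u hc hr).elim (fun w => f1 (hu.symm.trans w)) (fun w => f2 (hu.symm.trans w))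
  have hncc : ¬ Lt G π c c' := far i j c d c' hij hc hcd hdAB n1i hc' j1 j2
  have hncr : ¬ Lt G π c r := far i k c d r hik hc hcd hdAB n1i hr k1 k2
  have hncr' : ¬ Lt G π c' r := far j k c' d' r hjk hc' hcd' hdAB' n1j hr k1 k2
  have hpcc : π c ≠ π c' := fun q => h.hv _ _ hij (hc.symm.trans (q.trans hc'))
  by_cases hdd : π d = π d'
  · exact nar_two h.hH h.hN hcd hcd' hncc hpcc hdd hra hncr hncr'
  · have hp1 : π c ≠ π d' := fun q => hdAB'.elim (fun w => i1 (hc.symm.trans (q.trans w))) (fun w => i2 (hc.symm.trans (q.trans w)))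
    have hp2 : π d ≠ π c' := fun q => hdAB.elim (fun w => j1 (hc'.symm.trans (q.symm.trans w))) (fun w => j2 (hc'.symm.trans (q.symm.trans w)))
    exact nar_w4 h.hH h.hN hcd hcd' hncc hpcc hp1 hp2 hdd hra hncr hncr'

end Pool.Agent.SOE
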