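import Pool.Agent.SOE.DBig

/-! Project SOE, module DSing (size 3): at most two parts are single vertices.
-/

set_option autoImplicit false

open Set

namespace Pool.Agent.SOE

open Pool.Agent.SOC Pool.Agent.SOD Pool.Agent.SOS Pool.Agent.SOP Pool.Agent.SOW Pool.Agent.RUP

variable {V : Type} {G : SimpleGraph V} {π : V → Set V}

theorem dsing_two (hG : PrimeG G)
    (h4 : ∃ a b c d, π a ≠ π b ∧ π a ≠ π c ∧ π a ≠ π d ∧ π b ≠ π c ∧ π b ≠ π d ∧ π c ≠ π d) {x y c₀ : V} (xy : x ≠ y)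
    (cx : c₀ ≠ x) (cy : c₀ ≠ y) (xc : G.Adj x c₀) (hn : ∀ b, b ≠ x → b ≠ y → (G.Adj x b ↔ G.Adj y b)) : False := by
  have hs : IsSpl G {x, y} x c₀ := by
    refine ⟨by simp, by simp [cx, cy], xc, ?_⟩
    intro a b ha hb
    simp only [mem_insert_iff, mem_singleton_iff, not_or] at ha hb
    rcases ha with rfl | rfl
    · exact ⟨fun h => ⟨xc, h⟩, fun h => h.2⟩
    · exact ⟨fun h => ⟨(hn c₀ cx cy).1 xc, (hn b hb.1 hb.2).2 h⟩, fun h => (hn b hb.1 hb.2).1 h.2⟩
  rcases hG.2 _ _ _ hs with h | h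
  · have hy : y ∈ ({x, y} : Set V) := by simp
    rw [h] at hy
    exact xy (mem_singleton_iff.1 hy).symm
  · obtain ⟨a, b, c, d, hab, hac, had, hbc, hbd, hcd⟩ := h4
    have key : ∀ u, u = x ∨ u = y ∨ u = c₀ := by
      intro u
      by_cases h1 : u = x
      · exact Or.inl h1
      by_cases h2 : u = y
      · exact Or.inr (Or.inl h2)
      have h3 : u ∈ ({x, y} : Set V)ᶜ := by simp [h1, h2]
      rw [h] at h3
      exact Or.inr (Or.inr (mem_singleton_iff.1 h3))
    rcases key a with ha | ha | ha <;> rcases key b with hb | hb | hb <;> rcases key c with hc | hc | hc <;>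
      rcases key d with hd | hd | hd <;>
      first
      | (rw [ha, hb] at hab; exact absurd rfl hab)
      | (rw [ha, hc] at hac; exact absurd rfl hac)
      | (rw [ha, hd] at had; exact absurd rfl had)
      | (rw [hb, hc] at hbc; exact absurd rfl hbc)
      | (rw [hb, hd] at hbd; exact absurd rfl hbd)
      | (rw [hc, hd] at hcd; exact absurd rfl hcd)

theorem dsing_att (hG : PrimeG G) (h2 : ∃ a b, π a ≠ π b) {x : V} (sx : ∀ u, π u = π x → u = x) : Att G π x := by
  obtain ⟨u, hu, ha⟩ := att_ex hG.1 h2 x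
  rw [sx u hu] at ha
  exact ha

theorem dsing_adj (hG : PrimeG G) (hH : Hub G π)
    (h4 : ∃ a b c d, π a ≠ π b ∧ π a ≠ π c ∧ π a ≠ π d ∧ π b ≠ π c ∧ π b ≠ π d ∧ π c ≠ π d) {x y : V}
    (sx : ∀ u, π u = π x → u = x) (sy : ∀ u, π u = π y → u = y) (xy : x ≠ y) : G.Adj x y := by
  have h2 : ∃ a b, π a ≠ π b := by
    obtain ⟨a, b, c, d, hab, _⟩ := h4
    exact ⟨a, b, hab⟩
  have ax := dsing_att hG h2 sx
  have ay := dsing_att hG h2 sy
  by_contra hn
  have hr : RR G π x y := ⟨ax, ay, fun e => xy (sx y e.symm).symm, hn⟩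
  obtain ⟨c₀, hc, hc'⟩ := ax
  refine dsing_two hG h4 xy hc.ne.symm (fun e => hn (e ▸ hc)) hc ?_
  intro b hbx hby
  constructor
  · intro h
    exact rr_nbr hH hr h (fun e => hbx (sx b e))
  · intro h
    exact rr_nbr hH hr.symm h (fun e => hby (sy b e))

theorem dsing_univ (hG : PrimeG G)
    (h4 : ∃ a b c d, π a ≠ π b ∧ π a ≠ π c ∧ π a ≠ π d ∧ π b ≠ π c ∧ π b ≠ π d ∧ π c ≠ π d) {x y z : V}
    (sx : ∀ u, π u = π x → u = x) (sy : ∀ u, π u = π y → u = y) (xy : x ≠ y) (xz : x ≠ z)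
    (yz : y ≠ z) (axz : G.Adj x z) (ux : ∀ u, Att G π u → u ≠ x → G.Adj x u)
    (uy : ∀ u, Att G π u → u ≠ y → G.Adj y u) : False := by
  refine dsing_two hG h4 xy xz.symm yz.symm axz ?_
  intro b hbx hby
  constructor
  · intro h
    exact uy b ⟨x, h.symm, fun e => hbx (sx b e.symm)⟩ hby
  · intro h
    exact ux b ⟨y, h.symm, fun e => hby (sy b e.symm)⟩ hbx

theorem dsing_nb (hH : Hub G π) {x y b : V} (sx : ∀ u, π u = π x → u = x) (sy : ∀ u, π u = π y → u = y)
    (ay : Att G π y) (axy : G.Adj x y) (hb : RR G π x b) : G.Adj y b := by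
  by_contra hn
  have hby : π y ≠ π b := by
    intro e
    have := sy b e.symm
    exact hb.2.2.2 (this ▸ axy)
  have hr : RR G π y b := ⟨ay, hb.2.1, hby, hn⟩
  have hne : π x ≠ π y := fun e => axy.ne (sx y e.symm).symm
  exact (rr_trans hH hb hr.symm hne).2.2.2 axy

theorem dsing_main (hH : Hub G π) (hN : NW G π) {x y z bx bY : V}
    (sx : ∀ u, π u = π x → u = x) (sy : ∀ u, π u = π y → u = y) (sz : ∀ u, π u = π z → u = z)
    (ax : Att G π x) (ay : Att G π y) (az : Att G π z) (axy : G.Adj x y) (axz : G.Adj x z) (ayz : G.Adj y z)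
    (hx : RR G π x bx) (hy : RR G π y bY) : False := by
  have h1 : G.Adj y bx := dsing_nb hH sx sy ay axy hx
  have h2 : G.Adj z bx := dsing_nb hH sx sz az axz hx
  have h3 : G.Adj x bY := dsing_nb hH sy sx ax axy.symm hy
  have h4 : G.Adj z bY := dsing_nb hH sy sz az ayz hy
  by_cases hb : G.Adj bx bY
  · have hw : W4 G x bx y bY z :=
      ⟨hx.2.2.2, hy.2.2.2, fun e => hx.2.2.1 (by rw [← e]), fun e => hy.2.2.1 (by rw [← e]), axy, h3, h1.symm, hb,
        axz.symm, h2, ayz.symm, h4⟩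
    exact hy.2.2.1 (hN _ _ _ _ _ hw hx.2.2.1)
  · have hr : Rigid G x bY y bx := by
      refine ⟨h3, h1, axy.ne, ?_, ?_, ?_, fun h => hb h.2.symm, fun h => hx.2.2.2 h.1⟩
      · rintro rfl; exact hx.2.2.1 rfl
      · rintro rfl; exact hy.2.2.1 rfl
      · rintro rfl; exact hy.2.2.2 h1
    rcases hH _ _ _ _ hr with e | e
    · have := sx bY e.symm
      exact h3.ne this.symm
    · have := sy bx e.symm
      exact h1.ne this.symm

/-- PROOF. x, y, z are attached (att_ex, they are alone in their parts). (1) They are pairwise adjacent: let ¬ x ~ y: RR x y. If x ~ c (c ≠ y) then π c ≠ π x, rr_nbr: y ~ c; so N(x) = N(y), both nonempty: c₀. IsSpl G {x, y} x c₀ (for a ∈ {x, y}, b ∉ {x, y}: a ~ b ↔ x ~ b, a ~ c₀ true), hG.2: {x, y} = {x} or {x, y}ᶜ = {c₀}: both impossible (h4: four parts, so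
at least two vertices besides x and y; they are different). (2) If two of them, say x and y, are adjacent to all attached vertices other than themselves: then for every b ∉ {x, y}: x ~ b ↔ y ~ b (b adjacent to x or to y is attached), IsSpl G {x, y} x b₀ with b₀ = z: contradiction as in (1). (3) So two of the three, say x and y (up to names; state the rest as
a lemma symmetric in the names), have attached nonneighbours b_x, b_y: RR x b_x, RR y b_y. y ~ b_x: otherwise RR y b_x, rr_trans gives RR x y. In the same way z ~ b_x, x ~ b_y, z ~ b_y. If b_x ~ b_y: W4 (x b_x | y b_y ; z) with π x ≠ π b_x, π y ≠ π b_y: contradiction to hN. If ¬ b_x ~ b_y: (b_x ≠ b_y as y ~ b_x) the edges x b_y and y b_x are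
rigid (n1: ¬ b_y ~ b_x; n2: ¬ x ~ b_x), Hub gives π x = π b_y or π y = π b_x: x, y are alone in their parts and x ~ b_y, y ~ b_x: contradiction. -/
theorem sing3 (hG : PrimeG G) (hH : Hub G π) (hN : NW G π)
    (h4 : ∃ a b c d, π a ≠ π b ∧ π a ≠ π c ∧ π a ≠ π d ∧ π b ≠ π c ∧ π b ≠ π d ∧ π c ≠ π d) {x y z : V}
    (sx : ∀ u, π u = π x → u = x) (sy : ∀ u, π u = π y → u = y) (sz : ∀ u, π u = π z → u = z) (xy : x ≠ y) (xz : x ≠ z)
    (yz : y ≠ z) : False := by
  have h2 : ∃ a b, π a ≠ π b := by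
    obtain ⟨a, b, c, d, hab, _⟩ := h4
    exact ⟨a, b, hab⟩
  have ax := dsing_att hG h2 sx
  have ay := dsing_att hG h2 sy
  have az := dsing_att hG h2 sz
  have axy := dsing_adj hG hH h4 sx sy xy
  have axz := dsing_adj hG hH h4 sx sz xz
  have ayz := dsing_adj hG hH h4 sy sz yz
  have key : ∀ {w : V}, (∀ u, π u = π w → u = w) → Att G π w → ¬ (∀ u, Att G π u → u ≠ w → G.Adj w u) →
      ∃ b, RR G π w b := by
    intro w sw aw hw
    push Not at hw
    obtain ⟨u, hu, hne, hna⟩ := hw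
    exact ⟨u, aw, hu, fun e => hne (sw u e.symm), hna⟩
  by_cases ux : ∀ u, Att G π u → u ≠ x → G.Adj x u
  · by_cases uy : ∀ u, Att G π u → u ≠ y → G.Adj y u
    · exact dsing_univ hG h4 sx sy xy xz yz axz ux uy
    · by_cases uz : ∀ u, Att G π u → u ≠ z → G.Adj z u
      · exact dsing_univ hG h4 sx sz xz xy yz.symm axy ux uz
      · obtain ⟨b1, hb1⟩ := key sy ay uy
        obtain ⟨b2, hb2⟩ := key sz az uz
        exact dsing_main hH hN sy sz sx ay az ax ayz axy.symm axz.symm hb1 hb2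
  · obtain ⟨b1, hb1⟩ := key sx ax ux
    by_cases uy : ∀ u, Att G π u → u ≠ y → G.Adj y u
    · by_cases uz : ∀ u, Att G π u → u ≠ z → G.Adj z u
      · exact dsing_univ hG h4 sy sz yz xy.symm xz.symm axy.symm uy uz
      · obtain ⟨b2, hb2⟩ := key sz az uz
        exact dsing_main hH hN sx sz sy ax az ay axz axy ayz.symm hb1 hb2
    · obtain ⟨b2, hb2⟩ := key sy ay uy
      exact dsing_main hH hN sx sy sz ax ay az axy axz ayz hb1 hb2


end Pool.Agent.SOE
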