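import Pool.Agent.SOE.DTyp
import Pool.Agent.SOE.DSing

/-! Project SOE, module DSev (size 2): at most six parts.
-/

set_option autoImplicit false

open Set

namespace Pool.Agent.SOE

open Pool.Agent.SOC Pool.Agent.SOD Pool.Agent.SOS Pool.Agent.SOP Pool.Agent.SOW Pool.Agent.RUP

variable {V : Type} [DecidableEq V] {G : SimpleGraph V} {π : V → Set V} {s : List V} {T : V → V → V → V → Prop}

/-- PROOF. Call i single if v i is alone in its part. At most two i are single (sing3; three different single i have different v i). So at least five i are not single: an injective function Fin 5 → Fin 7 into them (e.g. Finset.exists_subset_card_eq and Finset.orderEmbOfFin): Five, five_false. -/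
theorem seven_false (hG : PrimeG G) (hH : Hub G π) (hN : NW G π) (hB : Bt G s T) (hci : ∀ u, CI s {w | π w = π u})
    {v : Fin 7 → V} (hv : ∀ i j, i ≠ j → π (v i) ≠ π (v j)) : False := by
  classical
  have h4 : ∃ a b c d, π a ≠ π b ∧ π a ≠ π c ∧ π a ≠ π d ∧ π b ≠ π c ∧ π b ≠ π d ∧ π c ≠ π d :=
    ⟨v 0, v 1, v 2, v 3, hv _ _ (by decide), hv _ _ (by decide), hv _ _ (by decide), hv _ _ (by decide),
      hv _ _ (by decide), hv _ _ (by decide)⟩
  have hvi : ∀ i j, i ≠ j → v i ≠ v j := fun i j h e => hv i j h (by rw [e])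
  set S : Finset (Fin 7) := Finset.univ.filter (fun i => ∀ u, π u = π (v i) → u = v i) with hS
  have hS2 : S.card ≤ 2 := by
    by_contra hlt
    push Not at hlt
    obtain ⟨a, b, c, ha, hb, hc, hab, hac, hbc⟩ := Finset.two_lt_card_iff.1 hlt
    rw [hS, Finset.mem_filter] at ha hb hc
    exact sing3 hG hH hN h4 ha.2 hb.2 hc.2 (hvi _ _ hab) (hvi _ _ hac) (hvi _ _ hbc)
  have hB5 : 5 ≤ Sᶜ.card := by
    rw [Finset.card_compl, Fintype.card_fin]
    omega
  obtain ⟨U, hU, hUc⟩ := Finset.exists_subset_card_eq hB5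
  have hb : ∀ i : Fin 5, ∃ u, π u = π (v (U.orderEmbOfFin hUc i)) ∧ u ≠ v (U.orderEmbOfFin hUc i) := by
    intro i
    have h1 := hU (Finset.orderEmbOfFin_mem U hUc i)
    rw [Finset.mem_compl, hS, Finset.mem_filter] at h1
    by_contra hne
    push Not at hne
    exact h1 ⟨Finset.mem_univ _, hne⟩
  exact five_false (v := fun i => v (U.orderEmbOfFin hUc i))
    ⟨hG, hH, hN, fun i j hij => hv _ _ (fun e => hij ((U.orderEmbOfFin hUc).injective e)), hb⟩ hB hci


end Pool.Agent.SOE
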