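import Pool.Agent.SOE.DWid
import Pool.Agent.SOE.RefD

/-! Project SOE, module DTyp (size 4): five big parts are impossible for a SOC order.
-/

set_option autoImplicit false

open Set

namespace Pool.Agent.SOE

open Pool.Agent.SOC Pool.Agent.SOD Pool.Agent.SOS Pool.Agent.SOP Pool.Agent.SOW Pool.Agent.RUP

variable {V : Type} [DecidableEq V] {G : SimpleGraph V} {π : V → Set V} {v : Fin 5 → V} {s : List V} {T : V → V → V → V → Prop}

theorem dtyp_third (a b : Fin 5) : ∃ k : Fin 5, k ≠ a ∧ k ≠ b := by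
  revert a b
  decide

theorem dtyp_two (a b c : Fin 5) (_ab : a ≠ b) (_ac : a ≠ c) (_bc : b ≠ c) :
    ∃ l m : Fin 5, l ≠ m ∧ l ≠ a ∧ l ≠ b ∧ l ≠ c ∧ m ≠ a ∧ m ≠ b ∧ m ≠ c := by
  revert a b c
  decide

/-- five big parts are impossible for a SOC order -/
theorem five_false (h : Five G π v) (hB : Bt G s T) (hci : ∀ u, CI s {w | π w = π u}) : False := by
  have hG := h.hG
  have hH := h.hH
  have hN := h.hN
  have hv := h.hv
  have h3 : ∀ i : Fin 5, ∃ a b, π a ≠ π (v i) ∧ π b ≠ π (v i) ∧ a ≠ b := by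
    intro i
    obtain ⟨k, hk, _⟩ := dtyp_third i i
    obtain ⟨l, hl, hlk⟩ := dtyp_third i k
    exact ⟨v k, v l, hv k i hk, hv l i hl, fun e => hv l k hlk (by rw [e])⟩
  have hdiff : ∀ i : Fin 5, ∃ a a' b, π a = π (v i) ∧ π a' = π (v i) ∧ π b ≠ π (v i) ∧ G.Adj a b ∧ RR G π a' b :=
    fun i => big_diff hG (h.hb i) (h3 i)
  obtain ⟨x₀, x, x', _, _, _, _, hx⟩ := hdiff 0
  choose β hβ1 hβ2 using fun i => wid h hx i
  have hbne : ∀ i j, i ≠ j → π (β i) ≠ π (β j) := fun i j hij => by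
    rw [hβ2 i, hβ2 j]
    exact hv i j hij
  have hrr : ∀ i j, i ≠ j → RR G π (β i) (β j) := fun i j hij => by
    obtain ⟨k, hki, hkj⟩ := dtyp_third i j
    exact wide_rr hH ((hβ1 i).symm.trans (hβ1 j)) ((hβ1 i).symm.trans (hβ1 k)) (hbne i j hij) (hbne k i hki) (hbne k j hkj)
  have ha : ∀ i : Fin 5, ∃ c, Att G π c ∧ π c = π (v i) ∧ ¬ Lt G π x c := by
    intro i
    obtain ⟨c, c', d, h1, h2, h3, h4, h5⟩ := hdiff i
    by_cases hc : Lt G π x c
    · refine ⟨c', h5.1, h2, fun hc' => ?_⟩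
      have hd : Lt G π x d := hc'.trans h5.lt
      have hk : ∃ k : Fin 5, π (β k) ≠ π c ∧ π (β k) ≠ π d := by
        obtain ⟨k, hk, _⟩ := dtyp_third i i
        obtain ⟨l, hl, hlk⟩ := dtyp_third i k
        by_cases hkd : π (β k) = π d
        · refine ⟨l, ?_, fun e => hbne l k hlk (e.trans hkd.symm)⟩
          rw [hβ2 l, h1]
          exact hv l i hl
        · refine ⟨k, ?_, hkd⟩
          rw [hβ2 k, h1]
          exact hv k i hk
      obtain ⟨k, hk1, hk2⟩ := hk
      have := wide_rr hH (hc.symm.trans hd) (hc.symm.trans (hβ1 k)) (fun e => h3 (e.symm.trans h1)) hk1 hk2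
      exact this.2.2.2 h4
    · exact ⟨c, ⟨d, h4, fun e => h3 (e.trans h1)⟩, h1, hc⟩
  choose a ha1 ha2 ha3 using ha
  have hane : ∀ i j, i ≠ j → π (a i) ≠ π (a j) := fun i j hij => by
    rw [ha2 i, ha2 j]
    exact hv i j hij
  have hab : ∀ i j, G.Adj (a i) (β j) := fun i j => by
    obtain ⟨k, hk, _⟩ := dtyp_third j j
    exact (rr_adj hH (hrr j k fun e => hk e.symm) (ha1 i) (fun e => ha3 i ((hβ1 j).trans e))).1.symm
  have hcl1 : ∀ i j k, i ≠ j → i ≠ k → j ≠ k → ¬ G.Adj (a i) (a j) → ¬ G.Adj (a k) (a i) := by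
    intro i j k hij hik hjk hn hadj
    have hr : RR G π (a i) (a j) := ⟨ha1 i, ha1 j, hane i j hij, hn⟩
    have hnl : ¬ Lt G π (a i) (a k) := by
      intro hl
      have := wide_rr hH hl.symm (hl.symm.trans hr.lt) (hane k i hik.symm) (hane j k hjk) (hane j i hij.symm)
      exact this.2.2.2 hadj
    obtain ⟨g1, g2⟩ := rr_adj hH hr (ha1 k) hnl
    obtain ⟨l, m, hlm, -, -, -, -, -, -⟩ := dtyp_two i j k hij hik hjk
    have hw : W4 G (β l) (β m) (a i) (a j) (a k) :=
      ⟨(hrr l m hlm).2.2.2, hn, fun e => hbne l m hlm (by rw [e]), fun e => hane i j hij (by rw [e]), (hab i l).symm, (hab j l).symm,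
        (hab i m).symm, (hab j m).symm, hab k l, hab k m, g1.symm, g2.symm⟩
    exact hane i j hij (hN _ _ _ _ _ hw (hbne l m hlm))
  have hcl2 : ∀ i j k, i ≠ j → i ≠ k → j ≠ k → ¬ G.Adj (a i) (a j) → ¬ G.Adj (a k) (a j) :=
    fun i j k hij hik hjk hn => hcl1 j i k hij.symm hjk hik fun e => hn e.symm
  have hbb : ∀ i j, i ≠ j → ¬ G.Adj (β i) (β j) := fun i j hij => (hrr i j hij).2.2.2
  have hab' : ∀ i j, a i ≠ β j := fun i j e => ha3 i (by rw [e]; exact hβ1 j)
  have haa' : ∀ i j, i ≠ j → a i ≠ a j := fun i j hij e => hane i j hij (by rw [e])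
  have hbb' : ∀ i j, i ≠ j → β i ≠ β j := fun i j hij e => hbne i j hij (by rw [e])
  have nd : [a 0, β 0, a 1, β 1, a 2, β 2, a 3, β 3, a 4, β 4].Nodup := by
    simp only [List.nodup_cons, List.mem_cons, List.not_mem_nil, or_false, not_or, List.nodup_nil, and_true, not_false_eq_true]
    exact ⟨⟨hab' _ _, haa' _ _ (by decide), hab' _ _, haa' _ _ (by decide), hab' _ _, haa' _ _ (by decide), hab' _ _, haa' _ _ (by decide), hab' _ _⟩,
      ⟨(hab' _ _).symm, hbb' _ _ (by decide), (hab' _ _).symm, hbb' _ _ (by decide), (hab' _ _).symm, hbb' _ _ (by decide), (hab' _ _).symm, hbb' _ _ (by decide)⟩,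
      ⟨hab' _ _, haa' _ _ (by decide), hab' _ _, haa' _ _ (by decide), hab' _ _, haa' _ _ (by decide), hab' _ _⟩,
      ⟨(hab' _ _).symm, hbb' _ _ (by decide), (hab' _ _).symm, hbb' _ _ (by decide), (hab' _ _).symm, hbb' _ _ (by decide)⟩,
      ⟨hab' _ _, haa' _ _ (by decide), hab' _ _, haa' _ _ (by decide), hab' _ _⟩,
      ⟨(hab' _ _).symm, hbb' _ _ (by decide), (hab' _ _).symm, hbb' _ _ (by decide)⟩,
      ⟨hab' _ _, haa' _ _ (by decide), hab' _ _⟩,
      ⟨(hab' _ _).symm, hbb' _ _ (by decide)⟩,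
      hab' _ _⟩
  have hI : ∀ i j k, i ≠ j → i ≠ k → ∀ y y', (y = a j ∨ y = β j) → (y' = a k ∨ y' = β k) → ¬ Cross s (a i) (β i) y y' := by
    intro i j k hij hik y y' hy hy'
    have e1 : π y = π (v j) := by
      rcases hy with rfl | rfl
      · exact ha2 j
      · exact hβ2 j
    have e2 : π y' = π (v k) := by
      rcases hy' with rfl | rfl
      · exact ha2 k
      · exact hβ2 k
    have n1 : π y ≠ π (v i) := by rw [e1]; exact hv j i hij.symm
    have n2 : π y' ≠ π (v i) := by rw [e2]; exact hv k i hik.symm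
    rw [not_cross_iff hB.en (fun e => n1 (by rw [← e]; exact ha2 i)) (fun e => n2 (by rw [← e]; exact ha2 i))
      (fun e => n1 (by rw [← e]; exact hβ2 i)) (fun e => n2 (by rw [← e]; exact hβ2 i))]
    exact hci (v i) (a i) (ha2 i) (β i) (hβ2 i) y n1 y' n2
  by_cases hall : ∀ i j, i ≠ j → G.Adj (a i) (a j)
  · exact degA hB nd hbb (fun i j _ => hab i j) hall hI
  · push Not at hall
    obtain ⟨i, j, hij, hn⟩ := hall
    refine degN hB nd hbb (fun i j _ => hab i j) (fun k l hkl => ?_) hI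
    by_cases hki : k = i
    · subst hki
      by_cases hlj : l = j
      · subst hlj; exact hn
      · exact fun e => hcl1 k j l hij hkl (fun e => hlj e.symm) hn e.symm
    · have g1 : ¬ G.Adj (a k) (a i) := by
        by_cases hkj : k = j
        · subst hkj; exact fun e => hn e.symm
        · exact hcl1 i j k hij (fun e => hki e.symm) (fun e => hkj e.symm) hn
      by_cases hli : l = i
      · subst hli; exact g1
      · exact fun e => hcl1 k i l hki hkl (fun e => hli e.symm) g1 e.symm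

end Pool.Agent.SOE
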