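import Pool.Agent.SOE.DNar

/-! Project SOE, module DWid (size 3): with five big parts every letter with a link meets every big part.
-/

set_option autoImplicit false

open Set

namespace Pool.Agent.SOE

open Pool.Agent.SOC Pool.Agent.SOD Pool.Agent.SOS Pool.Agent.SOP Pool.Agent.SOW Pool.Agent.RUP

variable {V : Type} {G : SimpleGraph V} {π : V → Set V} {v : Fin 5 → V}

theorem dwid_rr (h : Five G π v) {y y' a b : V} (hy : RR G π y y') (ha : Lt G π y a) (hb : Lt G π y b)
    (hab : π a ≠ π b) : RR G π a b := by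
  obtain ⟨u, hu, hu1, hu2⟩ := nar h hy
  have hyy : π y ≠ π y' := hy.2.2.1
  have hlab : Lt G π a b := ha.symm.trans hb
  by_cases c1 : π y ≠ π a ∧ π y ≠ π b
  · exact wide_rr h.hH hlab ha.symm hab c1.1 c1.2
  by_cases c2 : π y' ≠ π a ∧ π y' ≠ π b
  · exact wide_rr h.hH hlab (ha.symm.trans hy.lt) hab c2.1 c2.2
  have c3 : π u ≠ π a ∧ π u ≠ π b := by
    clear hlab hu ha hb hy h
    generalize π y = A at *
    generalize π y' = B at *
    generalize π u = C at *
    generalize π a = D at *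
    generalize π b = E at *
    grind
  exact wide_rr h.hH hlab (ha.symm.trans hu) hab c3.1 c3.2

theorem dwid_star (h : Five G π v) {x x' y y' a x₁ x₂ y₁ y₂ : V} (hx : RR G π x x') (hy : RR G π y y')
    (hx1 : Lt G π x x₁) (hx2 : Lt G π x x₂) (hy1 : Lt G π y y₁) (hy2 : Lt G π y y₂)
    (hxy : ¬ Lt G π x y) (n1 : π x₁ ≠ π x₂) (n2 : π y₁ ≠ π y₂) (n3 : π x₁ ≠ π y₁) (n4 : π x₁ ≠ π y₂)
    (n5 : π x₂ ≠ π y₁) (n6 : π x₂ ≠ π y₂)
    (ha : Att G π a) (nxa : ¬ Lt G π x a) (nya : ¬ Lt G π y a) : False :=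
  nar_w4 h.hH h.hN (dwid_rr h hx hx1 hx2 n1) (dwid_rr h hy hy1 hy2 n2)
    (fun e => hxy ((hx1.trans e).trans hy1.symm)) n3 n4 n5 n6 ha (fun e => nxa (hx1.trans e))
    (fun e => nya (hy1.trans e))

theorem dwid_pig (h : Five G π v) (A B C D : Set V) :
    ∃ l, π (v l) ≠ A ∧ π (v l) ≠ B ∧ π (v l) ≠ C ∧ π (v l) ≠ D := by
  classical
  have hinj : Function.Injective (fun l => π (v l)) := by
    intro i j hij
    by_contra hne
    exact h.hv i j hne hij
  have h1 : ({A, B, C, D} : Finset (Set V)).card < (Finset.univ.image (fun l => π (v l))).card := by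
    rw [Finset.card_image_of_injective _ hinj, Finset.card_univ, Fintype.card_fin]
    exact lt_of_le_of_lt Finset.card_le_four (by norm_num)
  obtain ⟨e, he, he'⟩ := Finset.exists_mem_notMem_of_card_lt_card h1
  obtain ⟨l, _, hl⟩ := Finset.mem_image.mp he
  subst hl
  simp only [Finset.mem_insert, Finset.mem_singleton, not_or] at he'
  exact ⟨l, he'.1, he'.2.1, he'.2.2.1, he'.2.2.2⟩

/-- PROOF. By nar every letter with a link meets at least three parts, so (wide_rr) any two vertices of it in different parts are RR. Suppose the letter α of x does not meet B_j := π (v i). big_diff: a, a' ∈ B_j, a ~ b, RR a' b; β := letter of a'; a ∉ β (wide_rr would give RR a b), a ∉ α, β ≠ α. β meets B_j and at least two other parts: y₁, y₂ ∈ β in two different parts, not in B_j.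
(*) If there are two vertices of α in different parts which are not π y₁, π y₂ for some such y₁, y₂: nar_w4 for them, y₁, y₂ and the hub a: contradiction. α meets at least three parts (none is B_j). If (*) does not apply for y₁, y₂, then among three parts of α two are π y₁, π y₂: let x₁, x₂, x₃ ∈ α with π x₁ = π y₁, π x₂ = π y₂, π x₃ different from both. There is a big part
B_l (five parts) different from π x₁, π x₂, π x₃, B_j; let r ∈ B_l be attached (att_ex). If r ∈ α: (*) for x₃, r and y₁, y₂. If r ∈ β: (*) for x₂, x₃ and y₁, r. Otherwise nar_w4 for x₂, x₃ (RR) and a', y₁ (RR a' y₁: both in β) with the hub r. -/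
theorem wid (h : Five G π v) {x x' : V} (hx : RR G π x x') (i : Fin 5) : ∃ u, Lt G π x u ∧ π u = π (v i) := by
  by_contra hcon
  push Not at hcon
  obtain ⟨k, k', hk, hk', hkk⟩ := (by decide : ∀ i : Fin 5, ∃ k k', k ≠ i ∧ k' ≠ i ∧ k ≠ k') i
  obtain ⟨a, a', b, hav, ha'v, hbv, hadj, hRR⟩ := big_diff h.hG (h.hb i)
    ⟨v k, v k', h.hv k i hk, h.hv k' i hk', fun e => h.hv k k' hkk (by rw [e])⟩
  obtain ⟨u, hu, hu1, hu2⟩ := nar h hRR
  have hattA : Att G π a := ⟨b, hadj, by rw [hav]; exact hbv⟩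
  have nβa : ¬ Lt G π a' a := fun e =>
    (dwid_rr h hRR e hRR.lt (by rw [hav]; exact hbv.symm)).2.2.2 hadj
  have nαβ : ¬ Lt G π x a' := fun e => hcon a' e ha'v
  have nαa : ¬ Lt G π x a := fun e => hcon a e hav
  obtain ⟨w, hw, hw1, hw2⟩ := nar h hx
  have hxx : π x ≠ π x' := hx.2.2.1
  have key : ∀ y₁ y₂ x₁ x₂ x₃, Lt G π a' y₁ → Lt G π a' y₂ → π y₁ ≠ π y₂ → π y₁ ≠ π (v i) →
      Lt G π x x₁ → Lt G π x x₂ → Lt G π x x₃ → π x₁ = π y₁ → π x₂ = π y₂ → π x₃ ≠ π y₁ →
      π x₃ ≠ π y₂ → False := by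
    intro y₁ y₂ x₁ x₂ x₃ hy1 hy2 ny12 nyi hx1 hx2 hx3 e1 e2 n31 n32
    obtain ⟨l, l1, l2, l3, l4⟩ := dwid_pig h (π x₁) (π x₂) (π x₃) (π (v i))
    obtain ⟨r, hr, hra⟩ := att_ex h.hG.1 ⟨v k, v k', h.hv k k' hkk⟩ (v l)
    rw [← hr] at l1 l2 l3 l4
    by_cases hα : Lt G π x r
    · exact dwid_star h hx hRR hx3 hα hy1 hy2 nαβ l3.symm ny12 n31 n32 (e1 ▸ l1) (e2 ▸ l2)
        hattA nαa nβa
    · by_cases hβ : Lt G π a' r
      · exact dwid_star h hx hRR hx2 hx3 hy1 hβ nαβ (by rw [e2]; exact n32.symm) (e1 ▸ l1.symm)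
          (by rw [e2]; exact ny12.symm) l2.symm n31 l3.symm hattA nαa nβa
      · exact dwid_star h hx hRR hx2 hx3 Relation.ReflTransGen.refl hy1 nαβ
          (by rw [e2]; exact n32.symm) (by rw [ha'v]; exact nyi.symm)
          (by rw [ha'v]; exact hcon _ hx2) (by rw [e2]; exact ny12.symm)
          (by rw [ha'v]; exact hcon _ hx3) n31 hra hα hβ
  have S : ∀ p q, Lt G π x p → Lt G π x q → π p ≠ π q → π p ≠ π b → π p ≠ π u → π q ≠ π b →
      π q ≠ π u → False := fun p q hp hq hpq h1 h2 h3 h4 =>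
    dwid_star h hx hRR hp hq hRR.lt hu nαβ hpq hu2.symm h1 h2 h3 h4 hattA nαa nβa
  have Kk : ∀ p q t, Lt G π x p → Lt G π x q → Lt G π x t → π p = π b → π q = π u → π t ≠ π b →
      π t ≠ π u → False := fun p q t hp hq ht h1 h2 h3 h4 =>
    key b u p q t hRR.lt hu hu2.symm hbv hp hq ht h1 h2 h3 h4
  have hx0 : Lt G π x x := Relation.ReflTransGen.refl
  have hx' : Lt G π x x' := hx.lt
  by_cases A1 : π x = π b
  · by_cases B2 : π x' = π u
    · exact Kk x x' w hx0 hx' hw A1 B2 (by rw [← A1]; exact hw1) (by rw [← B2]; exact hw2)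
    · by_cases C2 : π w = π u
      · exact Kk x w x' hx0 hw hx' A1 C2 (by rw [← A1]; exact hxx.symm) B2
      · exact S x' w hx' hw hw2.symm (by rw [← A1]; exact hxx.symm) B2 (by rw [← A1]; exact hw1) C2
  · by_cases A2 : π x = π u
    · by_cases B1 : π x' = π b
      · exact Kk x' x w hx' hx0 hw B1 A2 (by rw [← B1]; exact hw2) (by rw [← A2]; exact hw1)
      · by_cases C1 : π w = π b
        · exact Kk w x x' hw hx0 hx' C1 A2 B1 (by rw [← A2]; exact hxx.symm)
        · exact S x' w hx' hw hw2.symm B1 (by rw [← A2]; exact hxx.symm) C1 (by rw [← A2]; exact hw1)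
    · by_cases B1 : π x' = π b
      · by_cases C2 : π w = π u
        · exact Kk x' w x hx' hw hx0 B1 C2 A1 A2
        · exact S x w hx0 hw hw1.symm A1 A2 (by rw [← B1]; exact hw2) C2
      · by_cases B2 : π x' = π u
        · by_cases C1 : π w = π b
          · exact Kk w x' x hw hx' hx0 C1 B2 A1 A2
          · exact S x w hx0 hw hw1.symm A1 A2 C1 (by rw [← B2]; exact hw2)
        · exact S x x' hx0 hx' hxx A1 A2 B1 B2


end Pool.Agent.SOE
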