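import Pool.Agent.SOW.APlus
import Pool.Agent.SOP.Gather
import Pool.Agent.SOP.TypeC
import Pool.Agent.RUP.Soc

/-! Project SOE (MP_66ba69_lc, uniqueness of the order up to E-P-cuts), module Defs.

E = linear system given by the rigid pairs and the pairs of W4 (with hub). `EPC`: P-cuts which split no pair of W4 (E-P-cuts).
`EWO`: cyclic orders without crossing rigid pair and without crossing pair of W4. A SOC order is given by `IsEnum s` and
`QT G (Cross s) T`. MAIN THEOREM (Uniq): `G` prime and without centre, `s` a SOC order, `s'` any E-WO order: chords which cross in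
exactly one of `s`, `s'` are both split by an E-P-cut. -/

set_option autoImplicit false

open Set

namespace Pool.Agent.SOE

open Pool.Agent.SOC Pool.Agent.SOD Pool.Agent.SOS Pool.Agent.SOP Pool.Agent.SOW Pool.Agent.RUP

variable {V ι : Type}

/-- E-P-cut: no rigid pair and no pair of W4 is split on both sides -/
structure EPC (G : SimpleGraph V) (X : Set V) : Prop where
  cut : IsPCut G X
  w4 : ∀ {p p' q q' r}, W4 G p p' q q' r → ¬ Spl X p p' q q'

/-- E-WO order -/
structure EWO [DecidableEq V] (G : SimpleGraph V) (s : List V) : Prop where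
  enum : IsEnum s
  wo : IsWO G s
  w4 : ∀ {p p' q q' r}, W4 G p p' q q' r → ¬ Cross s p p' q q'

/-- centre: `V - z = L ∪ R` -/
structure Centre (G : SimpleGraph V) (z : V) (L : Set V) : Prop where
  hz : z ∉ L
  two : ∃ a ∈ L, ∃ b ∈ L, a ≠ b
  two' : ∃ a, a ∉ L ∧ a ≠ z ∧ ∃ b, b ∉ L ∧ b ≠ z ∧ a ≠ b
  cut : IsPCut G L
  cut' : IsPCut G (insert z L)
  nepc : ¬ EPC G L
  adj : ∀ a ∈ L, ∀ b, b ∉ L → b ≠ z → G.Adj a b → G.Adj z a ∧ G.Adj z b

/-- there is no centre -/
def CFree (G : SimpleGraph V) : Prop := ∀ z L, ¬ Centre G z L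

/-- strong E-P-cut -/
structure StrE (G : SimpleGraph V) (X : Set V) : Prop where
  epc : EPC G X
  nt : Nontriv X
  st : ∀ Y, EPC G Y → ¬ Crossing X Y

/-- no free centre at a prime partition which separates the pairs of a W4 -/
def HFree (G : SimpleGraph V) (w : ι → V → V → ZMod 2) : Prop :=
  ∀ π : V → Set V, PP w π → ∀ p p' q q' r, W4 G p p' q q' r → π p ≠ π p' → π q ≠ π q' → ∀ z, ¬ FreeC G π z

/-- the family of two orders -/
noncomputable def pairF [DecidableEq V] (s s' : List V) : Bool → V → V → ZMod 2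
  | true => ordFn s
  | false => ordFn s'

/-- strong common interval of two orders -/
structure SC [DecidableEq V] (s s' : List V) (X : Set V) : Prop where
  nt : Nontriv X
  ci : CI s X
  ci' : CI s' X
  st : ∀ U, CI s U → CI s' U → ¬ Crossing X U

/-- reversing the members of the list (strong common intervals) leads from `s` to `s'` -/
structure RepL [DecidableEq V] (s s' : List V) (L : List (Set V)) : Prop where
  sc : ∀ X ∈ L, SC s s' X
  eq : ∀ a b c d, a ≠ c → a ≠ d → b ≠ c → b ≠ d →
    sep (ordFn s') a b c d = sep (ordFn s) a b c d + (L.map (fun X => spv X a b c d)).sum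

/-- a shortest list of this kind -/
structure MinL [DecidableEq V] (s s' : List V) (L : List (Set V)) : Prop where
  rep : RepL s s' L
  min : ∀ L', RepL s s' L' → L.length ≤ L'.length

/-- the situation for the refutations: `s` SOC order, `s'` E-WO order, `p q P Q` with hub `r` is a W4 with opposite pairs `p P` and `q Q`, both
orders are `p q Q P` -/
structure Ctx [DecidableEq V] (G : SimpleGraph V) (s s' : List V) (T : V → V → V → V → Prop) (p q P Q r : V) : Prop where
  en : IsEnum s
  qt : QT G (Cross s) T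
  ew : EWO G s'
  w : W4 G p P q Q r
  c : Cross s p Q q P
  c' : Cross s' p Q q P

/-- `v` is between `q` and `Q` in `s`, between `P` and `p` in `s'` -/
def SwR [DecidableEq V] (s s' : List V) (p q P Q v : V) : Prop := CrD s q Q v p ∧ CrD s' p P v q

/-- `v` is between `P` and `p` in `s`, between `q` and `Q` in `s'` -/
def SwL [DecidableEq V] (s s' : List V) (p q P Q v : V) : Prop := CrD s p P v q ∧ CrD s' q Q v p

/-- adjacent to all four -/
def At4 (G : SimpleGraph V) (p q P Q m : V) : Prop := G.Adj m p ∧ G.Adj m q ∧ G.Adj m P ∧ G.Adj m Q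

/-- adjacent to none of the four -/
def Un4 (G : SimpleGraph V) (p q P Q m : V) : Prop := ¬ G.Adj m p ∧ ¬ G.Adj m q ∧ ¬ G.Adj m P ∧ ¬ G.Adj m Q

/-- partition of the vertices at a node of the tree of the strong E-P-cuts: parts are single vertices or strong E-P-cuts (or complements),
and every strong E-P-cut or its complement is inside a part -/
structure Node (G : SimpleGraph V) (π : V → Set V) : Prop where
  part : ∀ v, (∀ u, π u = π v → u = v) ∨ StrE G {u | π u = π v}
  max : ∀ X, StrE G X → (∃ v, ∀ x ∈ X, π x = π v) ∨ (∃ v, ∀ x, x ∉ X → π x = π v)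

/-! ### basic facts -/

variable {G : SimpleGraph V}

theorem spl_compl {X : Set V} {a b c d : V} : Spl Xᶜ a b c d ↔ Spl X a b c d := by
  unfold Spl
  simp only [mem_compl_iff, not_iff_not]

theorem EPC.compl {X : Set V} (h : EPC G X) : EPC G Xᶜ := ⟨pcut_compl h.cut, fun hw hs => h.w4 hw (spl_compl.1 hs)⟩

theorem StrE.compl {X : Set V} (h : StrE G X) : StrE G Xᶜ :=
  ⟨h.epc.compl, nontriv_compl.2 h.nt, fun Y hY hc => h.st Y hY (crossing_comm.1 (crossing_compl.1 (crossing_comm.1 hc)))⟩

theorem w4_swap {p p' q q' r : V} (h : W4 G p p' q q' r) : W4 G p' p q q' r :=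
  ⟨fun e => h.n1 e.symm, h.n2, h.d1.symm, h.d2, h.p'q, h.p'q', h.pq, h.pq', h.rp', h.rp, h.rq, h.rq'⟩

theorem w4_swap' {p p' q q' r : V} (h : W4 G p p' q q' r) : W4 G p p' q' q r :=
  ⟨h.n1, fun e => h.n2 e.symm, h.d1, h.d2.symm, h.pq', h.pq, h.p'q', h.p'q, h.rp, h.rp', h.rq', h.rq⟩

theorem w4_comm {p p' q q' r : V} (h : W4 G p p' q q' r) : W4 G q q' p p' r :=
  ⟨h.n2, h.n1, h.d2, h.d1, h.pq.symm, h.p'q.symm, h.pq'.symm, h.p'q'.symm, h.rq, h.rq', h.rp, h.rp'⟩

section
variable [DecidableEq V] {s s' : List V}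

theorem cross_sl {a b c d : V} (h : Cross s a b c d) : Cross s b a c d := by
  unfold Cross SOC.Btw at h ⊢
  omega

theorem cross_sr {a b c d : V} (h : Cross s a b c d) : Cross s a b d c := fun e => h e.symm

theorem SC.compl (hs : IsEnum s) (hs' : IsEnum s') {X : Set V} (h : SC s s' X) : SC s s' Xᶜ :=
  ⟨nontriv_compl.2 h.nt, IsSplit.compl (ordFn_skew hs) h.ci, IsSplit.compl (ordFn_skew hs') h.ci', fun U h1 h2 hc =>
    h.st U h1 h2 (crossing_comm.1 (crossing_compl.1 (crossing_comm.1 hc)))⟩

variable {T : V → V → V → V → Prop} {p q P Q r : V}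

/-- exchange of the gaps R and L -/
theorem Ctx.mir (h : Ctx G s s' T p q P Q r) : Ctx G s s' T q p Q P r := by
  have hw := h.w
  have e : ∀ {t : List V}, IsEnum t → Cross t p Q q P → Cross t q P p Q := fun ht hc =>
    (cross_comm ht hw.pq.ne hw.d1 (fun e => hw.d2 e.symm) (fun e => hw.p'q'.ne e.symm)).1 hc
  exact ⟨h.en, h.qt, h.ew, w4_comm h.w, e h.en h.c, e h.ew.enum h.c'⟩

/-- exchange of the two sides -/
theorem Ctx.turn (h : Ctx G s s' T p q P Q r) : Ctx G s s' T P Q p q r := by
  have hw := h.w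
  have e : ∀ {t : List V}, IsEnum t → Cross t p Q q P → Cross t P q Q p := fun ht hc =>
    cross_sl (cross_sr ((cross_comm ht hw.pq.ne hw.d1 (fun e => hw.d2 e.symm) (fun e => hw.p'q'.ne e.symm)).1 hc))
  exact ⟨h.en, h.qt, h.ew, w4_swap (w4_swap' h.w), e h.en h.c, e h.ew.enum h.c'⟩

end

end Pool.Agent.SOE
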