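import Pool.Agent.SOE.NoW4b
import Pool.Agent.SOE.Hf
import Pool.Agent.SOC.AlgoPoly

/-! Project SOE, module EAlg (size 3): the base order: algorithm for E-WO orders.
-/

set_option autoImplicit false

open Set

namespace Pool.Agent.SOE

open Pool.Agent.SOC Pool.Agent.SOD Pool.Agent.SOS Pool.Agent.SOP Pool.Agent.SOW Pool.Agent.RUP

/-- common neighbour of four vertices -/
def hubB (M : List (List Bool)) (a b c d : ℕ) : Bool :=
  (List.range M.length).any fun r => adjB M r a && adjB M r b && adjB M r c && adjB M r d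

/-- `ab` and `cd` are the opposite pairs of a W4 -/
def w4B (M : List (List Bool)) (a b c d : ℕ) : Bool :=
  !(adjB M a b) && !(adjB M c d) && decide (a ≠ b) && decide (c ≠ d) && adjB M a c && adjB M a d && adjB M b c && adjB M b d &&
    hubB M a b c d

/-- the linear system E -/
def systemE (M : List (List Bool)) : List (List Bool) :=
  (List.range M.length).flatMap fun a => (List.range M.length).flatMap fun b =>
    (List.range M.length).flatMap fun c => (List.range M.length).flatMap fun d =>
      if rigidB M a b c d || w4B M a b c d then [eqOf M.length a b c d] else []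

/-- the base order -/
def eOrder (M : List (List Bool)) : Option (List ℕ) := (gauss (M.length * M.length) (systemE M)).map (orderOf M.length)

theorem ealg_hub {M : List (List Bool)} {a b c d : Fin M.length} :
    hubB M a b c d = true ↔ ∃ r : Fin M.length, (graphOf M).Adj r a ∧ (graphOf M).Adj r b ∧ (graphOf M).Adj r c ∧
      (graphOf M).Adj r d := by
  unfold hubB
  rw [List.any_eq_true]
  constructor
  · rintro ⟨r, hr, h⟩
    simp only [Bool.and_eq_true] at h
    exact ⟨⟨r, List.mem_range.1 hr⟩, h.1.1.1, h.1.1.2, h.1.2, h.2⟩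
  · rintro ⟨r, h1, h2, h3, h4⟩
    refine ⟨r, List.mem_range.2 r.2, ?_⟩
    simp only [Bool.and_eq_true]
    exact ⟨⟨⟨h1, h2⟩, h3⟩, h4⟩

theorem w4B_iff {M : List (List Bool)} {a b c d : Fin M.length} :
    w4B M a b c d = true ↔ ∃ r, W4 (graphOf M) a b c d r := by
  unfold w4B
  simp only [Bool.and_eq_true, decide_eq_true_eq, Bool.not_eq_true']
  rw [ealg_hub]
  constructor
  · rintro ⟨⟨⟨⟨⟨⟨⟨⟨h1, h2⟩, h3⟩, h4⟩, h5⟩, h6⟩, h7⟩, h8⟩, r, k1, k2, k3, k4⟩
    refine ⟨r, ?_, ?_, fun e => h3 (by rw [e]), fun e => h4 (by rw [e]), h5, h6, h7, h8, k1, k2, k3, k4⟩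
    · intro h
      have h' : adjB M a b = true := h
      rw [h1] at h'
      exact absurd h' (by decide)
    · intro h
      have h' : adjB M c d = true := h
      rw [h2] at h'
      exact absurd h' (by decide)
  · rintro ⟨r, h⟩
    refine ⟨⟨⟨⟨⟨⟨⟨⟨?_, ?_⟩, fun e => h.d1 (Fin.ext e)⟩, fun e => h.d2 (Fin.ext e)⟩, h.pq⟩, h.pq'⟩, h.p'q⟩, h.p'q'⟩, r,
      h.rp, h.rp', h.rq, h.rq'⟩
    · by_contra hc
      exact h.n1 (show adjB M a b = true by simpa using hc)
    · by_contra hc
      exact h.n2 (show adjB M c d = true by simpa using hc)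

/-- PROOF: as mem_system, system_length. For the equations of W4 use bz_evalEq (the indices are different: adjacency, a ≠ b, c ≠ d), see evalEq_iff. -/
theorem mem_systemE {M : List (List Bool)} {e : List Bool} : e ∈ systemE M ↔ ∃ a b c d : Fin M.length,
    (Rigid (graphOf M) a b c d ∨ ∃ r, W4 (graphOf M) a b c d r) ∧ e = eqOf M.length a b c d := by
  unfold systemE
  simp only [List.mem_flatMap, List.mem_range]
  constructor
  · rintro ⟨a, ha, b, hb, c, hc, d, hd, h⟩
    split_ifs at h with hr
    · rw [List.mem_singleton] at h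
      rw [Bool.or_eq_true] at hr
      refine ⟨⟨a, ha⟩, ⟨b, hb⟩, ⟨c, hc⟩, ⟨d, hd⟩, ?_, h⟩
      rcases hr with hr | hr
      · exact Or.inl (rigidB_iff.1 hr)
      · exact Or.inr ((w4B_iff (a := ⟨a, ha⟩) (b := ⟨b, hb⟩) (c := ⟨c, hc⟩) (d := ⟨d, hd⟩)).1 hr)
    · exact absurd h (by simp)
  · rintro ⟨a, b, c, d, hr, h⟩
    refine ⟨a, a.2, b, b.2, c, c.2, d, d.2, ?_⟩
    have : (rigidB M a b c d || w4B M a b c d) = true := by
      rw [Bool.or_eq_true]
      rcases hr with hr | hr
      · exact Or.inl (rigidB_iff.2 hr)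
      · exact Or.inr (w4B_iff.2 hr)
    rw [if_pos this, List.mem_singleton]
    exact h

theorem ealg_length {M : List (List Bool)} : ∀ e ∈ systemE M, e.length = M.length * M.length + 1 := by
  intro e he
  obtain ⟨a, b, c, d, _, rfl⟩ := mem_systemE.1 he
  exact eqOf_length _ _ _ _ _

theorem ealg_evalEq {M : List (List Bool)} (x : List Bool) {a b c d : Fin M.length} (hab : a ≠ b) (hcd : c ≠ d)
    (ac : a ≠ c) (ad : a ≠ d) (bc : b ≠ c) (bd : b ≠ d) :
    evalEq (M.length * M.length) x (eqOf M.length a b c d) = false ↔ sep (wZ M.length x) a b c d = 0 := by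
  have ne : ∀ p q : Fin M.length, p ≠ q → ¬ ((p : ℕ) = (q : ℕ)) := fun p q h e => h (Fin.ext e)
  rw [← bz_eq_zero, bz_evalEq x a.2 b.2 c.2 d.2 (ne _ _ hab) (ne _ _ hcd) (ne _ _ ac) (ne _ _ ad) (ne _ _ bc)
    (ne _ _ bd)]
  rfl

/-- the indices of an equation are different -/
theorem ealg_ne {M : List (List Bool)} {a b c d : Fin M.length}
    (h : Rigid (graphOf M) a b c d ∨ ∃ r, W4 (graphOf M) a b c d r) :
    a ≠ b ∧ c ≠ d ∧ a ≠ c ∧ a ≠ d ∧ b ≠ c ∧ b ≠ d := by
  rcases h with h | ⟨r, h⟩
  · exact ⟨h.ab.ne, h.cd.ne, h.ac, h.ad, h.bc, h.bd⟩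
  · exact ⟨h.d1, h.d2, h.pq.ne, h.pq'.ne, h.p'q.ne, h.p'q'.ne⟩

/-- PROOF: copy of outerOrder_none (the equations hold for the solution given by s: isWO_iff and hs.w4, cross_iff_sep). -/
theorem eOrder_none {M : List (List Bool)} (h : eOrder M = none) (s : List (Fin M.length)) : ¬ EWO (graphOf M) s := by
  intro hw
  have hs : IsEnum s := hw.enum
  unfold eOrder at h
  rw [Option.map_eq_none_iff] at h
  -- the solution given by s
  let x : List Bool := (List.range (M.length * M.length)).map (fun k =>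
    if hk : k / M.length < M.length ∧ k % M.length < M.length then
      decide (s.idxOf ⟨k / M.length, hk.1⟩ < s.idxOf ⟨k % M.length, hk.2⟩) else false)
  have hx : ∀ i j : Fin M.length, (i : ℕ) < j → x.getD (i * M.length + j) false =
      decide (s.idxOf i < s.idxOf j) := by
    intro i j hij
    have hn : 0 < M.length := by have := i.2; omega
    have hlt : (i : ℕ) * M.length + j < M.length * M.length := by
      have h1 := i.2
      have h2 := j.2
      calc (i : ℕ) * M.length + j < i * M.length + M.length := by omega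
        _ = (i + 1) * M.length := by ring
        _ ≤ M.length * M.length := Nat.mul_le_mul_right _ h1
    have e1 : ((i : ℕ) * M.length + j) / M.length = i := by
      rw [mul_comm, Nat.mul_add_div hn, Nat.div_eq_of_lt j.2, add_zero]
    have e2 : ((i : ℕ) * M.length + j) % M.length = j := by
      rw [mul_comm, Nat.mul_add_mod, Nat.mod_eq_of_lt j.2]
    rw [List.getD_eq_getElem _ _ (by simpa [x] using hlt)]
    simp only [x, List.getElem_map, List.getElem_range, e1, e2]
    rw [dif_pos ⟨i.2, j.2⟩]
  have hwz : ∀ i j : Fin M.length, i ≠ j → wZ M.length x i j = ordFn s i j := by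
    intro i j hij
    have hne := idx_ne hs hij
    unfold wZ wB ordFn
    by_cases h1 : (i : ℕ) < j
    · rw [if_pos h1, hx i j h1]
      unfold bz
      by_cases h2 : s.idxOf i < s.idxOf j
      · simp [h2]
      · simp [h2]
    · have h3 : (j : ℕ) < i := by
        have : (i : ℕ) ≠ j := fun e => hij (Fin.ext e)
        omega
      rw [if_neg h1, hx j i h3]
      unfold bz
      by_cases h2 : s.idxOf i < s.idxOf j
      · have h4 : ¬ s.idxOf j < s.idxOf i := by omega
        simp [h2, h4]
      · have h4 : s.idxOf j < s.idxOf i := by omega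
        simp [h2, h4]
  obtain ⟨e, he, hev⟩ := gauss_none ealg_length h x
  obtain ⟨a, b, c, d, hr, rfl⟩ := mem_systemE.1 he
  obtain ⟨hab, hcd, hac, had, hbc, hbd⟩ := ealg_ne hr
  have h5 : evalEq (M.length * M.length) x (eqOf M.length a b c d) = false := by
    rw [ealg_evalEq x hab hcd hac had hbc hbd]
    have hcr : ¬ Cross s a b c d := by
      rcases hr with hr | ⟨r, hr⟩
      · exact hw.wo a b c d hr
      · exact hw.w4 hr
    have := (not_cross_iff hs hac had hbc hbd).1 hcr
    unfold sep at this ⊢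
    rw [hwz _ _ hac, hwz _ _ had, hwz _ _ hbc, hwz _ _ hbd]
    exact this
  rw [h5] at hev
  exact absurd hev (by decide)

/-- PROOF: copy of outerOrder_some; the solution w := wZ M.length x is Skew 1, IsSol, and satisfies the W4 equations; a rigid pair is separated by a split (thmA), a pair of W4 too (aplus2, hfree_of_cfree with Fam G (fun _ : Unit => w)); splits give convex sets, so no crossing. -/
theorem eOrder_some {M : List (List Bool)} (hG : PrimeG (graphOf M)) (hc : CFree (graphOf M)) {l : List ℕ}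
    (h : eOrder M = some l) : ∃ s : List (Fin M.length), s.map Fin.val = l ∧ EWO (graphOf M) s := by
  unfold eOrder at h
  rw [Option.map_eq_some_iff] at h
  obtain ⟨x, hx, hl⟩ := h
  have hsol : IsSol (graphOf M) (wZ M.length x) := by
    intro a b c d hr
    obtain ⟨hab, hcd, hac, had, hbc, hbd⟩ := ealg_ne (Or.inl hr)
    rw [← ealg_evalEq x hab hcd hac had hbc hbd]
    exact gauss_some ealg_length hx _ (mem_systemE.2 ⟨a, b, c, d, Or.inl hr, rfl⟩)
  have hsol4 : ∀ p p' q q' r, W4 (graphOf M) p p' q q' r → sep (wZ M.length x) p p' q q' = 0 := by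
    intro a b c d r hr
    obtain ⟨hab, hcd, hac, had, hbc, hbd⟩ := ealg_ne (Or.inr ⟨r, hr⟩)
    rw [← ealg_evalEq x hab hcd hac had hbc hbd]
    exact gauss_some ealg_length hx _ (mem_systemE.2 ⟨a, b, c, d, Or.inr ⟨r, hr⟩, rfl⟩)
  have hF : Fam (graphOf M) (fun _ : Unit => wZ M.length x) :=
    ⟨fun _ => ⟨1, wZ_skew _ _⟩, fun _ => hsol, fun hh _ => hsol4 _ _ _ _ _ hh⟩
  have hfree := hfree_of_cfree hG.1.preconnected hF hc
  have hsplit : ∀ a b c d : Fin M.length, (Rigid (graphOf M) a b c d ∨ ∃ r, W4 (graphOf M) a b c d r) →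
      ∃ X, a ∈ X ∧ b ∈ X ∧ c ∉ X ∧ d ∉ X ∧ IsSplit (wZ M.length x) X := by
    rintro a b c d (hr | ⟨r, hr⟩)
    · exact thmA hG.1.preconnected hsol hr
    · exact aplus2 hG (wZ_skew _ _) hsol hsol4 hfree hr
  by_cases h0 : M.length = 0
  · refine ⟨[], ?_, ⟨List.nodup_nil, fun v => absurd v.2 (by omega)⟩, ?_, ?_⟩
    · rw [← hl]
      unfold SOC.orderOf
      rw [if_pos h0]
      rfl
    · intro a
      exact absurd a.2 (by omega)
    · intro p
      exact absurd p.2 (by omega)
  have hpos : 0 < M.length := Nat.pos_of_ne_zero h0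
  have hLn : ((List.range M.length).tail).Nodup := List.Nodup.sublist (List.tail_sublist _)
    List.nodup_range
  have hT : ∀ i ∈ (List.range M.length).tail, ∀ j ∈ (List.range M.length).tail, i ≠ j →
      tourB M.length x i j = !tourB M.length x j i := fun i _ j _ hij => tourB_skew x hij
  have hperm := modOrder_perm (tourB M.length x) hLn hT
  set m := modOrder (tourB M.length x) ((List.range M.length).tail) with hm
  have hl2 : l = 0 :: m := by
    rw [← hl]
    unfold SOC.orderOf
    rw [if_neg h0]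
  have hcons : List.range M.length = 0 :: (List.range M.length).tail := by
    obtain ⟨k, hk⟩ : ∃ k, M.length = k + 1 := ⟨M.length - 1, by omega⟩
    rw [hk, List.range_succ_eq_map]
    rfl
  have hperm2 : (0 :: m).Perm (List.range M.length) := by
    rw [hcons]
    exact List.Perm.cons 0 hperm
  have hlt : ∀ i ∈ (0 :: m), i < M.length := fun i hi => List.mem_range.1 (hperm2.mem_iff.1 hi)
  -- the list of elements of Fin
  let s : List (Fin M.length) := (0 :: m).pmap (fun i hi => ⟨i, hi⟩) hlt
  have hsmap : s.map Fin.val = 0 :: m := by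
    simp only [s, List.map_pmap]
    exact List.pmap_eq_map hlt |>.trans (List.map_id' _)
  let t : List (Fin M.length) := m.pmap (fun i hi => ⟨i, hi⟩)
    (fun i hi => hlt i (List.mem_cons_of_mem _ hi))
  have hst : s = ⟨0, hpos⟩ :: t := rfl
  have htmap : t.map Fin.val = m := by
    simp only [t, List.map_pmap]
    exact List.pmap_eq_map _ |>.trans (List.map_id' _)
  have hsnd : s.Nodup := by
    have : (s.map Fin.val).Nodup := by
      rw [hsmap]
      exact hperm2.nodup_iff.2 List.nodup_range
    exact List.Nodup.of_map _ this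
  have hsmem : ∀ v, v ∈ s := by
    intro v
    have h1 : (v : ℕ) ∈ s.map Fin.val := by
      rw [hsmap]
      exact hperm2.mem_iff.2 (List.mem_range.2 v.2)
    obtain ⟨u, hu, huv⟩ := List.mem_map.1 h1
    have : u = v := Fin.ext huv
    rw [← this]; exact hu
  have hs : IsEnum s := ⟨hsnd, hsmem⟩
  -- modules are convex
  have hconv : ∀ X : Set (Fin M.length), IsSplit (wZ M.length x) X → (⟨0, hpos⟩ : Fin _) ∉ X →
      SOC.Convex t X := by
    intro X hX hv
    have hsub : ∀ i ∈ {i : ℕ | ∃ h : i < M.length, (⟨i, h⟩ : Fin M.length) ∈ X},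
        i ∈ (List.range M.length).tail := by
      rintro i ⟨hi, hiX⟩
      have h1 : i ∈ List.range M.length := List.mem_range.2 hi
      rw [hcons] at h1
      rcases List.mem_cons.1 h1 with h2 | h2
      · subst h2
        exact absurd hiX hv
      · exact h2
    have h1 := modOrder_convex (tourB M.length x) hLn hT (module_of_split x hpos hX hv) hsub
    rw [← hm] at h1
    intro p hp r hr q hq h2 h3
    have h4 := h1 p ⟨p.2, hp⟩ r ⟨r.2, hr⟩ q (by rw [← htmap]; exact List.mem_map_of_mem hq)
      (by rw [← htmap, idxOf_map_val, idxOf_map_val]; exact h2)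
      (by rw [← htmap, idxOf_map_val, idxOf_map_val]; exact h3)
    obtain ⟨_, h5⟩ := h4
    exact h5
  have hnc : ∀ a b c d : Fin M.length, (Rigid (graphOf M) a b c d ∨ ∃ r, W4 (graphOf M) a b c d r) →
      ¬ Cross s a b c d := by
    intro a b c d hr
    obtain ⟨X, h1, h2, h3, h4, h5⟩ := hsplit a b c d hr
    obtain ⟨hab, hcd, hac, had, hbc, hbd⟩ := ealg_ne hr
    rw [hst] at hs ⊢
    by_cases hv : (⟨0, hpos⟩ : Fin M.length) ∈ X
    · rw [cross_comm hs hac had hbc hbd]
      exact not_cross_of_convex hs (hconv Xᶜ (h5.compl (wZ_skew _ _)) (fun h => h hv))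
        (fun h => h hv) h3 h4 (fun h => h h1) (fun h => h h2)
    · exact not_cross_of_convex hs (hconv X h5 hv) hv h1 h2 h3 h4
  exact ⟨s, by rw [hsmap, hl2], hs, fun a b c d hr => hnc a b c d (Or.inl hr), fun hr => hnc _ _ _ _ (Or.inr ⟨_, hr⟩)⟩

end Pool.Agent.SOE
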