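import Pool.Agent.SOE.EAlg

/-! Project SOE, module EPoly (size 2): the base order is computable in polynomial time.
-/

set_option autoImplicit false

open Set

namespace Pool.Agent.SOE

open Pool.Agent.SOC Pool.Agent.SOD Pool.Agent.SOS Pool.Agent.SOP Pool.Agent.SOW Pool.Agent.RUP

open NPC FP

theorem epoly_hubB {α : Type} [Code α] {M : α → List (List Bool)} {a b c d : α → ℕ} (hM : Poly M) (ha : Poly a)
    (hb : Poly b) (hc : Poly c) (hd : Poly d) : Poly (fun p => hubB (M p) (a p) (b p) (c p) (d p)) := by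
  unfold hubB
  refine FP.Poly.any (Poly.range (Poly.length hM) (PolyBdd.length hM)) ?_
  have h1 : Poly (fun p : α × ℕ => adjB (M p.1) p.2 (a p.1)) := AlgoPoly_adjB (by fun_prop) (by fun_prop) (by fun_prop)
  have h2 : Poly (fun p : α × ℕ => adjB (M p.1) p.2 (b p.1)) := AlgoPoly_adjB (by fun_prop) (by fun_prop) (by fun_prop)
  have h3 : Poly (fun p : α × ℕ => adjB (M p.1) p.2 (c p.1)) := AlgoPoly_adjB (by fun_prop) (by fun_prop) (by fun_prop)
  have h4 : Poly (fun p : α × ℕ => adjB (M p.1) p.2 (d p.1)) := AlgoPoly_adjB (by fun_prop) (by fun_prop) (by fun_prop)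
  fun_prop

theorem epoly_w4B {α : Type} [Code α] {M : α → List (List Bool)} {a b c d : α → ℕ} (hM : Poly M) (ha : Poly a)
    (hb : Poly b) (hc : Poly c) (hd : Poly d) : Poly (fun p => w4B (M p) (a p) (b p) (c p) (d p)) := by
  unfold w4B
  have h1 := AlgoPoly_adjB hM ha hb
  have h2 := AlgoPoly_adjB hM hc hd
  have h3 := AlgoPoly_adjB hM ha hc
  have h4 := AlgoPoly_adjB hM hb hd
  have h5 := AlgoPoly_adjB hM ha hd
  have h6 := AlgoPoly_adjB hM hb hc
  have h7 := epoly_hubB hM ha hb hc hd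
  fun_prop

theorem epoly_systemE : Poly systemE := by
  unfold systemE
  have hr : ∀ {β : Type} [Code β] {M : β → List (List Bool)}, Poly M → Poly (fun p => List.range (M p).length) :=
    fun h => Poly.range (Poly.length h) (PolyBdd.length h)
  refine Poly.flatMap (hr (by fun_prop)) ?_
  refine Poly.flatMap (hr (by fun_prop)) ?_
  refine Poly.flatMap (hr (by fun_prop)) ?_
  refine Poly.flatMap (hr (by fun_prop)) ?_
  have h1 : Poly (fun p : (((List (List Bool) × ℕ) × ℕ) × ℕ) × ℕ =>
      rigidB p.1.1.1.1 p.1.1.1.2 p.1.1.2 p.1.2 p.2) :=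
    AlgoPoly_rigidB (by fun_prop) (by fun_prop) (by fun_prop) (by fun_prop) (by fun_prop)
  have h3 : Poly (fun p : (((List (List Bool) × ℕ) × ℕ) × ℕ) × ℕ =>
      w4B p.1.1.1.1 p.1.1.1.2 p.1.1.2 p.1.2 p.2) :=
    epoly_w4B (by fun_prop) (by fun_prop) (by fun_prop) (by fun_prop) (by fun_prop)
  have h2 : Poly (fun p : (((List (List Bool) × ℕ) × ℕ) × ℕ) × ℕ =>
      eqOf p.1.1.1.1.length p.1.1.1.2 p.1.1.2 p.1.2 p.2) :=
    AlgoPoly_eqOf (by fun_prop) (PolyBdd.length (by fun_prop)) (by fun_prop) (by fun_prop) (by fun_prop)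
      (by fun_prop)
  fun_prop

/-- PROOF: as AlgoPoly_system, poly_outerOrder (poly_gauss, AlgoPoly_orderOf); hubB: List.any over a range (see AlgoPoly / SOS.AlgPoly for the Poly rules). -/
theorem poly_eOrder : Poly eOrder := by
  unfold eOrder
  have h1 : Poly (fun M : List (List Bool) => gauss (M.length * M.length) (systemE M)) :=
    poly_gauss (by fun_prop) ((PolyBdd.length (by fun_prop)).mul (PolyBdd.length (by fun_prop))) epoly_systemE
  exact Poly.optionMap h1 AlgoPoly_orderOf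


end Pool.Agent.SOE
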