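import Pool.Agent.SOE.TH

/-! Project SOE: refutations (end points) (generated). -/

set_option autoImplicit false
set_option maxRecDepth 100000
set_option linter.unusedVariables false

namespace Pool.Agent.SOE

open Pool.Agent.SOC Pool.Agent.SOD Pool.Agent.SOS Pool.Agent.SOP Pool.Agent.SOW Pool.Agent.RUP

/-- templates -/
def ea0_x : List Tm := [
  ⟨0, [], [], [.b true 0 8 9]⟩,
  ⟨0, [], [], [.b true 0 10 9]⟩,
  ⟨0, [], [], [.b true 0 10 11]⟩,
  ⟨0, [], [], [.b true 0 8 11]⟩,
  ⟨0, [], [], [.b false 0 8 10]⟩,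
  ⟨0, [], [], [.b false 0 9 11]⟩,
  ⟨0, [], [], [.q true 0 8 11 9 10]⟩,
  ⟨0, [], [], [.q true 2 8 11 9 10]⟩,
  ⟨0, [], [], [.q true 0 9 11 12 8]⟩,
  ⟨0, [], [], [.q true 2 8 10 12 9]⟩,
  ⟨0, [], [], [.b true 0 12 8]⟩,
  ⟨0, [], [], [.b true 0 12 9]⟩,
  ⟨0, [], [], [.b true 0 13 10]⟩,
  ⟨0, [], [], [.b false 0 12 13]⟩,
  ⟨0, [], [], [.q false 0 9 11 13 8, .q false 2 8 10 13 9]⟩,
  ⟨0, [], [], [.b false 0 8 11, .b false 0 13 10, .b true 0 8 13, .b true 0 8 10]⟩,
  ⟨0, [], [], [.b false 0 9 12, .b false 0 13 10, .b true 0 9 13, .b true 0 12 13]⟩]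

def ea0_p0 : List Nat := [
0x84200b00000003103cd000201,
0xa6420b00000003304ed000201,
0x46a20b0000000330490000201,
0x264003000000035033c000201,
0x264019000000037033e000201,
0x48062070000000080000000390114000301,
0x86420300000000c03fc000201,
0x48620300000000c03bd000201,
0x860420700000003500000000e00c6000301,
0x682401d00000000a00000003b0131000301,
0x42800d00000000200000001200000002b00000003d00e5000501,
0x28040b000000016000c000201,
0x4a280b00000004304cc000201,
0x4a680b00000004304d2000201,
0x4700000003100000002f000000041000f000401,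
0x4900000004300000003f0000000410010000401,
0x2a8402700000004300000003100000002900000002b00000003d00000003f00000001800000001e0000000410000000200524000b01,
0xa82401d00000003b00000002201b8000301,
0xa86401d0000000140000000220221000301,
0x45000000024045c000201,
0xa6401900000002604be000201,
0xa8062070000000390000000280264000301,
0xa4620700000000800000002804bf000301,
0xa42601d00000003700000002a01c1000301,
0x8a620300000002c049e000201,
0xa8620900000002c052f000201,
0xa2061f00000002000000003300000002f0000000300012000501,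
0x2a4860700000000e00000003204d1000301,
0xa64201000a6420d008a264070084a2613000a8640900000002e00000002b0000000060000000360000000100000000340532000b01,
0xa6840d00000003600000001c00000001800000003a0504000501,
0xa8640100000003800000003c0267000301,
0xa62840700000000c00000003c01d1000301,
0x2a8640700000001000000003e01c5000301,
0x84a20d00000002000000001a000000018000000040025c000501,
0x64a20d00000000400000002000000002d00000004201f6000501,
0x84a6213000000034000000046000000044000400]

def ea0_pf : List Nat := ea0_p0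

theorem ea0_ref {V : Type} {S : SRel V} {p : Nat → V} (hp : ∀ i j, i < 6 → j < 6 → p i = p j → i = j)
    (hts : PHs S p 6 ((tO ++ (tV ++ (tP ++ tE))) ++ ea0_x)) : False :=
  refuteS (k := 6) (n2 := 1) (n3 := 0) (n4 := 3) (o3 := 21) (o4 := 21) (M := 714) ((tO ++ (tV ++ (tP ++ tE))) ++ ea0_x) ea0_pf (by decide +kernel)
    (by decide +kernel) (by decide +kernel) (by decide +kernel) hp hts

theorem ea0 {V : Type} [DecidableEq V] {G : SimpleGraph V} {s s' : List V} {T : V → V → V → V → Prop} {r : V} (h : Bs G s s' T) {p q P Q m a : V}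
    (nd : [p, q, P, Q, m, a].Nodup) (w : W4 G p P q Q r) (hc : CrD s p Q q P) (hc' : CrD s' p Q q P)
    (hm : SwR s s' p q P Q m) (am : At4 G p q P Q m) (e : G.Adj a P) (e' : ¬ G.Adj m a) (hn : ¬ SwR s s' p q P Q a)
    {X X' : Set V} (hX : IsPCut G X) (hX' : IsPCut G X')
    (xp : p ∈ X) (xq : q ∈ X) (xa : a ∈ X) (yP : P ∉ X) (yQ : Q ∉ X) (ym : m ∉ X)
    (x'p : p ∈ X') (x'q : q ∈ X') (x'a : a ∈ X') (x'm : m ∈ X') (y'P : P ∉ X') (y'Q : Q ∉ X') : False :=
  ea0_ref (S := h.rel) (pt_inj (o := p) nd rfl) (PHs.app (UHs.phs ((tO_h h).app ((tV_h h).app ((tP_h h).app (tE_h h)))) _ _) (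
  .cons (fun d hd h0 => h0 (w.pq)) (
  .cons (fun d hd h0 => h0 (w.p'q)) (
  .cons (fun d hd h0 => h0 (w.p'q')) (
  .cons (fun d hd h0 => h0 (w.pq')) (
  .cons (fun d hd h0 => w.n1 h0) (
  .cons (fun d hd h0 => w.n2 h0) (
  .cons (fun d hd h0 => h0 (hc)) (
  .cons (fun d hd h0 => h0 (hc')) (
  .cons (fun d hd h0 => h0 (hm.1)) (
  .cons (fun d hd h0 => h0 (hm.2)) (
  .cons (fun d hd h0 => h0 (am.1)) (
  .cons (fun d hd h0 => h0 (am.2.1)) (
  .cons (fun d hd h0 => h0 (e)) (
  .cons (fun d hd h0 => e' h0) (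
  .cons (fun d hd h0 h1 => hn ⟨h0, h1⟩) (
  .cons (fun d hd h0 h1 h2 h3 => (pcc hX xp xa yQ yP (ndk (o := p) (k := 6) nd rfl 0 5 (by decide) (by decide) (by decide)) (ndk (o := p) (k := 6) nd rfl 3 2 (by decide) (by decide) (by decide)) h0 h1).elim (fun k => h2 k.1) (fun k => h3 k.1)) (
  .cons (fun d hd h0 h1 h2 h3 => (pcc hX xq xa ym yP (ndk (o := p) (k := 6) nd rfl 1 5 (by decide) (by decide) (by decide)) (ndk (o := p) (k := 6) nd rfl 4 2 (by decide) (by decide) (by decide)) h0 h1).elim (fun k => h2 k.1) (fun k => h3 k.2)) (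
  .nil)))))))))))))))))))

/-- templates -/
def ea1_x : List Tm := [
  ⟨0, [], [], [.b true 0 8 9]⟩,
  ⟨0, [], [], [.b true 0 10 9]⟩,
  ⟨0, [], [], [.b true 0 10 11]⟩,
  ⟨0, [], [], [.b false 0 8 10]⟩,
  ⟨0, [], [], [.b false 0 9 11]⟩,
  ⟨0, [], [], [.q true 0 8 11 9 10]⟩,
  ⟨0, [], [], [.q true 0 9 11 12 8]⟩,
  ⟨0, [], [], [.q true 2 8 10 12 9]⟩,
  ⟨0, [], [], [.b true 0 12 8]⟩,
  ⟨0, [], [], [.b true 0 12 9]⟩,
  ⟨0, [], [], [.b true 0 13 11]⟩,
  ⟨0, [], [], [.b false 0 12 13]⟩,
  ⟨0, [], [], [.q false 0 9 11 13 8, .q false 2 8 10 13 9]⟩,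
  ⟨0, [], [], [.b false 0 8 12, .b false 0 13 11, .b true 0 8 13, .b true 0 12 13]⟩,
  ⟨0, [], [], [.b false 0 9 10, .b false 0 13 11, .b true 0 9 13, .b true 0 9 11]⟩,
  ⟨0, [], [], [.b false 0 13 11, .b false 0 12 10, .b true 0 13 12, .b true 0 13 10]⟩]

def ea1_p0 : List Nat := [
0x84200b00000002f03cd000201,
0xa6420b00000003104ed000201,
0x46a20b0000000310490000201,
0x264003000000033033c000201,
0x48062070000000080000000350114000301,
0x86420300000000a03fc000201,
0x48620300000000a03bd000201,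
0x860420700000003300000000c00c6000301,
0x42800d00000000200000001000000002b00000003900e5000501,
0x28040b000000012000c000201,
0x4a280b00000003f04cc000201,
0x4a680b00000003f04d2000201,
0x4300000003f00000003900000003d000f000401,
0x4500000003100000002b00000003d0010000401,
0x4700000003f00000001400000003d0011000401,
0x2a8402700000003f00000002f00000002900000002b00000003900000003b00000001400000001a00000001c00000001e0524000b01,
0xa82401d00000003700000002001b8000301,
0x41000000022045c000201,
0xa8062070000000350000000240264000301,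
0xa862030000000260501000201,
0x8a6203000000026049e000201,
0xa86209000000026052f000201,
0x2a4860700000000c00000002a04d1000301,
0x84a621300064a20d00084a20d002a8640700a628407000a8640100000002c00000002d00000001c00000000400000001400000001600000000e00000000a00000002e023a000f01,
0x284a6070000000280000000300222000301,
0xa6840d00000001800000003d0000000140000000300268000501,
0xa6420d00000003d00000000600000002b00000003201f6000501,
0x84a261300000002c000000036000000034000400]

def ea1_pf : List Nat := ea1_p0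

theorem ea1_ref {V : Type} {S : SRel V} {p : Nat → V} (hp : ∀ i j, i < 6 → j < 6 → p i = p j → i = j)
    (hts : PHs S p 6 ((tO ++ (tV ++ (tP ++ tE))) ++ ea1_x)) : False :=
  refuteS (k := 6) (n2 := 1) (n3 := 0) (n4 := 3) (o3 := 21) (o4 := 21) (M := 714) ((tO ++ (tV ++ (tP ++ tE))) ++ ea1_x) ea1_pf (by decide +kernel)
    (by decide +kernel) (by decide +kernel) (by decide +kernel) hp hts

theorem ea1 {V : Type} [DecidableEq V] {G : SimpleGraph V} {s s' : List V} {T : V → V → V → V → Prop} {r : V} (h : Bs G s s' T) {p q P Q m a : V}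
    (nd : [p, q, P, Q, m, a].Nodup) (w : W4 G p P q Q r) (hc : CrD s p Q q P) (hc' : CrD s' p Q q P)
    (hm : SwR s s' p q P Q m) (am : At4 G p q P Q m) (e : G.Adj a Q) (e' : ¬ G.Adj m a) (hn : ¬ SwR s s' p q P Q a)
    {X X' : Set V} (hX : IsPCut G X) (hX' : IsPCut G X')
    (xp : p ∈ X) (xq : q ∈ X) (xa : a ∈ X) (yP : P ∉ X) (yQ : Q ∉ X) (ym : m ∉ X)
    (x'p : p ∈ X') (x'q : q ∈ X') (x'a : a ∈ X') (x'm : m ∈ X') (y'P : P ∉ X') (y'Q : Q ∉ X') : False :=
  ea1_ref (S := h.rel) (pt_inj (o := p) nd rfl) (PHs.app (UHs.phs ((tO_h h).app ((tV_h h).app ((tP_h h).app (tE_h h)))) _ _) (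
  .cons (fun d hd h0 => h0 (w.pq)) (
  .cons (fun d hd h0 => h0 (w.p'q)) (
  .cons (fun d hd h0 => h0 (w.p'q')) (
  .cons (fun d hd h0 => w.n1 h0) (
  .cons (fun d hd h0 => w.n2 h0) (
  .cons (fun d hd h0 => h0 (hc)) (
  .cons (fun d hd h0 => h0 (hm.1)) (
  .cons (fun d hd h0 => h0 (hm.2)) (
  .cons (fun d hd h0 => h0 (am.1)) (
  .cons (fun d hd h0 => h0 (am.2.1)) (
  .cons (fun d hd h0 => h0 (e)) (
  .cons (fun d hd h0 => e' h0) (
  .cons (fun d hd h0 h1 => hn ⟨h0, h1⟩) (
  .cons (fun d hd h0 h1 h2 h3 => (pcc hX xp xa ym yQ (ndk (o := p) (k := 6) nd rfl 0 5 (by decide) (by decide) (by decide)) (ndk (o := p) (k := 6) nd rfl 4 3 (by decide) (by decide) (by decide)) h0 h1).elim (fun k => h2 k.1) (fun k => h3 k.2)) (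
  .cons (fun d hd h0 h1 h2 h3 => (pcc hX xq xa yP yQ (ndk (o := p) (k := 6) nd rfl 1 5 (by decide) (by decide) (by decide)) (ndk (o := p) (k := 6) nd rfl 2 3 (by decide) (by decide) (by decide)) h0 h1).elim (fun k => h2 k.1) (fun k => h3 k.1)) (
  .cons (fun d hd h0 h1 h2 h3 => (pcc hX' x'a x'm y'Q y'P (ndk (o := p) (k := 6) nd rfl 5 4 (by decide) (by decide) (by decide)) (ndk (o := p) (k := 6) nd rfl 3 2 (by decide) (by decide) (by decide)) h0 h1).elim (fun k => h2 k.1) (fun k => h3 k.1)) (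
  .nil))))))))))))))))))

/-- templates -/
def ean_x : List Tm := [
  ⟨0, [], [], [.b true 0 8 9]⟩,
  ⟨0, [], [], [.b true 0 10 9]⟩,
  ⟨0, [], [], [.b true 0 10 11]⟩,
  ⟨0, [], [], [.b true 0 8 11]⟩,
  ⟨0, [], [], [.b false 0 8 10]⟩,
  ⟨0, [], [], [.b false 0 9 11]⟩,
  ⟨0, [], [], [.q true 0 8 11 9 10]⟩,
  ⟨0, [], [], [.q true 2 8 11 9 10]⟩,
  ⟨0, [], [], [.q true 0 9 11 12 8]⟩,
  ⟨0, [], [], [.q true 2 8 10 12 9]⟩,
  ⟨0, [], [], [.b true 0 12 8]⟩,
  ⟨0, [], [], [.b true 0 12 9]⟩,
  ⟨0, [], [], [.b true 0 13 14]⟩,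
  ⟨0, [], [], [.b false 0 12 13]⟩,
  ⟨0, [], [], [.q false 0 9 11 13 8, .q false 2 8 10 13 9]⟩,
  ⟨0, [], [], [.b false 0 8 12, .b false 0 13 14, .b true 0 8 13, .b true 0 12 13]⟩,
  ⟨0, [], [], [.b false 0 8 12, .b false 0 13 14, .b true 0 12 14, .b true 0 12 13]⟩,
  ⟨0, [], [], [.b false 0 9 12, .b false 0 13 14, .b true 0 9 13, .b true 0 12 13]⟩,
  ⟨0, [], [], [.b false 0 13 10, .b false 0 12 11, .b true 0 13 12, .b true 0 13 11]⟩,
  ⟨0, [], [], [.b false 0 13 14, .b false 0 12 10, .b true 0 13 12, .b true 0 13 10]⟩]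

def ean_p0 : List Nat := [
0x84200b00000003105e8000201,
0xa6420b0000000330708000201,
0xc6820b00000003308a0000201,
0x46a20b00000003306ab000201,
0x2640030000000350557000201,
0x2640190000000370559000201,
0x480620700000000a000000039011b000301,
0x86420300000000e0617000201,
0x48620300000000e05d8000201,
0x860420700000003500000001000cd000301,
0x682401d00000000c00000003b0138000301,
0x86401900000001605f8000201,
0x842601d00000003700000001800f6000301,
0x42800d00000000200000001400000002b00000003d00ec000501,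
0x28040b00000001c000c000201,
0x82061f00000001a00000003300000002f00000003f000d000501,
0x4a280b00000004306e7000201,
0xca280b0000000430939000201,
0x4a680b00000004306ed000201,
0xca680b000000043093f000201,
0x4ac80b00000004308fd000201,
0x6ac80b0000000430900000201,
0x4700000004300000003d000000041000f000401,
0x4900000004300000003d0000000410019000401,
0x4b00000004300000003f0000000410010000401,
0x4d000000043000000020001204ef000302,
0x4f00000004300000001e0000000410011000401,
0x2a8402700000004300000003100000002900000002b00000003d00000003f00000001e00000002e000000032000000036073f000b01,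
0x340000000360012000201,
0xa82401d00000003b00000003801bf000301,
0x4500000003c0677000201,
0xa80620700000003900000003e026b000301,
0xa86203000000040071c000201,
0x8a620300000004006b9000201,
0xa86209000000040074a000201,
0x6a4820700000001200000004206e6000301,
0x2a4860700000001000000004406ec000301,
0x24c8a13000ca420d000ca840d00284ca07006c2a811000ac820300c62a807000ac86030004ca20b00086c20d00ac82613000ca860d002ca860700000002b00000004100000001e00000002a00000004400000000600000002000000004600000002c000000040093e093b001702,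
0x84a621300064a20d00084a20d002ca640700ac2840700486ca0700000004c00c628407008c264070006c84030008c6403004ca860700000004600000002d00000003200000000400000001e00000002200000000e00000001200000004a093e001501,
0xac2860700000004400000004e0818000301,
0xac4860700000004a00000004e085d000301,
0x84a621300064a20d00084a20d006c4a207008c4a207008c6a20700000004600000002d00000003200000000400000001e0000000220000000440866041b000d02,
0x84a2613000a6420d000a6840d002c4a607008c4a607008a6c20700a62c8050008ca203000000054000ca6401000ca4201008c6a407008c2a40700000004600000002b00000000800000003a00000001e00000002600000005000000004a0000000480451044508de041e001604,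
0x64a20d08c4a6215004c6a207000c8a20d006c8a20700000002d0000000320000000040000000460000000300000000240000000440388034708f9000c03,
0xa6420d08c4a2615004c2a607000c8a60d006a8c20700a62c807000ca8201000000058000c6a409000a4c209008a2c407008a6c407006c8a407002c8a4070008ca40300000005600ca8620700842ca0700ac4820700862ca0700864ca0700000002b00000000800000003a00000004600000003000000002800000005000000005200000004a00000004800000004000000004e045d045a002102,
0x84a2613000a6420d000a6840d002c4a60700a62840700a62c40700682c407008a6c20700c84a207000000054004ca8207000ac8203000ca820300000004600000002b00000000800000003a00000001e00000002600000000e0000000520000000500000000480938001701,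
0xac4820700000004800000005c0857000301,
0x5a00000005c045d000201,
0xac8403000000060086f000201,
0xca840d00000002a00000004100000001e0000000600392000501,
0x8a6c407000000052000000062086c000301,
0x8a2c40700000005e0000000620866000301,
0x84a2613000a6420d000a6840d004c2a60700a628407006a8c20700c84a207000ca820100000004600000002b00000000800000003a00000001e00000002600000006600000000e00000005000000006800000005c041b001301,
0x6c8a20700000004400000006a03d0000301,
0xc8a20d00000002400000003200000003000000006a034d000501,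
0x4c6a20700000006800000006c01cc000301,
0x4c2a81100000006400000006e0263000301,
0x64a20d00000000400000003200000002d00000007001fd000501,
0x84a6213000000046000000074000000072000400]

def ean_pf : List Nat := ean_p0

theorem ean_ref {V : Type} {S : SRel V} {p : Nat → V} (hp : ∀ i j, i < 7 → j < 7 → p i = p j → i = j)
    (hts : PHs S p 7 ((tO ++ (tV ++ (tP ++ tE))) ++ ean_x)) : False :=
  refuteS (k := 7) (n2 := 1) (n3 := 0) (n4 := 3) (o3 := 28) (o4 := 28) (M := 1246) ((tO ++ (tV ++ (tP ++ tE))) ++ ean_x) ean_pf (by decide +kernel)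
    (by decide +kernel) (by decide +kernel) (by decide +kernel) hp hts

theorem ean {V : Type} [DecidableEq V] {G : SimpleGraph V} {s s' : List V} {T : V → V → V → V → Prop} {r : V} (h : Bs G s s' T) {p q P Q m a b : V}
    (nd : [p, q, P, Q, m, a, b].Nodup) (w : W4 G p P q Q r) (hc : CrD s p Q q P) (hc' : CrD s' p Q q P)
    (hm : SwR s s' p q P Q m) (am : At4 G p q P Q m) (e : G.Adj a b) (e' : ¬ G.Adj m a) (hn : ¬ SwR s s' p q P Q a)
    {X X' : Set V} (hX : IsPCut G X) (hX' : IsPCut G X')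
    (xp : p ∈ X) (xq : q ∈ X) (xa : a ∈ X) (yP : P ∉ X) (yQ : Q ∉ X) (yb : b ∉ X) (ym : m ∉ X)
    (x'p : p ∈ X') (x'q : q ∈ X') (x'a : a ∈ X') (x'm : m ∈ X') (y'P : P ∉ X') (y'Q : Q ∉ X') (y'b : b ∉ X') : False :=
  ean_ref (S := h.rel) (pt_inj (o := p) nd rfl) (PHs.app (UHs.phs ((tO_h h).app ((tV_h h).app ((tP_h h).app (tE_h h)))) _ _) (
  .cons (fun d hd h0 => h0 (w.pq)) (
  .cons (fun d hd h0 => h0 (w.p'q)) (
  .cons (fun d hd h0 => h0 (w.p'q')) (
  .cons (fun d hd h0 => h0 (w.pq')) (
  .cons (fun d hd h0 => w.n1 h0) (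
  .cons (fun d hd h0 => w.n2 h0) (
  .cons (fun d hd h0 => h0 (hc)) (
  .cons (fun d hd h0 => h0 (hc')) (
  .cons (fun d hd h0 => h0 (hm.1)) (
  .cons (fun d hd h0 => h0 (hm.2)) (
  .cons (fun d hd h0 => h0 (am.1)) (
  .cons (fun d hd h0 => h0 (am.2.1)) (
  .cons (fun d hd h0 => h0 (e)) (
  .cons (fun d hd h0 => e' h0) (
  .cons (fun d hd h0 h1 => hn ⟨h0, h1⟩) (
  .cons (fun d hd h0 h1 h2 h3 => (pcc hX xp xa ym yb (ndk (o := p) (k := 7) nd rfl 0 5 (by decide) (by decide) (by decide)) (ndk (o := p) (k := 7) nd rfl 4 6 (by decide) (by decide) (by decide)) h0 h1).elim (fun k => h2 k.1) (fun k => h3 k.2)) (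
  .cons (fun d hd h0 h1 h2 h3 => (pcc hX xp xa ym yb (ndk (o := p) (k := 7) nd rfl 0 5 (by decide) (by decide) (by decide)) (ndk (o := p) (k := 7) nd rfl 4 6 (by decide) (by decide) (by decide)) h0 h1).elim (fun k => h2 k.2) (fun k => h3 k.2)) (
  .cons (fun d hd h0 h1 h2 h3 => (pcc hX xq xa ym yb (ndk (o := p) (k := 7) nd rfl 1 5 (by decide) (by decide) (by decide)) (ndk (o := p) (k := 7) nd rfl 4 6 (by decide) (by decide) (by decide)) h0 h1).elim (fun k => h2 k.1) (fun k => h3 k.2)) (
  .cons (fun d hd h0 h1 h2 h3 => (pcc hX' x'a x'm y'P y'Q (ndk (o := p) (k := 7) nd rfl 5 4 (by decide) (by decide) (by decide)) (ndk (o := p) (k := 7) nd rfl 2 3 (by decide) (by decide) (by decide)) h0 h1).elim (fun k => h2 k.1) (fun k => h3 k.1)) (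
  .cons (fun d hd h0 h1 h2 h3 => (pcc hX' x'a x'm y'b y'P (ndk (o := p) (k := 7) nd rfl 5 4 (by decide) (by decide) (by decide)) (ndk (o := p) (k := 7) nd rfl 6 2 (by decide) (by decide) (by decide)) h0 h1).elim (fun k => h2 k.1) (fun k => h3 k.1)) (
  .nil))))))))))))))))))))))

/-- templates -/
def eb0_x : List Tm := [
  ⟨0, [], [], [.b true 0 8 9]⟩,
  ⟨0, [], [], [.b true 0 10 9]⟩,
  ⟨0, [], [], [.b true 0 10 11]⟩,
  ⟨0, [], [], [.b true 0 8 11]⟩,
  ⟨0, [], [], [.b false 0 8 10]⟩,
  ⟨0, [], [], [.b false 0 9 11]⟩,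
  ⟨0, [], [], [.q true 0 8 11 9 10]⟩,
  ⟨0, [], [], [.q true 0 9 11 12 8]⟩,
  ⟨0, [], [], [.q true 2 8 10 12 9]⟩,
  ⟨0, [], [], [.b true 0 12 8]⟩,
  ⟨0, [], [], [.b true 0 12 9]⟩,
  ⟨0, [], [], [.b true 0 8 13]⟩,
  ⟨0, [], [], [.b false 0 12 13]⟩,
  ⟨0, [], [], [.q false 0 9 11 13 8, .q false 2 8 10 13 9]⟩,
  ⟨0, [], [], [.b false 0 8 11, .b false 0 9 13, .b true 0 11 13, .b true 0 11 9]⟩,
  ⟨0, [], [], [.b false 0 8 13, .b false 0 9 10, .b true 0 13 10, .b true 0 8 10]⟩,
  ⟨0, [], [], [.b false 0 8 13, .b false 0 9 12, .b true 0 13 12, .b true 0 13 9]⟩]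

def eb0_p0 : List Nat := [
0x84200b00000003103cd000201,
0xa6420b00000003304ed000201,
0x46a20b0000000330490000201,
0x264003000000035033c000201,
0x48062070000000080000000370114000301,
0x86420300000000a03fc000201,
0x48620300000000a03bd000201,
0x860420700000003500000000c00c6000301,
0x42800d00000000200000001000000002b00000003b00e5000501,
0x28040b000000012000c000201,
0x4a280b00000004104cc000201,
0x4a680b00000004104d2000201,
0x4500000003300000002f001202da000302,
0x4700000003100000002b00000003f0011000401,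
0x4900000004100000003d00000003f0010000401,
0x1a00000001e0012000201,
0x2a8402700000004100000003100000002900000002b00000003b00000003d00000001400000003f00000001c00000001e0524000b01,
0xa82401d00000003900000002201b8000301,
0x43000000024045c000201,
0xa8062070000000370000000260264000301,
0xa4620700000000800000002604bf000301,
0x8a6203000000028049e000201,
0xa86209000000028052f000201,
0x2a4860700000000c00000002c04d1000301,
0xa64201000a6420d008a264070084a2613000a8640900000002a00000002b00000000600000002000000000e00000002e0532000b01,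
0xa6840d0000000200000000180000000140000000320504000501,
0xa864010000000300000000340267000301,
0xa62840700000000a00000003401d1000301,
0x2a8640700000000e00000003601c5000301,
0x84a20d00000001e000000016000000014000000038025c000501,
0x64a20d00000000400000001e00000002d00000003a01f6000501,
0x84a621300000002e00000003e00000003c000400]

def eb0_pf : List Nat := eb0_p0

theorem eb0_ref {V : Type} {S : SRel V} {p : Nat → V} (hp : ∀ i j, i < 6 → j < 6 → p i = p j → i = j)
    (hts : PHs S p 6 ((tO ++ (tV ++ (tP ++ tE))) ++ eb0_x)) : False :=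
  refuteS (k := 6) (n2 := 1) (n3 := 0) (n4 := 3) (o3 := 21) (o4 := 21) (M := 714) ((tO ++ (tV ++ (tP ++ tE))) ++ eb0_x) eb0_pf (by decide +kernel)
    (by decide +kernel) (by decide +kernel) (by decide +kernel) hp hts

theorem eb0 {V : Type} [DecidableEq V] {G : SimpleGraph V} {s s' : List V} {T : V → V → V → V → Prop} {r : V} (h : Bs G s s' T) {p q P Q m b : V}
    (nd : [p, q, P, Q, m, b].Nodup) (w : W4 G p P q Q r) (hc : CrD s p Q q P) (hc' : CrD s' p Q q P)
    (hm : SwR s s' p q P Q m) (am : At4 G p q P Q m) (e : G.Adj p b) (e' : ¬ G.Adj m b) (hn : ¬ SwR s s' p q P Q b)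
    {X X' : Set V} (hX : IsPCut G X) (hX' : IsPCut G X')
    (xp : p ∈ X) (xq : q ∈ X) (yP : P ∉ X) (yQ : Q ∉ X) (yb : b ∉ X) (ym : m ∉ X)
    (x'p : p ∈ X') (x'q : q ∈ X') (x'm : m ∈ X') (y'P : P ∉ X') (y'Q : Q ∉ X') (y'b : b ∉ X') : False :=
  eb0_ref (S := h.rel) (pt_inj (o := p) nd rfl) (PHs.app (UHs.phs ((tO_h h).app ((tV_h h).app ((tP_h h).app (tE_h h)))) _ _) (
  .cons (fun d hd h0 => h0 (w.pq)) (
  .cons (fun d hd h0 => h0 (w.p'q)) (
  .cons (fun d hd h0 => h0 (w.p'q')) (
  .cons (fun d hd h0 => h0 (w.pq')) (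
  .cons (fun d hd h0 => w.n1 h0) (
  .cons (fun d hd h0 => w.n2 h0) (
  .cons (fun d hd h0 => h0 (hc)) (
  .cons (fun d hd h0 => h0 (hm.1)) (
  .cons (fun d hd h0 => h0 (hm.2)) (
  .cons (fun d hd h0 => h0 (am.1)) (
  .cons (fun d hd h0 => h0 (am.2.1)) (
  .cons (fun d hd h0 => h0 (e)) (
  .cons (fun d hd h0 => e' h0) (
  .cons (fun d hd h0 h1 => hn ⟨h0, h1⟩) (
  .cons (fun d hd h0 h1 h2 h3 => (pcc hX xp xq yQ yb (ndk (o := p) (k := 6) nd rfl 0 1 (by decide) (by decide) (by decide)) (ndk (o := p) (k := 6) nd rfl 3 5 (by decide) (by decide) (by decide)) h0 h1).elim (fun k => h2 k.2) (fun k => h3 k.2)) (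
  .cons (fun d hd h0 h1 h2 h3 => (pcc hX xp xq yb yP (ndk (o := p) (k := 6) nd rfl 0 1 (by decide) (by decide) (by decide)) (ndk (o := p) (k := 6) nd rfl 5 2 (by decide) (by decide) (by decide)) h0 h1).elim (fun k => h2 k.2) (fun k => h3 k.1)) (
  .cons (fun d hd h0 h1 h2 h3 => (pcc hX xp xq yb ym (ndk (o := p) (k := 6) nd rfl 0 1 (by decide) (by decide) (by decide)) (ndk (o := p) (k := 6) nd rfl 5 4 (by decide) (by decide) (by decide)) h0 h1).elim (fun k => h2 k.2) (fun k => h3 k.2)) (
  .nil)))))))))))))))))))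

/-- templates -/
def eb1_x : List Tm := [
  ⟨0, [], [], [.b true 0 8 9]⟩,
  ⟨0, [], [], [.b true 0 10 9]⟩,
  ⟨0, [], [], [.b true 0 10 11]⟩,
  ⟨0, [], [], [.b true 0 8 11]⟩,
  ⟨0, [], [], [.b false 0 8 10]⟩,
  ⟨0, [], [], [.b false 0 9 11]⟩,
  ⟨0, [], [], [.q true 0 8 11 9 10]⟩,
  ⟨0, [], [], [.q true 0 9 11 12 8]⟩,
  ⟨0, [], [], [.q true 2 8 10 12 9]⟩,
  ⟨0, [], [], [.b true 0 12 8]⟩,
  ⟨0, [], [], [.b true 0 12 9]⟩,
  ⟨0, [], [], [.b true 0 9 13]⟩,
  ⟨0, [], [], [.b false 0 12 13]⟩,
  ⟨0, [], [], [.q false 0 9 11 13 8, .q false 2 8 10 13 9]⟩,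
  ⟨0, [], [], [.b false 0 8 11, .b false 0 9 13, .b true 0 11 13, .b true 0 11 9]⟩,
  ⟨0, [], [], [.b false 0 8 13, .b false 0 9 10, .b true 0 13 10, .b true 0 8 10]⟩,
  ⟨0, [], [], [.b false 0 8 12, .b false 0 9 13, .b true 0 12 13, .b true 0 8 13]⟩]

def eb1_p0 : List Nat := [
0x84200b00000003103cd000201,
0xa6420b00000003304ed000201,
0x46a20b0000000330490000201,
0x264003000000035033c000201,
0x48062070000000080000000370114000301,
0x86420300000000a03fc000201,
0x48620300000000a03bd000201,
0x860420700000003500000000c00c6000301,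
0x42800d00000000200000001000000002b00000003b00e5000501,
0x28040b000000012000c000201,
0x4a280b00000004104cc000201,
0x4a680b00000004104d2000201,
0x4500000003300000002f00000003f0012000401,
0x4700000003100000002b001102d9000302,
0x4900000004100000003b00000003f000f000401,
0x1c00000001e0011000201,
0x2a8402700000004100000003100000002900000002b00000003b00000003d00000001400000001e00000003f0000000200524000b01,
0xa82401d00000003900000002201b8000301,
0x43000000024045c000201,
0xa8062070000000370000000260264000301,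
0xa4620700000000800000002604bf000301,
0x8a6203000000028049e000201,
0xa86209000000028052f000201,
0x2a4860700000000c00000002c04d1000301,
0xa64201000a6420d008a264070084a2613000a8640900000002a00000002b00000000600000001a00000000e00000002e0532000b01,
0xa6840d00000001a0000000180000000140000000320504000501,
0xa864010000000300000000340267000301,
0xa62840700000000a00000003401d1000301,
0x2a8640700000000e00000003601c5000301,
0x84a20d00000001600000003f000000014000000038025c000501,
0x64a20d00000000400000003f00000002d00000003a01f6000501,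
0x84a621300000002e00000003e00000003c000400]

def eb1_pf : List Nat := eb1_p0

theorem eb1_ref {V : Type} {S : SRel V} {p : Nat → V} (hp : ∀ i j, i < 6 → j < 6 → p i = p j → i = j)
    (hts : PHs S p 6 ((tO ++ (tV ++ (tP ++ tE))) ++ eb1_x)) : False :=
  refuteS (k := 6) (n2 := 1) (n3 := 0) (n4 := 3) (o3 := 21) (o4 := 21) (M := 714) ((tO ++ (tV ++ (tP ++ tE))) ++ eb1_x) eb1_pf (by decide +kernel)
    (by decide +kernel) (by decide +kernel) (by decide +kernel) hp hts

theorem eb1 {V : Type} [DecidableEq V] {G : SimpleGraph V} {s s' : List V} {T : V → V → V → V → Prop} {r : V} (h : Bs G s s' T) {p q P Q m b : V}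
    (nd : [p, q, P, Q, m, b].Nodup) (w : W4 G p P q Q r) (hc : CrD s p Q q P) (hc' : CrD s' p Q q P)
    (hm : SwR s s' p q P Q m) (am : At4 G p q P Q m) (e : G.Adj q b) (e' : ¬ G.Adj m b) (hn : ¬ SwR s s' p q P Q b)
    {X X' : Set V} (hX : IsPCut G X) (hX' : IsPCut G X')
    (xp : p ∈ X) (xq : q ∈ X) (yP : P ∉ X) (yQ : Q ∉ X) (yb : b ∉ X) (ym : m ∉ X)
    (x'p : p ∈ X') (x'q : q ∈ X') (x'm : m ∈ X') (y'P : P ∉ X') (y'Q : Q ∉ X') (y'b : b ∉ X') : False :=
  eb1_ref (S := h.rel) (pt_inj (o := p) nd rfl) (PHs.app (UHs.phs ((tO_h h).app ((tV_h h).app ((tP_h h).app (tE_h h)))) _ _) (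
  .cons (fun d hd h0 => h0 (w.pq)) (
  .cons (fun d hd h0 => h0 (w.p'q)) (
  .cons (fun d hd h0 => h0 (w.p'q')) (
  .cons (fun d hd h0 => h0 (w.pq')) (
  .cons (fun d hd h0 => w.n1 h0) (
  .cons (fun d hd h0 => w.n2 h0) (
  .cons (fun d hd h0 => h0 (hc)) (
  .cons (fun d hd h0 => h0 (hm.1)) (
  .cons (fun d hd h0 => h0 (hm.2)) (
  .cons (fun d hd h0 => h0 (am.1)) (
  .cons (fun d hd h0 => h0 (am.2.1)) (
  .cons (fun d hd h0 => h0 (e)) (
  .cons (fun d hd h0 => e' h0) (
  .cons (fun d hd h0 h1 => hn ⟨h0, h1⟩) (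
  .cons (fun d hd h0 h1 h2 h3 => (pcc hX xp xq yQ yb (ndk (o := p) (k := 6) nd rfl 0 1 (by decide) (by decide) (by decide)) (ndk (o := p) (k := 6) nd rfl 3 5 (by decide) (by decide) (by decide)) h0 h1).elim (fun k => h2 k.2) (fun k => h3 k.2)) (
  .cons (fun d hd h0 h1 h2 h3 => (pcc hX xp xq yb yP (ndk (o := p) (k := 6) nd rfl 0 1 (by decide) (by decide) (by decide)) (ndk (o := p) (k := 6) nd rfl 5 2 (by decide) (by decide) (by decide)) h0 h1).elim (fun k => h2 k.2) (fun k => h3 k.1)) (
  .cons (fun d hd h0 h1 h2 h3 => (pcc hX xp xq ym yb (ndk (o := p) (k := 6) nd rfl 0 1 (by decide) (by decide) (by decide)) (ndk (o := p) (k := 6) nd rfl 4 5 (by decide) (by decide) (by decide)) h0 h1).elim (fun k => h2 k.2) (fun k => h3 k.1)) (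
  .nil)))))))))))))))))))

/-- templates -/
def ebn_x : List Tm := [
  ⟨0, [], [], [.b true 0 8 9]⟩,
  ⟨0, [], [], [.b true 0 10 9]⟩,
  ⟨0, [], [], [.b true 0 10 11]⟩,
  ⟨0, [], [], [.b true 0 8 11]⟩,
  ⟨0, [], [], [.b false 0 8 10]⟩,
  ⟨0, [], [], [.b false 0 9 11]⟩,
  ⟨0, [], [], [.q true 0 8 11 9 10]⟩,
  ⟨0, [], [], [.q true 2 8 11 9 10]⟩,
  ⟨0, [], [], [.q true 0 9 11 12 8]⟩,
  ⟨0, [], [], [.q true 2 8 10 12 9]⟩,
  ⟨0, [], [], [.b true 0 12 8]⟩,
  ⟨0, [], [], [.b true 0 12 9]⟩,
  ⟨0, [], [], [.b true 0 14 13]⟩,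
  ⟨0, [], [], [.b false 0 12 13]⟩,
  ⟨0, [], [], [.q false 0 9 11 13 8, .q false 2 8 10 13 9]⟩,
  ⟨0, [], [], [.b false 0 8 11, .b false 0 9 13, .b true 0 11 13, .b true 0 11 9]⟩,
  ⟨0, [], [], [.b false 0 8 13, .b false 0 9 10, .b true 0 13 10, .b true 0 8 10]⟩,
  ⟨0, [], [], [.b false 0 8 13, .b false 0 9 12, .b true 0 13 12, .b true 0 13 9]⟩,
  ⟨0, [], [], [.b false 0 8 12, .b false 0 14 13, .b true 0 12 13, .b true 0 8 13]⟩,
  ⟨0, [], [], [.b false 0 8 12, .b false 0 14 13, .b true 0 12 13, .b true 0 12 14]⟩]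

def ebn_p0 : List Nat := [
0x84200b00000003105e8000201,
0xa6420b0000000330708000201,
0xc6820b00000003308a0000201,
0x46a20b00000003306ab000201,
0x2640030000000350557000201,
0x2640190000000370559000201,
0x480620700000000a000000039011b000301,
0x86420300000000e0617000201,
0x48620300000000e05d8000201,
0x860420700000003500000001000cd000301,
0x682401d00000000c00000003b0138000301,
0x86401900000001605f8000201,
0x842601d00000003700000001800f6000301,
0x42800d00000000200000001400000002b00000003d00ec000501,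
0x28040b00000001c000c000201,
0x82061f00000001a00000003300000002f00000003f000d000501,
0x4a280b00000004306e7000201,
0xca280b0000000430939000201,
0x4a680b00000004306ed000201,
0xca680b000000043093f000201,
0x4ac80b00000004308fd000201,
0x6ac80b0000000430900000201,
0x4700000003300000002f001204ee000302,
0x4900000003100000002b001104ed000302,
0x4b00000004300000003f001004ed000302,
0x4d00000004300000003d000000041000f000401,
0x300000000340011000201,
0x320000000340010000201,
0x2a8402700000004300000003100000002900000002b00000003d00000003f00000001e000000034000000038000000036073f000b01,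
0x2e0000000380012000201,
0xa82401d00000003b00000003a01bf000301,
0x4500000003e0677000201,
0xa806207000000039000000040026b000301,
0xa86203000000042071c000201,
0x8a620300000004206b9000201,
0xa86209000000042074a000201,
0x6a4820700000001200000004406e6000301,
0x2a4860700000001000000004606ec000301,
0x4f00000004300000003d0000000410019000401,
0x24c8a13000ca420d000ca840d00284ca07006c2a811000ac820300c62a807000ac86030004ca20b00086c20d00ac82613000ca860d002ca860700000002b00000004100000001e00000002a00000004600000000600000002000000004800000002c000000042093e093b001702,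
0x84a621300064a20d00084a20d002ca640700ac2840700486ca0700000005000c628407008c264070006c84030008c6403004ca860700000004800000002d00000003800000000400000001e00000002200000000e00000001200000004c093e001501,
0xac286070000000460000000520818000301,
0xac4860700000004c000000052085d000301,
0x84a621300064a20d00084a20d006c4a207008c4a207008c6a20700000004800000002d00000003800000000400000001e0000000220000000460866041b000d02,
0x84a2613000a6420d000a6840d002c4a607008c4a607008a6c20700a62c8050008ca203000000058000ca6401000ca4201008c6a407008c2a40700000004800000002b00000000800000003c00000001e00000002600000005400000004c00000004a0451044508de041e001604,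
0x64a20d08c4a6215004c6a207000c8a20d006c8a20700000002d00000003800000000400000004800000004e0000000240000000460388034708f9000c03,
0xa6420d08c4a2615004c2a607000c8a60d006a8c20700a62c807000ca820100000005c000c6a409000a4c209008a2c407008a6c407006c8a407002c8a4070008ca40300000005a00ca8620700842ca0700ac4820700862ca0700864ca0700000002b00000000800000003c00000004800000004e00000002800000005400000005600000004c00000004a000000042000000052045d045a002102,
0x84a2613000a6420d000a6840d002c4a60700a62840700a62c40700682c407008a6c20700c84a207000000058004ca8207000ac8203000ca820300000004800000002b00000000800000003c00000001e00000002600000000e00000005600000005400000004a0938001701,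
0xac4820700000004a0000000600857000301,
0x5e000000060045d000201,
0xac8403000000064086f000201,
0xca840d00000002a00000004100000001e0000000640392000501,
0x8a6c407000000056000000066086c000301,
0x8a2c4070000000620000000660866000301,
0x84a2613000a6420d000a6840d004c2a60700a628407006a8c20700c84a207000ca820100000004800000002b00000000800000003c00000001e00000002600000006a00000000e00000005400000006c000000060041b001301,
0x6c8a20700000004600000006e03d0000301,
0xc8a20d00000002400000004e00000003800000006e034d000501,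
0x4c6a20700000006c00000007001cc000301,
0x4c2a8110000000680000000720263000301,
0x64a20d00000000400000003800000002d00000007401fd000501,
0x84a6213000000048000000078000000076000400]

def ebn_pf : List Nat := ebn_p0

theorem ebn_ref {V : Type} {S : SRel V} {p : Nat → V} (hp : ∀ i j, i < 7 → j < 7 → p i = p j → i = j)
    (hts : PHs S p 7 ((tO ++ (tV ++ (tP ++ tE))) ++ ebn_x)) : False :=
  refuteS (k := 7) (n2 := 1) (n3 := 0) (n4 := 3) (o3 := 28) (o4 := 28) (M := 1246) ((tO ++ (tV ++ (tP ++ tE))) ++ ebn_x) ebn_pf (by decide +kernel)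
    (by decide +kernel) (by decide +kernel) (by decide +kernel) hp hts

theorem ebn {V : Type} [DecidableEq V] {G : SimpleGraph V} {s s' : List V} {T : V → V → V → V → Prop} {r : V} (h : Bs G s s' T) {p q P Q m b a : V}
    (nd : [p, q, P, Q, m, b, a].Nodup) (w : W4 G p P q Q r) (hc : CrD s p Q q P) (hc' : CrD s' p Q q P)
    (hm : SwR s s' p q P Q m) (am : At4 G p q P Q m) (e : G.Adj a b) (e' : ¬ G.Adj m b) (hn : ¬ SwR s s' p q P Q b)
    {X X' : Set V} (hX : IsPCut G X) (hX' : IsPCut G X')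
    (xp : p ∈ X) (xq : q ∈ X) (xa : a ∈ X) (yP : P ∉ X) (yQ : Q ∉ X) (yb : b ∉ X) (ym : m ∉ X)
    (x'p : p ∈ X') (x'q : q ∈ X') (x'a : a ∈ X') (x'm : m ∈ X') (y'P : P ∉ X') (y'Q : Q ∉ X') (y'b : b ∉ X') : False :=
  ebn_ref (S := h.rel) (pt_inj (o := p) nd rfl) (PHs.app (UHs.phs ((tO_h h).app ((tV_h h).app ((tP_h h).app (tE_h h)))) _ _) (
  .cons (fun d hd h0 => h0 (w.pq)) (
  .cons (fun d hd h0 => h0 (w.p'q)) (
  .cons (fun d hd h0 => h0 (w.p'q')) (
  .cons (fun d hd h0 => h0 (w.pq')) (
  .cons (fun d hd h0 => w.n1 h0) (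
  .cons (fun d hd h0 => w.n2 h0) (
  .cons (fun d hd h0 => h0 (hc)) (
  .cons (fun d hd h0 => h0 (hc')) (
  .cons (fun d hd h0 => h0 (hm.1)) (
  .cons (fun d hd h0 => h0 (hm.2)) (
  .cons (fun d hd h0 => h0 (am.1)) (
  .cons (fun d hd h0 => h0 (am.2.1)) (
  .cons (fun d hd h0 => h0 (e)) (
  .cons (fun d hd h0 => e' h0) (
  .cons (fun d hd h0 h1 => hn ⟨h0, h1⟩) (
  .cons (fun d hd h0 h1 h2 h3 => (pcc hX xp xq yQ yb (ndk (o := p) (k := 7) nd rfl 0 1 (by decide) (by decide) (by decide)) (ndk (o := p) (k := 7) nd rfl 3 5 (by decide) (by decide) (by decide)) h0 h1).elim (fun k => h2 k.2) (fun k => h3 k.2)) (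
  .cons (fun d hd h0 h1 h2 h3 => (pcc hX xp xq yb yP (ndk (o := p) (k := 7) nd rfl 0 1 (by decide) (by decide) (by decide)) (ndk (o := p) (k := 7) nd rfl 5 2 (by decide) (by decide) (by decide)) h0 h1).elim (fun k => h2 k.2) (fun k => h3 k.1)) (
  .cons (fun d hd h0 h1 h2 h3 => (pcc hX xp xq yb ym (ndk (o := p) (k := 7) nd rfl 0 1 (by decide) (by decide) (by decide)) (ndk (o := p) (k := 7) nd rfl 5 4 (by decide) (by decide) (by decide)) h0 h1).elim (fun k => h2 k.2) (fun k => h3 k.2)) (
  .cons (fun d hd h0 h1 h2 h3 => (pcc hX xp xa ym yb (ndk (o := p) (k := 7) nd rfl 0 6 (by decide) (by decide) (by decide)) (ndk (o := p) (k := 7) nd rfl 4 5 (by decide) (by decide) (by decide)) h0 h1).elim (fun k => h2 k.2) (fun k => h3 k.1)) (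
  .cons (fun d hd h0 h1 h2 h3 => (pcc hX xp xa ym yb (ndk (o := p) (k := 7) nd rfl 0 6 (by decide) (by decide) (by decide)) (ndk (o := p) (k := 7) nd rfl 4 5 (by decide) (by decide) (by decide)) h0 h1).elim (fun k => h2 k.2) (fun k => h3 k.2)) (
  .nil))))))))))))))))))))))

end Pool.Agent.SOE
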