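import Pool.Agent.SOE.Split
import Pool.Agent.SOE.RefB

/-! Project SOE, module Endp (size 3): a switching vertex is adjacent to the ends of the edges between the sides.
-/

set_option autoImplicit false

open Set

namespace Pool.Agent.SOE

open Pool.Agent.SOC Pool.Agent.SOD Pool.Agent.SOS Pool.Agent.SOP Pool.Agent.SOW Pool.Agent.RUP

variable {V : Type} [DecidableEq V] {G : SimpleGraph V} {s s' : List V} {T : V → V → V → V → Prop} {p q P Q r : V}

theorem endp_r (hG : PrimeG G) (h : Ctx G s s' T p q P Q r) {X X' : Set V} (hX : IsPCut G X) (hX' : IsPCut G X')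
    (hXX : X ⊆ X') (hp : p ∈ X) (hq : q ∈ X) (hP : P ∉ X') (hQ : Q ∉ X') {m : V}
    (hm : SwR s s' p q P Q m) (h1 : m ∉ X) (h2 : m ∈ X') {a b : V} (ha : a ∈ X) (hb : b ∉ X')
    (hab : G.Adj a b) : G.Adj m a ∧ G.Adj m b := by
  have hcd := ctx_cd h
  have am : At4 G p q P Q m := (uniqR hG h hm hm).2
  obtain ⟨⟨⟨npQ, npq, npP, nQq, nQP, nqP⟩, hc0⟩, hc'⟩ := hcd
  have hc : CrD s p Q q P := ⟨⟨npQ, npq, npP, nQq, nQP, nqP⟩, hc0⟩
  have nqQ : q ≠ Q := nQq.symm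
  have nPQ : P ≠ Q := nQP.symm
  have hP0 : P ∉ X := fun h => hP (hXX h)
  have hQ0 : Q ∉ X := fun h => hQ (hXX h)
  have hb0 : b ∉ X := fun h => hb (hXX h)
  have ne1 : ∀ {x y : V}, x ∈ X → y ∉ X → x ≠ y := fun hx hy e => hy (e ▸ hx)
  have ne2 : ∀ {x y : V}, x ∈ X' → y ∉ X' → x ≠ y := fun hx hy e => hy (e ▸ hx)
  have npm : p ≠ m := ne1 hp h1
  have nqm : q ≠ m := ne1 hq h1
  have nPm : P ≠ m := (ne2 h2 hP).symm
  have nQm : Q ≠ m := (ne2 h2 hQ).symm
  have nma : m ≠ a := (ne1 ha h1).symm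
  have nmb : m ≠ b := ne2 h2 hb
  have nPa : P ≠ a := (ne1 ha hP0).symm
  have nQa : Q ≠ a := (ne1 ha hQ0).symm
  have npb : p ≠ b := ne1 hp hb0
  have nqb : q ≠ b := ne1 hq hb0
  have nab : a ≠ b := ne1 ha hb0
  have nba : b ≠ a := nab.symm
  constructor
  · by_contra e'
    have npa : p ≠ a := fun e => e' (e ▸ am.1)
    have nqa : q ≠ a := fun e => e' (e ▸ am.2.1)
    have hn : ¬ SwR s s' p q P Q a := fun ha' => nma (uniqR hG h hm ha').1
    by_cases hbP : b = P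
    · subst hbP
      exact ea0 (ctx_bs h) (by simp [npq, npP, npQ, npm, npa, nqP, nqQ, nqm, nqa, nPQ, nPm, nPa, nQm, nQa, nma])
        h.w hc hc' hm am hab e' hn hX hX' hp hq ha hP0 hQ0 h1 (hXX hp) (hXX hq) (hXX ha) h2 hP hQ
    · by_cases hbQ : b = Q
      · subst hbQ
        exact ea1 (ctx_bs h) (by simp [npq, npP, npQ, npm, npa, nqP, nqQ, nqm, nqa, nPQ, nPm, nPa, nQm, nQa, nma])
          h.w hc hc' hm am hab e' hn hX hX' hp hq ha hP0 hQ0 h1 (hXX hp) (hXX hq) (hXX ha) h2 hP hQ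
      · have nPb : P ≠ b := fun e => hbP e.symm
        have nQb : Q ≠ b := fun e => hbQ e.symm
        exact ean (ctx_bs h) (by simp [npq, npP, npQ, npm, npa, nqP, nqQ, nqm, nqa, nPQ, nPm, nPa, nQm, nQa, nma,
            npb, nqb, nPb, nQb, nmb, nab])
          h.w hc hc' hm am hab e' hn hX hX' hp hq ha hP0 hQ0 hb0 h1 (hXX hp) (hXX hq) (hXX ha) h2 hP hQ hb
  · by_contra e'
    have nPb : P ≠ b := fun e => e' (e ▸ am.2.2.1)
    have nQb : Q ≠ b := fun e => e' (e ▸ am.2.2.2)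
    have hn : ¬ SwR s s' p q P Q b := fun hb' => nmb (uniqR hG h hm hb').1
    by_cases hap : a = p
    · subst hap
      exact eb0 (ctx_bs h) (by simp [npq, npP, npQ, npm, nqP, nqQ, nqm, nPQ, nPm, nQm,
            npb, nqb, nPb, nQb, nmb])
        h.w hc hc' hm am hab e' hn hX hX' hp hq hP0 hQ0 hb0 h1 (hXX hp) (hXX hq) h2 hP hQ hb
    · by_cases haq : a = q
      · subst haq
        exact eb1 (ctx_bs h) (by simp [npq, npP, npQ, npm, nqP, nqQ, nqm, nPQ, nPm, nQm,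
            npb, nqb, nPb, nQb, nmb])
          h.w hc hc' hm am hab e' hn hX hX' hp hq hP0 hQ0 hb0 h1 (hXX hp) (hXX hq) h2 hP hQ hb
      · have npa : p ≠ a := fun e => hap e.symm
        have nqa : q ≠ a := fun e => haq e.symm
        exact ebn (ctx_bs h) (by simp [npq, npP, npQ, npm, npa, nqP, nqQ, nqm, nqa, nPQ, nPm, nPa, nQm, nQa, nma,
            npb, nqb, nPb, nQb, nmb, nba])
          h.w hc hc' hm am hab e' hn hX hX' hp hq ha hP0 hQ0 hb0 h1 (hXX hp) (hXX hq) (hXX ha) h2 hP hQ hb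

/-- PROOF. If SwL m: apply the case SwR to h.mir (SwL s s' p q P Q m is SwR s s' q p Q P m). So SwR m, At4 m by uniqR. Suppose ¬ G.Adj m a. a ≠ p, q (At4), a ∉ {P, Q, m, b}. ¬ SwR a (uniqR would give a = m). If b = P: ea0; b = Q: ea1; otherwise ean (RefB; the memberships X, X' of the points: m ∉ X, m ∈ X'; the elements of X are in X').
Suppose ¬ G.Adj m b: b ≠ P, Q; ¬ SwR b (b = m is impossible: m ∈ X'); a = p: eb0, a = q: eb1, otherwise ebn. -/
theorem endp (hG : PrimeG G) (h : Ctx G s s' T p q P Q r) {X X' : Set V} (hX : IsPCut G X) (hX' : IsPCut G X')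
    (hXX : X ⊆ X') (hp : p ∈ X) (hq : q ∈ X) (hP : P ∉ X') (hQ : Q ∉ X') {m : V}
    (hm : SwR s s' p q P Q m ∨ SwL s s' p q P Q m) (h1 : m ∉ X) (h2 : m ∈ X') {a b : V} (ha : a ∈ X) (hb : b ∉ X')
    (hab : G.Adj a b) : G.Adj m a ∧ G.Adj m b := by
  rcases hm with hm | hm
  · exact endp_r hG h hX hX' hXX hp hq hP hQ hm h1 h2 ha hb hab
  · exact endp_r hG h.mir hX hX' hXX hq hp hQ hP hm h1 h2 ha hb hab


end Pool.Agent.SOE
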