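import Pool.Agent.SOE.Blocks

/-! Project SOE, module Gath (size 3): making an E-P-cut an interval.
-/

set_option autoImplicit false

open Set

namespace Pool.Agent.SOE

open Pool.Agent.SOC Pool.Agent.SOD Pool.Agent.SOS Pool.Agent.SOP Pool.Agent.SOW Pool.Agent.RUP

variable {V : Type} [DecidableEq V] {G : SimpleGraph V} {s s' : List V}

/-- a rotation which starts in X and ends outside of X; it keeps sep -/
theorem gath_rot (hs : IsEnum s) {X : Set V} (hn : Nontriv X) :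
    ∃ s₁, IsEnum s₁ ∧ (∀ a b c d, a ≠ c → a ≠ d → b ≠ c → b ≠ d → sep (ordFn s₁) a b c d = sep (ordFn s) a b c d) ∧
      (∀ x, s₁.head? = some x → x ∈ X) ∧ ∀ x, s₁.getLast? = some x → x ∉ X := by
  classical
  obtain ⟨⟨x₀, hx₀, _⟩, v, hv, _⟩ := hn
  obtain ⟨u, t, hut⟩ := List.append_of_mem (hs.2 v)
  subst hut
  have r1 : IsEnum ((v :: t) ++ u) := isEnum_rot hs
  have r3 : ∀ a b c d, a ≠ c → a ≠ d → b ≠ c → b ≠ d →
      sep (ordFn ((v :: t) ++ u)) a b c d = sep (ordFn (u ++ v :: t)) a b c d :=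
    fun a b c d h1 h2 h3 h4 => sep_rot hs h1 h2 h3 h4
  obtain ⟨r, hr⟩ : ∃ r, r = (v :: t) ++ u := ⟨_, rfl⟩
  rw [← hr] at r1 r3
  obtain ⟨p, hp⟩ : ∃ p, p = r.takeWhile (fun z => decide (z ∉ X)) := ⟨_, rfl⟩
  obtain ⟨q, hq⟩ : ∃ q, q = r.dropWhile (fun z => decide (z ∉ X)) := ⟨_, rfl⟩
  have hrpq : r = p ++ q := by
    rw [hp, hq]
    exact List.takeWhile_append_dropWhile.symm
  have hpX : ∀ z ∈ p, z ∉ X := by
    intro z hz
    rw [hp] at hz
    have h1 := List.mem_takeWhile_imp (p := fun z => decide (z ∉ X)) hz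
    exact of_decide_eq_true h1
  have hqne : q ≠ [] := by
    intro e
    rw [e, List.append_nil] at hrpq
    exact hpX x₀ (hrpq ▸ r1.2 x₀) hx₀
  have hpne : p ≠ [] := by
    rw [hp, hr, List.cons_append, List.takeWhile_cons_of_pos (p := fun z => decide (z ∉ X)) (decide_eq_true hv)]
    exact List.cons_ne_nil _ _
  have r1' : IsEnum (p ++ q) := hrpq ▸ r1
  refine ⟨q ++ p, isEnum_rot r1', ?_, ?_, ?_⟩
  · intro a b c d h1 h2 h3 h4
    rw [sep_rot r1' h1 h2 h3 h4, ← hrpq]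
    exact r3 a b c d h1 h2 h3 h4
  · intro x hx
    have h1 := List.head_dropWhile_not (fun z => decide (z ∉ X)) (l := r) (by
      rw [← hq]
      exact hqne)
    simp only [← hq] at h1
    have h2 : (q ++ p).head? = some (q.head hqne) := by
      rw [List.head?_append, List.head?_eq_some_head hqne, Option.some_or]
    rw [h2, Option.some.injEq] at hx
    rw [hx] at h1
    by_contra hcon
    exact absurd h1 (by rw [decide_eq_true hcon]; decide)
  · intro x hx
    have h2 : (q ++ p).getLast? = some (p.getLast hpne) := by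
      rw [List.getLast?_append, List.getLast?_eq_some_getLast hpne, Option.some_or]
    rw [h2, Option.some.injEq] at hx
    rw [← hx]
    exact hpX _ (List.getLast_mem hpne)

/-- PROOF. Rotation: let s = u ++ v; s₁ := v ++ u; sep_rot: sep (ordFn s₁) = sep (ordFn s) for four points with a ≠ c, a ≠ d, b ≠ c, b ≠ d; hence Cross, Blk and CI are the same for s and s₁ (cross_iff_sep), and EWO G s₁. As in SOP.gather_rot (same proof: first v₀ ∉ X, then
takeWhile) there is a rotation s₁ of s which starts in X and ends outside of X (state this as a lemma with the rotation s = u ++ v, s₁ = v ++ u, twice if necessary). Then s' := gatherL s₁ X: gather (WO, CI s' X, the intervals Y), gather_l_sep and gather_l_sep' (sep is preserved if Blk s₁ X a b or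
Blk s₁ X c d), blk_pair for the pairs of W4 (they do not cross in s', not_cross_iff). -/
theorem gath [Finite V] (hG : PrimeG G) (hc : CFree G) (hs : EWO G s) {X : Set V} (hX : EPC G X) (hn : Nontriv X) :
    ∃ s₂, EWO G s₂ ∧ CI s₂ X ∧ (∀ Y, CI s Y → ¬ Crossing X Y → CI s₂ Y) ∧
      ∀ a b c d, a ≠ c → a ≠ d → b ≠ c → b ≠ d → (Blk s X a b ∨ Blk s X c d) →
        sep (ordFn s₂) a b c d = sep (ordFn s) a b c d := by
  have hE := hs.enum
  obtain ⟨s₁, g1, g2, g3, g4⟩ := gath_rot hE hn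
  have hwo : IsWO G s₁ := by
    rw [isWO_iff g1]
    intro a b c d hr
    rw [g2 a b c d hr.ac hr.ad hr.bc hr.bd]
    exact (isWO_iff hE).1 hs.wo a b c d hr
  have hblk : ∀ {x z : V}, Blk s X x z → Blk s₁ X x z := by
    intro x z h
    refine ⟨h.1, fun y y' h1 h2 => ?_⟩
    have h1' : (y ∈ X ↔ z ∉ X) := by rw [← h.1]; exact h1
    have h2' : (y' ∈ X ↔ z ∉ X) := by rw [← h.1]; exact h2
    rw [not_cross_iff g1 (strong_ne h1) (strong_ne h2) (strong_ne h1') (strong_ne h2'),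
      g2 _ _ _ _ (strong_ne h1) (strong_ne h2) (strong_ne h1') (strong_ne h2'),
      ← not_cross_iff hE (strong_ne h1) (strong_ne h2) (strong_ne h1') (strong_ne h2')]
    exact h.2 y y' h1 h2
  have hci : ∀ Y, CI s Y → CI s₁ Y := by
    intro Y hY x hx x' hx' y hy y' hy'
    rw [g2 x x' y y' (gather_ne hx hy) (gather_ne hx hy') (gather_ne hx' hy) (gather_ne hx' hy')]
    exact hY x hx x' hx' y hy y' hy'
  have hga := gather hG g1 hwo hX.cut hn g3 g4
  change IsEnum (gatherL s₁ X) ∧ IsWO G (gatherL s₁ X) ∧ CI (gatherL s₁ X) X ∧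
    ∀ Y, CI s₁ Y → ¬ Crossing X Y → CI (gatherL s₁ X) Y at hga
  obtain ⟨k1, k2, k3, k4⟩ := hga
  have hsep : ∀ a b c d, a ≠ c → a ≠ d → b ≠ c → b ≠ d → (Blk s X a b ∨ Blk s X c d) →
      sep (ordFn (gatherL s₁ X)) a b c d = sep (ordFn s) a b c d := by
    intro a b c d h1 h2 h3 h4 h5
    rw [← g2 a b c d h1 h2 h3 h4]
    rcases h5 with h5 | h5
    · exact gather_l_sep g1 g3 g4 (hblk h5) h1 h2 h3 h4
    · exact gather_l_sep' g1 g3 g4 (hblk h5) h1 h2 h3 h4
  refine ⟨gatherL s₁ X, ⟨k1, k2, ?_⟩, k3, fun Y hY hcr => k4 Y (hci Y hY) hcr, hsep⟩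
  intro p p' q q' r hw
  rw [not_cross_iff k1 hw.pq.ne hw.pq'.ne hw.p'q.ne hw.p'q'.ne,
    hsep p p' q q' hw.pq.ne hw.pq'.ne hw.p'q.ne hw.p'q'.ne (blk_pair hG hc hs hX (Or.inr ⟨r, hw⟩)),
    ← not_cross_iff hE hw.pq.ne hw.pq'.ne hw.p'q.ne hw.p'q'.ne]
  exact hs.w4 hw


end Pool.Agent.SOE
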