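import Pool.Agent.SOE.Defs

/-! Project SOE, module NoW4b: the theorems of SOW with the weaker assumption `HFree`. -/

set_option autoImplicit false

open Set

namespace Pool.Agent.SOE

open Pool.Agent.SOC Pool.Agent.SOS Pool.Agent.SOW

section
variable {V ι : Type} {w : ι → V → V → ZMod 2} {G : SimpleGraph V} {π : V → Set V}

theorem star_false2 (hG : PrimeG G) (hF : Fam G w) (hfree : HFree G w) (hπ : PP w π) {c : Set V}
    (hs : Star G w π c) : False := by
  obtain ⟨p, p', hch⟩ := ch_exists hs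
  obtain ⟨t, s, u, ht, hs', hu, hts, htu, hsu⟩ := three_leaves hπ c
  have hy : π (p' (π t)) ≠ c := by
    rw [hch.hp' t ht]
    exact ht
  obtain ⟨π', hπ', hsep, hout, hinn⟩ := twin_exists hF.sk hπ hs hch hy
  have h0 : Tw0 G w π π' c (π' (p' (π t))) p p' := ⟨hπ, hs, hch, hπ', hsep, hout, hinn⟩
  have hH : Hub G π := hub_of_pp hG.1.preconnected hF.sol hπ
  have hH' : Hub G π' := hub_of_pp hG.1.preconnected hF.sol hπ'
  have hd1 := hs.diff _ _ _ _ (hch.rr t ht) (hch.rr s hs') (hch.hp t ht) (hch.hp s hs') (by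
    rw [hch.hp' t ht, hch.hp' s hs']
    exact hts)
  have hd2 := hs.diff _ _ _ _ (hch.rr u hu) (hch.rr t ht) (hch.hp u hu) (hch.hp t ht) (by
    rw [hch.hp' u hu, hch.hp' t ht]
    exact fun e => htu e.symm)
  have hd3 := hs.diff _ _ _ _ (hch.rr u hu) (hch.rr s hs') (hch.hp u hu) (hch.hp s hs') (by
    rw [hch.hp' u hu, hch.hp' s hs']
    exact fun e => hsu e.symm)
  have hw4 : W4 G (p (π t)) (p' (π t)) (p (π s)) (p' (π s)) (p (π u)) :=
    ⟨(hch.rr t ht).2.2.2, (hch.rr s hs').2.2.2, fun e => (hch.rr t ht).2.2.1 (by rw [e]), fun e => (hch.rr s hs').2.2.1 (by rw [e]),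
      hd1.1, hd1.2.2.1, hd1.2.2.2.1.symm, hd1.2.1, hd2.1, hd2.2.2.1, hd3.1, hd3.2.2.1⟩
  have hn1 : π' (p (π t)) ≠ π' (p' (π t)) := hout t ht
  have hn2 : π' (p (π s)) ≠ π' (p' (π s)) := by
    rw [hinn (p' (π s)) (by
      rw [hch.hp' s hs']
      exact hs')]
    exact hout s hs'
  have hc' : LC G π' := link_conn hG (hfree π' hπ' _ _ _ _ _ hw4 hn1 hn2)
  have hlet : ∀ x y, π x ≠ c → π y ≠ c → π x ≠ π y → ¬ Lt G π' (p (π x)) (p (π y)) := by
    intro x y hx hy' hxy hl
    have hrx := tw0_rr h0 hx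
    have hin : π' (p' (π x)) = π' (p' (π t)) := hinn _ (by
      rw [hch.hp' x hx]
      exact hx)
    have hw := wide_rr hH' hl hrx.lt (hsep x y hx hy' hxy) (by
      rw [hin]
      exact fun e => hout x hx e.symm) (by
      rw [hin]
      exact fun e => hout y hy' e.symm)
    refine hw.2.2.2 (hs.diff _ _ _ _ (hch.rr x hx) (hch.rr y hy') (hch.hp x hx) (hch.hp y hy') ?_).1
    rw [hch.hp' x hx, hch.hp' y hy']
    exact hxy
  have hE' : ND G w π' := nd_of_three hF hH' (tw0_rr h0 ht) (tw0_rr h0 hs') (tw0_rr h0 hu).1 (hlet t s ht hs' hts)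
    (hlet t u ht hu htu) (hlet s u hs' hu hsu)
  exact tw_false hG hF.sk hH hH' (tw_of_tw0 hF.sk h0 hH' hc' hE')

/-- PROOF. hH := hub_of_pp, hc := link_conn. p is attached: its neighbours q, q' are in different parts, one of them not in the part of p. The same for p', q, q' and r (neighbours p, p'). RR p p', RR q q'. (A) If there are a a', b b' with RR a a', RR b b', ¬ Lt a b, and an attached c with ¬ Lt a c, ¬ Lt b c: nd_of_three, star_exists, star_false. So suppose not (A).
Case ¬ Lt p q: every attached u is in the letter of p or of q. r is attached: if Lt p r: part_of_adj gives hpart, two_letters for p p' r, l = q. If Lt q r: the same with the roles of p p' and q q' exchanged (W4 is symmetric). Case Lt p q: part_of_adj with r := q (q ~ p, q ~ p'): hpart. There is a vertex v with π v ∉ {π p, π p'} (PP.four); lc_link: RR a b, π a = π v; ¬ Lt p a (hpart).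
Every attached u is in the letter of p or of a (not (A)). two_letters for p p' with r := q, l := a. -/
theorem no_w42 (hG : PrimeG G) (hF : Fam G w) (hfree : HFree G w) (hπ : PP w π) {p p' q q' r : V}
    (h : W4 G p p' q q' r) (h1 : π p ≠ π p') (h2 : π q ≠ π q') : False := by
  have hH : Hub G π := hub_of_pp hG.1.preconnected hF.sol hπ
  have hc : LC G π := link_conn hG (hfree π hπ _ _ _ _ _ h h1 h2)
  have hatt : ∀ v x y, G.Adj v x → G.Adj v y → π x ≠ π y → Att G π v := by
    intro v x y hx hy hxy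
    by_cases he : π x = π v
    · exact ⟨y, hy, fun e => hxy (he.trans e.symm)⟩
    · exact ⟨x, hx, he⟩
  have ap := hatt p q q' h.pq h.pq' h2
  have ap' := hatt p' q q' h.p'q h.p'q' h2
  have aq := hatt q p p' h.pq.symm h.p'q.symm h1
  have aq' := hatt q' p p' h.pq'.symm h.p'q'.symm h1
  have ar := hatt r p p' h.rp h.rp' h1
  have hp : RR G π p p' := ⟨ap, ap', h1, h.n1⟩
  have hq : RR G π q q' := ⟨aq, aq', h2, h.n2⟩
  have hA : ∀ {a a' b b' x : V}, RR G π a a' → RR G π b b' → Att G π x → ¬ Lt G π a b → ¬ Lt G π a x → ¬ Lt G π b x →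
      False := by
    intro a a' b b' x ha hb hx n1 n2 n3
    have hE := nd_of_three hF hH ha hb hx n1 n2 n3
    obtain ⟨c, hs⟩ := star_exists hF.sk hπ hH hc hE ha hb n1
    exact star_false2 hG hF hfree hπ hs
  by_cases hpq : Lt G π p q
  · have hpart : ∀ u, Lt G π p u → π u = π p ∨ π u = π p' := fun u hu =>
      part_of_adj hH hp hpq h.pq.symm h.p'q.symm hu
    obtain ⟨v, hv, hv'⟩ : ∃ v, π v ≠ π p ∧ π v ≠ π p' := by
      by_contra hcon
      push Not at hcon
      obtain ⟨a, b, c, d, k1, k2, k3, k4, k5, k6⟩ := hπ.four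
      have hd : ∀ v, π v = π p ∨ π v = π p' := fun v => by
        by_cases hv : π v = π p
        · exact Or.inl hv
        · exact Or.inr (hcon v hv)
      rcases hd a with ea | ea <;> rcases hd b with eb | eb <;> rcases hd c with ec | ec
      · exact k1 (ea.trans eb.symm)
      · exact k1 (ea.trans eb.symm)
      · exact k2 (ea.trans ec.symm)
      · exact k4 (eb.trans ec.symm)
      · exact k4 (eb.trans ec.symm)
      · exact k2 (ea.trans ec.symm)
      · exact k1 (ea.trans eb.symm)
      · exact k1 (ea.trans eb.symm)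
    obtain ⟨a, b, hab, hrr⟩ := lc_link hc hv
    have hna : ¬ Lt G π p a := by
      intro hl
      rcases hpart a hl with e | e
      · exact hv (hab.symm.trans e)
      · exact hv' (hab.symm.trans e)
    refine two_letters hF hπ hH hc hp aq h.pq.symm h.p'q.symm hpq hrr.1 hna ?_ hpart
    intro u hu
    by_contra hcon
    push Not at hcon
    exact hA hp hrr hu hna hcon.1 hcon.2
  · have hall : ∀ u, Att G π u → Lt G π p u ∨ Lt G π q u := by
      intro u hu
      by_contra hcon
      push Not at hcon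
      exact hA hp hq hu hpq hcon.1 hcon.2
    rcases hall r ar with hr | hr
    · exact two_letters hF hπ hH hc hp ar h.rp h.rp' hr aq hpq hall (fun u hu => part_of_adj hH hp hr h.rp h.rp' hu)
    · exact two_letters hF hπ hH hc hq ar h.rq h.rq' hr ap (fun e => hpq e.symm) (fun u hu => (hall u hu).symm)
        (fun u hu => part_of_adj hH hq hr h.rq h.rq' hu)

end

section
variable {V : Type} {G : SimpleGraph V} {w : V → V → ZMod 2}

theorem aplus2 (hG : PrimeG G) (hw : Skew 1 w) (hs : IsSol G w) (h4 : ∀ p p' q q' r, W4 G p p' q q' r → sep w p p' q q' = 0)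
    (hfree : HFree G (fun _ : Unit => w)) {p p' q q' r : V} (h : W4 G p p' q q' r) :
    ∃ X, p ∈ X ∧ p' ∈ X ∧ q ∉ X ∧ q' ∉ X ∧ IsSplit w X := by
  by_contra hno
  obtain ⟨π, hπ, k1, k2⟩ := lem_t hw h.d1 h.d2 h.pq.ne h.pq'.ne h.p'q.ne h.p'q'.ne (h4 _ _ _ _ _ h) hno
  exact no_w42 (w := fun _ : Unit => w) hG ⟨fun _ => ⟨1, hw⟩, fun _ => hs, fun hh _ => h4 _ _ _ _ _ hh⟩ hfree hπ h k1 k2

end

end Pool.Agent.SOE
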