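import Pool.Agent.SOE.Blocks

/-! Project SOE, module StrI (size 2): strong E-P-cuts are intervals of every E-WO order.
-/

set_option autoImplicit false

open Set

namespace Pool.Agent.SOE

open Pool.Agent.SOC Pool.Agent.SOD Pool.Agent.SOS Pool.Agent.SOP Pool.Agent.SOW Pool.Agent.RUP

variable {V : Type} [DecidableEq V] {G : SimpleGraph V} {s s' : List V}

/-- PROOF: the proof of SOP.strong_ci with epc_blocks in place of pcut_blocks. -/
theorem stre_ci [Finite V] (hG : PrimeG G) (hc : CFree G) (hs : EWO G s) {X : Set V} (hX : StrE G X) : CI s X := by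
  have hE := hs.enum
  intro x hx x' hx' y hy y' hy'
  have ne : ∀ p q, p ∈ X → q ∉ X → p ≠ q := fun p q hp hq e => hq (e ▸ hp)
  by_contra hcon
  have h1 : sep (ordFn s) x x' y y' = 1 := (zmod2_cases _).resolve_left hcon
  have hcr : Cross s x x' y y' :=
    (cross_iff_sep hE (ne x y hx hy) (ne x y' hx hy') (ne x' y hx' hy) (ne x' y' hx' hy')).2 h1
  have hU := epc_blocks hG hc hs hX.epc hX.nt (U := {z | Blk s X x z ∨ Blk s X y z}) (by
    intro p q hpq hp
    rcases hp with hp | hp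
    · exact Or.inl (blk_trans hE hp hpq)
    · exact Or.inr (blk_trans hE hp hpq))
  refine hX.st _ hU ⟨⟨x, hx, Or.inl (blk_refl hE x)⟩, ⟨x', hx', ?_⟩, ⟨y, hy, Or.inr (blk_refl hE y)⟩, ⟨y', hy', ?_⟩⟩
  · rintro (h | h)
    · exact h.2 y y' ⟨fun h => absurd h hy, fun h => absurd hx h⟩ ⟨fun h => absurd h hy', fun h => absurd hx h⟩ hcr
    · exact hy (h.1.2 hx')
  · rintro (h | h)
    · exact hy' (h.1.1 hx)
    · refine h.2 x x' ⟨fun _ => hy, fun _ => hx⟩ ⟨fun _ => hy, fun _ => hx'⟩ ?_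
      exact (cross_comm hE (ne x y hx hy) (ne x y' hx hy') (ne x' y hx' hy) (ne x' y' hx' hy')).1 hcr


end Pool.Agent.SOE
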