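import Pool.Agent.SOE.Bip
import Pool.Agent.SOE.Corn
import Pool.Agent.SOE.StrI

/-! Project SOE, module NodeC (size 4): a node with one E-P-cut which is a union of parts is complete.
-/

set_option autoImplicit false

open Set

namespace Pool.Agent.SOE

open Pool.Agent.SOC Pool.Agent.SOD Pool.Agent.SOS Pool.Agent.SOP Pool.Agent.SOW Pool.Agent.RUP

variable {V : Type} [DecidableEq V] {G : SimpleGraph V} {s s' : List V}

/-- PROOF. If P := {u | π u = π v} is not a single vertex it is a strong E-P-cut (hπ.part). X does not cross it. X is not inside P (it contains points of two parts), P ∪ X is not everything (Xᶜ contains points of two parts). So P ⊆ X or P ∩ X = ∅. -/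
theorem node_union {π : V → Set V} (hπ : Node G π) {X : Set V} (hX : EPC G X) (h2 : ∃ a b, a ∈ X ∧ b ∈ X ∧ π a ≠ π b)
    (h2' : ∃ a b, a ∉ X ∧ b ∉ X ∧ π a ≠ π b) {u v : V} (huv : π u = π v) (hu : u ∈ X) : v ∈ X := by
  rcases hπ.part v with h | h
  · rw [← h u huv]; exact hu
  · by_contra hv
    refine h.st X hX ⟨⟨u, huv, hu⟩, ⟨v, rfl, hv⟩, ?_, ?_⟩
    · obtain ⟨a, b, ha, hb, hab⟩ := h2
      by_cases h1 : π a = π v
      · exact ⟨b, fun (e : π b = π v) => hab (h1.trans e.symm), hb⟩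
      · exact ⟨a, h1, ha⟩
    · obtain ⟨a, b, ha, hb, hab⟩ := h2'
      by_cases h1 : π a = π v
      · exact ⟨b, fun (e : π b = π v) => hab (h1.trans e.symm), hb⟩
      · exact ⟨a, h1, ha⟩

omit [DecidableEq V] in
theorem nodeC_empty : EPC G (∅ : Set V) := ⟨fun _ hx => (hx : False).elim, fun _ hs => hs.1 (by simp)⟩

omit [DecidableEq V] in
theorem nodeC_single {X : Set V} {w : V} (hX : ∀ u ∈ X, u = w) : EPC G X := by
  refine ⟨fun x hx x' hx' y _ y' _ hr => hr.ac ((hX x hx).trans (hX x' hx').symm), ?_⟩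
  intro p p' q q' r hw hs
  have key : ∀ a b : V, ¬ (a ∈ X ↔ b ∈ X) → a ∈ X ∨ b ∈ X := by
    intro a b h
    by_contra hc
    push Not at hc
    exact h ⟨fun k => (hc.1 k).elim, fun k => (hc.2 k).elim⟩
  rcases key _ _ hs.1 with h1 | h1 <;> rcases key _ _ hs.2 with h3 | h3
  · exact hw.pq.ne ((hX _ h1).trans (hX _ h3).symm)
  · exact hw.pq'.ne ((hX _ h1).trans (hX _ h3).symm)
  · exact hw.p'q.ne ((hX _ h1).trans (hX _ h3).symm)
  · exact hw.p'q'.ne ((hX _ h1).trans (hX _ h3).symm)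

theorem node_complete [Finite V] (hG : PrimeG G) (hc : CFree G) (hs : EWO G s) {π : V → Set V} (hπ : Node G π) {X : Set V}
    (hX : EPC G X) (h2 : ∃ a b, a ∈ X ∧ b ∈ X ∧ π a ≠ π b) (h2' : ∃ a b, a ∉ X ∧ b ∉ X ∧ π a ≠ π b) :
    ∀ J : Set (Set V), EPC G {v | π v ∈ J} := by
  have hfin : Finite (Set.range π) := (Set.finite_range π).to_subtype
  let pr : V → Set.range π := fun v => ⟨π v, v, rfl⟩
  have hpr : ∀ {a b : V}, pr a = pr b ↔ π a = π b := fun {a b} => ⟨fun h => congrArg Subtype.val h, fun h => Subtype.ext h⟩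
  let E : Set (Set (Set.range π)) := {S | EPC G {v | pr v ∈ S}}
  have hsurj : ∀ κ : Set.range π, ∃ v, pr v = κ := by
    rintro ⟨κ, v, hv⟩
    exact ⟨v, Subtype.ext hv⟩
  have hcross : ∀ {S S' : Set (Set.range π)}, Crossing S S' → Crossing {v | pr v ∈ S} {v | pr v ∈ S'} := by
    rintro S S' ⟨⟨a, a1, a2⟩, ⟨b, b1, b2⟩, ⟨c, c1, c2⟩, ⟨d, d1, d2⟩⟩
    obtain ⟨a, rfl⟩ := hsurj a
    obtain ⟨b, rfl⟩ := hsurj b
    obtain ⟨c, rfl⟩ := hsurj c
    obtain ⟨d, rfl⟩ := hsurj d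
    exact ⟨⟨a, a1, a2⟩, ⟨b, b1, b2⟩, ⟨c, c1, c2⟩, ⟨d, d1, d2⟩⟩
  have hpre : ∀ {Y : Set V}, (∀ u v, π u = π v → u ∈ Y → v ∈ Y) → {v | pr v ∈ {κ | ∃ v ∈ Y, pr v = κ}} = Y := by
    intro Y hY
    ext v
    constructor
    · rintro ⟨u, hu, he⟩
      exact hY u v (hpr.1 he) hu
    · intro hv
      exact ⟨v, hv, rfl⟩
  have hXu : ∀ u v, π u = π v → u ∈ X → v ∈ X := fun u v huv hu => node_union hπ hX h2 h2' huv hu
  have hall : ∀ S, S ∈ E := by
    obtain ⟨a, b, ha, hb, hab⟩ := h2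
    obtain ⟨c, d, hc1, hd1, hcd⟩ := h2'
    refine bip ?_ ?_ ?_ ?_ ?_ ?_ ?_ ?_
    · refine ⟨pr a, pr b, pr c, pr d, fun e => hab (hpr.1 e), fun e => hc1 (hXu _ _ (hpr.1 e) ha), fun e => hd1 (hXu _ _ (hpr.1 e) ha),
        fun e => hc1 (hXu _ _ (hpr.1 e) hb), fun e => hd1 (hXu _ _ (hpr.1 e) hb), fun e => hcd (hpr.1 e)⟩
    · exact nodeC_empty
    · intro κ
      obtain ⟨w, rfl⟩ := hsurj κ
      show EPC G {v | pr v ∈ ({pr w} : Set (Set.range π))}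
      have he : {v | pr v ∈ ({pr w} : Set (Set.range π))} = {v | π v = π w} := by
        ext v
        exact hpr
      rw [he]
      rcases hπ.part w with h | h
      · exact nodeC_single (w := w) (fun u hu => h u hu)
      · exact h.epc
    · intro S hS
      exact EPC.compl (G := G) (X := {v | pr v ∈ S}) hS
    · intro S hS S' hS' hcr
      exact epc_inter hG hc hs (X := {v | pr v ∈ S}) (Y := {v | pr v ∈ S'}) hS hS' (hcross hcr)
    · intro S hS S' hS' hcr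
      exact epc_symm hG hc hs (X := {v | pr v ∈ S}) (Y := {v | pr v ∈ S'}) hS hS' (hcross hcr)
    · intro S hS hnt
      obtain ⟨⟨x, hx, x', hx', hxx⟩, y, hy, y', hy', hyy⟩ := hnt
      obtain ⟨x, rfl⟩ := hsurj x
      obtain ⟨x', rfl⟩ := hsurj x'
      obtain ⟨y, rfl⟩ := hsurj y
      obtain ⟨y', rfl⟩ := hsurj y'
      have hS0 : EPC G {v | pr v ∈ S} := hS
      have hnt : Nontriv {v | pr v ∈ S} := ⟨⟨x, hx, x', hx', fun e => hxx (e ▸ rfl)⟩, y, hy, y', hy', fun e => hyy (e ▸ rfl)⟩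
      have hnot : ¬ StrE G {v | pr v ∈ S} := by
        intro hst
        rcases hπ.max _ hst with ⟨w, hw⟩ | ⟨w, hw⟩
        · exact hxx (hpr.2 ((hw x hx).trans (hw x' hx').symm))
        · exact hyy (hpr.2 ((hw y hy).trans (hw y' hy').symm))
      have hexY : ∃ Y, EPC G Y ∧ Crossing {v | pr v ∈ S} Y := by
        by_contra hcon
        push Not at hcon
        exact hnot ⟨hS0, hnt, hcon⟩
      obtain ⟨Y, hY, hcr⟩ := hexY
      obtain ⟨⟨e, e1, e2⟩, ⟨f, f1, f2⟩, ⟨g, g1, g2⟩, ⟨k, k1, k2⟩⟩ := hcr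
      have hYu : ∀ u v, π u = π v → u ∈ Y → v ∈ Y := fun u v huv hu => node_union hπ hY
        ⟨e, g, e2, g2, fun q => g1 (show pr g ∈ S from (hpr.2 q) ▸ e1)⟩
        ⟨f, k, f2, k2, fun q => k1 (show pr k ∈ S from (hpr.2 q) ▸ f1)⟩ huv hu
      refine ⟨{κ | ∃ v ∈ Y, pr v = κ}, ?_, ?_⟩
      · show EPC G {v | pr v ∈ {κ | ∃ v ∈ Y, pr v = κ}}
        rw [hpre hYu]
        exact hY
      · refine ⟨⟨pr e, e1, e, e2, rfl⟩, ⟨pr f, f1, ?_⟩, ⟨pr g, g1, g, g2, rfl⟩, ⟨pr k, k1, ?_⟩⟩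
        · rintro ⟨u, hu, he⟩
          exact f2 (hYu u f (hpr.1 he) hu)
        · rintro ⟨u, hu, he⟩
          exact k2 (hYu u k (hpr.1 he) hu)
    · refine ⟨{κ | ∃ v ∈ X, pr v = κ}, ?_, ⟨⟨pr a, ⟨a, ha, rfl⟩, pr b, ⟨b, hb, rfl⟩, fun e => hab (hpr.1 e)⟩, pr c, ?_, pr d, ?_, fun e => hcd (hpr.1 e)⟩⟩
      · show EPC G {v | pr v ∈ {κ | ∃ v ∈ X, pr v = κ}}
        rw [hpre hXu]
        exact hX
      · rintro ⟨u, hu, he⟩
        exact hc1 (hXu u c (hpr.1 he) hu)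
      · rintro ⟨u, hu, he⟩
        exact hd1 (hXu u d (hpr.1 he) hu)
  intro J
  exact hall {κ | κ.1 ∈ J}

end Pool.Agent.SOE
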