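import Pool.Agent.SOE.AllE
import Pool.Agent.SOE.Gath

/-! Project SOE, module Uniq (size 4): the uniqueness theorem.
-/

set_option autoImplicit false

open Set

namespace Pool.Agent.SOE

open Pool.Agent.SOC Pool.Agent.SOD Pool.Agent.SOS Pool.Agent.SOP Pool.Agent.SOW Pool.Agent.RUP

variable {V : Type} [DecidableEq V] {G : SimpleGraph V} {s s' : List V} {T : V → V → V → V → Prop} {p q P Q r : V}

/-- PROOF. rep_exists, min_exists: MinL L. RepL.eq for a b c d: sep differ (cross_iff_sep, hne), so the sum is 1, so some X ∈ L has spv X a b c d = 1 (otherwise the sum is 0: List.sum_eq_zero), i.e. Spl; all_epc. -/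
theorem uniq0 [Finite V] (hG : PrimeG G) (hc : CFree G) (hs : IsEnum s) (hT : QT G (Cross s) T) (hs' : EWO G s')
    (hpp : ∀ π : V → Set V, ¬ PP (pairF s s') π) {a b c d : V} (h1 : a ≠ c) (h2 : a ≠ d) (h3 : b ≠ c) (h4 : b ≠ d)
    (hne : ¬ (Cross s a b c d ↔ Cross s' a b c d)) : ∃ X, EPC G X ∧ Spl X a b c d := by
  obtain ⟨L, hM⟩ := min_exists (rep_exists hs hs'.enum hpp)
  by_contra hcon
  push Not at hcon
  have hall := all_epc hG hc hs hT hs' hM
  have hz : (L.map (fun X => spv X a b c d)).sum = 0 := by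
    apply List.sum_eq_zero
    intro x hx
    obtain ⟨X, hX, rfl⟩ := List.mem_map.1 hx
    unfold spv
    rw [if_neg (hcon X (hall X hX))]
  have he := hM.rep.eq a b c d h1 h2 h3 h4
  rw [hz, add_zero] at he
  apply hne
  rw [cross_iff_sep hs h1 h2 h3 h4, cross_iff_sep hs'.enum h1 h2 h3 h4, he]

/-- PROOF. If neither pair is in one block: U := block of b if Blk s X b c; U := block of a if Blk s X a d; otherwise U := {z | Blk s X a z ∨ Blk s X c z}. In each case U is a union of blocks and Spl U a b c d (blk_symm, blk_trans). -/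
theorem blk_or (hs : IsEnum s) {X : Set V} {a b c d : V} (h : ∀ U : Set V, (∀ x z, Blk s X x z → x ∈ U → z ∈ U) → ¬ Spl U a b c d) :
    Blk s X a b ∨ Blk s X c d := by
  by_contra hcon
  push Not at hcon
  obtain ⟨hab, hcd⟩ := hcon
  by_cases hbc : Blk s X b c
  · refine h {z | Blk s X b z} (fun x z hxz hx => blk_trans hs hx hxz) ⟨fun k => ?_, fun k => ?_⟩
    · exact hab (blk_symm hs (k.2 (blk_refl hs b)))
    · exact hcd (blk_trans hs (blk_symm hs hbc) (k.1 hbc))
  · by_cases had : Blk s X a d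
    · refine h {z | Blk s X a z} (fun x z hxz hx => blk_trans hs hx hxz) ⟨fun k => ?_, fun k => ?_⟩
      · exact hab (k.1 (blk_refl hs a))
      · exact hcd (blk_trans hs (blk_symm hs (k.2 had)) had)
    · refine h {z | Blk s X a z ∨ Blk s X c z} (fun x z hxz hx => ?_) ⟨fun k => ?_, fun k => ?_⟩
      · exact hx.imp (fun q => blk_trans hs q hxz) (fun q => blk_trans hs q hxz)
      · rcases k.1 (Or.inl (blk_refl hs a)) with q | q
        · exact hab q
        · exact hbc (blk_symm hs q)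
      · rcases k.1 (Or.inr (blk_refl hs c)) with q | q
        · exact had q
        · exact hcd q

/-- PROOF. Parts of the prime partition π of the pair are intervals of s. -/
theorem adj_parts (hs : IsEnum s) (hs' : IsEnum s') {π : V → Set V} (hπ : PP (pairF s s') π) :
    ∃ a c, π a ≠ π c ∧ CI s {v | π v = π a ∨ π v = π c} ∧ ¬ CI s' {v | π v = π a ∨ π v = π c} := by
  obtain ⟨a0, b0, c0, d0, n1, n2, n3, n4, n5, n6⟩ := hπ.four
  obtain ⟨a, c, ha, hc, hac⟩ := strong_adj (s := s) (Z := {u | π u = π a0}) ⟨a0, rfl⟩ ⟨b0, fun (e : π b0 = π a0) => n1 e.symm⟩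
  have hne : π a ≠ π c := fun e => hc (show π c = π a0 from e.symm.trans ha)
  have hci : CI s {v | π v = π a ∨ π v = π c} := by
    have hrep : ∀ p, p ∈ {v | π v = π a ∨ π v = π c} → ∃ b, (b = a ∨ b = c) ∧ π p = π b := by
      rintro p (hp | hp)
      · exact ⟨a, Or.inl rfl, hp⟩
      · exact ⟨c, Or.inr rfl, hp⟩
    intro p hp q hq z hz z' hz'
    obtain ⟨b, hb, hpb⟩ := hrep p hp
    obtain ⟨b', hb', hqb⟩ := hrep q hq
    have hout : ∀ b, (b = a ∨ b = c) → ∀ z, z ∉ {v | π v = π a ∨ π v = π c} → z ∉ {u | π u = π b} := by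
      rintro b (rfl | rfl) z hz hzb
      · exact hz (Or.inl hzb)
      · exact hz (Or.inr hzb)
    have e1 : sep (ordFn s) p b z z' = 0 := (pairF_cspl.1 (hπ.part b)).1 p hpb b rfl z (hout b hb z hz) z' (hout b hb z' hz')
    have e2 : sep (ordFn s) b' q z z' = 0 := (pairF_cspl.1 (hπ.part b')).1 b' rfl q hqb z (hout b' hb' z hz) z' (hout b' hb' z' hz')
    have nz : ∀ w z, w ∈ {v | π v = π a ∨ π v = π c} → z ∉ {v | π v = π a ∨ π v = π c} → w ≠ z := fun w z hw hz e => hz (e ▸ hw)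
    have haW : a ∈ {v | π v = π a ∨ π v = π c} := Or.inl rfl
    have hcW : c ∈ {v | π v = π a ∨ π v = π c} := Or.inr rfl
    have e0 : sep (ordFn s) a c z z' = 0 := by
      rw [← not_cross_iff hs (nz a z haW hz) (nz a z' haW hz') (nz c z hcW hz) (nz c z' hcW hz')]
      intro h
      exact h ⟨fun h => absurd h (hac z), fun h => absurd h (hac z')⟩
    have e3 : sep (ordFn s) b b' z z' = 0 := by
      rcases hb with rfl | rfl <;> rcases hb' with rfl | rfl
      · exact sep_self_left _ _ _ _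
      · exact e0
      · rw [sep_swap_left]; exact e0
      · exact sep_self_left _ _ _ _
    have e4 := sep_add_left (ordFn s) p b b' z z'
    have e5 := sep_add_left (ordFn s) p b' q z z'
    rw [← e5, ← e4, e1, e3, e2, add_zero, add_zero]
  refine ⟨a, c, hne, hci, fun hci' => ?_⟩
  rcases hπ.prime _ (pairF_cspl.2 ⟨hci, hci'⟩) with ⟨v, hv⟩ | ⟨v, hv⟩
  · exact hne ((hv a (Or.inl rfl)).trans (hv c (Or.inr rfl)).symm)
  · have h : ∀ x, π x = π a ∨ π x = π c ∨ π x = π v := by
      intro x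
      by_cases hx : x ∈ {v | π v = π a ∨ π v = π c}
      · rcases hx with hx | hx
        · exact Or.inl hx
        · exact Or.inr (Or.inl hx)
      · exact Or.inr (Or.inr (hv x hx))
    rcases h a0 with e1 | e1 | e1 <;> rcases h b0 with e2 | e2 | e2 <;> rcases h c0 with e3 | e3 | e3 <;> rcases h d0 with e4 | e4 | e4 <;>
      first
      | exact n1 (e1.trans e2.symm)
      | exact n2 (e1.trans e3.symm)
      | exact n3 (e1.trans e4.symm)
      | exact n4 (e2.trans e3.symm)
      | exact n5 (e2.trans e4.symm)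
      | exact n6 (e3.trans e4.symm)

/-- one step: more common intervals -/
theorem uniq_step [Finite V] (hG : PrimeG G) (hc : CFree G) (hs : IsEnum s) (hT : QT G (Cross s) T) (hs' : EWO G s')
    {a b c d : V} (h1 : a ≠ c) (h2 : a ≠ d) (h3 : b ≠ c) (h4 : b ≠ d)
    (hne : ¬ (Cross s a b c d ↔ Cross s' a b c d)) (hno : ∀ X, EPC G X → ¬ Spl X a b c d) :
    ∃ s₃, EWO G s₃ ∧ sep (ordFn s₃) a b c d = sep (ordFn s') a b c d ∧
      {X | CI s X ∧ CI s' X}.ncard < {X | CI s X ∧ CI s₃ X}.ncard := by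
  by_cases hpp : ∀ π : V → Set V, ¬ PP (pairF s s') π
  · obtain ⟨X, hX, hsp⟩ := uniq0 hG hc hs hT hs' hpp h1 h2 h3 h4 hne
    exact (hno X hX hsp).elim
  push Not at hpp
  obtain ⟨π, hπ⟩ := hpp
  have hse : EWO G s := ewo_of_qt hs hT
  have hFam : Fam G (pairF s s') := pairF_fam hse hs'
  have hHub : Hub G π := hub_of_pp hG.1.preconnected hFam.sol hπ
  have hfree : HFree G (pairF s s') := hfree_of_cfree hG.1.preconnected hFam hc
  have hun : ∀ U : Set V, (∀ u v, π u = π v → u ∈ U → v ∈ U) → EPC G U := by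
    intro U hU
    refine ⟨?_, ?_⟩
    · intro x hx x' hx' y hy y' hy' hr
      rcases hHub _ _ _ _ hr with e | e
      · exact hy (hU x y e hx)
      · exact hy' (hU x' y' e hx')
    · intro p p' q q' r hw hsp
      refine no_w42 hG hFam hfree hπ hw (fun e => ?_) (fun e => ?_)
      · exact hsp.1 ⟨hU _ _ e, hU _ _ e.symm⟩
      · exact hsp.2 ⟨hU _ _ e, hU _ _ e.symm⟩
  obtain ⟨a1, c1, hac, hci, hnci⟩ := adj_parts hs hs'.enum hπ
  obtain ⟨X, hXdef⟩ : ∃ X : Set V, X = {v | π v = π a1 ∨ π v = π c1} := ⟨_, rfl⟩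
  rw [← hXdef] at hci hnci
  have hXm : ∀ v, v ∈ X ↔ π v = π a1 ∨ π v = π c1 := fun v => by rw [hXdef]; rfl
  have hXu : ∀ u v, π u = π v → u ∈ X → v ∈ X := by
    intro u v huv hu
    rw [hXm] at hu ⊢
    exact hu.imp (fun e => huv.symm.trans e) (fun e => huv.symm.trans e)
  have hXE : EPC G X := hun X hXu
  have hXn : Nontriv X := by
    refine ⟨⟨a1, (hXm _).2 (Or.inl rfl), c1, (hXm _).2 (Or.inr rfl), fun e => hac (e ▸ rfl)⟩, ?_⟩
    by_contra hcon
    push Not at hcon
    obtain ⟨a0, b0, c0, d0, n1, n2, n3, n4, n5, n6⟩ := hπ.four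
    have hx : ∀ x ∉ X, ∀ y ∉ X, π x = π y := fun x hx y hy => congrArg π (hcon x hx y hy)
    by_cases k : ∃ v, v ∉ X
    · obtain ⟨v, hv⟩ := k
      have h : ∀ x, π x = π a1 ∨ π x = π c1 ∨ π x = π v := by
        intro x
        by_cases hxX : x ∈ X
        · rcases (hXm x).1 hxX with hx | hx
          · exact Or.inl hx
          · exact Or.inr (Or.inl hx)
        · exact Or.inr (Or.inr (hx x hxX v hv))
      rcases h a0 with e1 | e1 | e1 <;> rcases h b0 with e2 | e2 | e2 <;> rcases h c0 with e3 | e3 | e3 <;> rcases h d0 with e4 | e4 | e4 <;>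
        first
        | exact n1 (e1.trans e2.symm)
        | exact n2 (e1.trans e3.symm)
        | exact n3 (e1.trans e4.symm)
        | exact n4 (e2.trans e3.symm)
        | exact n5 (e2.trans e4.symm)
        | exact n6 (e3.trans e4.symm)
    · push Not at k
      rcases (hXm _).1 (k a0) with e1 | e1 <;> rcases (hXm _).1 (k b0) with e2 | e2 <;> rcases (hXm _).1 (k c0) with e3 | e3 <;>
        first
        | exact n1 (e1.trans e2.symm)
        | exact n2 (e1.trans e3.symm)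
        | exact n4 (e2.trans e3.symm)
  obtain ⟨s₃, hs3, hci3, hY3, hsep3⟩ := gath hG hc hs' hXE hXn
  refine ⟨s₃, hs3, ?_, ?_⟩
  · exact hsep3 a b c d h1 h2 h3 h4 (blk_or hs'.enum (fun U hU => hno U (epc_blocks hG hc hs' hXE hXn hU)))
  · refine Set.ncard_lt_ncard ⟨?_, fun hsub => ?_⟩ (Set.toFinite _)
    · rintro Y ⟨hY, hY'⟩
      refine ⟨hY, hY3 Y hY' ?_⟩
      rintro ⟨⟨p1, a1, b1⟩, ⟨p2, a2, b2⟩, ⟨p3, a3, b3⟩, ⟨p4, a4, b4⟩⟩
      rcases hπ.prime Y (pairF_cspl.2 ⟨hY, hY'⟩) with ⟨v, hv⟩ | ⟨v, hv⟩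
      · exact a3 (hXu p1 p3 ((hv p1 b1).trans (hv p3 b3).symm) a1)
      · exact a4 (hXu p2 p4 ((hv p2 b2).trans (hv p4 b4).symm) a2)
    · exact hnci (hsub ⟨hci, hci3⟩).2

theorem uniq [Finite V] (hG : PrimeG G) (hc : CFree G) (hs : IsEnum s) (hT : QT G (Cross s) T) (hs' : EWO G s')
    {a b c d : V} (h1 : a ≠ c) (h2 : a ≠ d) (h3 : b ≠ c) (h4 : b ≠ d)
    (hne : ¬ (Cross s a b c d ↔ Cross s' a b c d)) : ∃ X, EPC G X ∧ Spl X a b c d := by
  by_contra hcon
  push Not at hcon
  have key : ∀ n, ∀ s'', EWO G s'' → sep (ordFn s'') a b c d = sep (ordFn s') a b c d →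
      Nat.card (Set V) < {X | CI s X ∧ CI s'' X}.ncard + n → False := by
    intro n
    induction n with
    | zero =>
      intro s'' _ _ hlt
      have hle := Set.ncard_le_card {X : Set V | CI s X ∧ CI s'' X}
      omega
    | succ n ih =>
      intro s'' hs'' he hlt
      have hne' : ¬ (Cross s a b c d ↔ Cross s'' a b c d) := by
        rw [cross_iff_sep hs h1 h2 h3 h4, cross_iff_sep hs''.enum h1 h2 h3 h4, he]
        rw [cross_iff_sep hs h1 h2 h3 h4, cross_iff_sep hs'.enum h1 h2 h3 h4] at hne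
        exact hne
      obtain ⟨s₃, hs3, he3, hlt3⟩ := uniq_step hG hc hs hT hs'' h1 h2 h3 h4 hne' hcon
      exact ih s₃ hs3 (he3.trans he) (by omega)
  exact key (Nat.card (Set V) + 1) s' hs' rfl (by omega)

end Pool.Agent.SOE
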