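import Pool.Agent.SOE.DSev
import Pool.Agent.SOE.NodeC
import Pool.Agent.SOE.Uniq

/-! Project SOE, module NodeT (size 3): the main theorem on the nodes with at least seven parts: no union of parts is an E-P-cut, and all SOC orders have the rotation of s₀.
-/

set_option autoImplicit false

open Set

namespace Pool.Agent.SOE

open Pool.Agent.SOC Pool.Agent.SOD Pool.Agent.SOS Pool.Agent.SOP Pool.Agent.SOW Pool.Agent.RUP

variable {V : Type} [DecidableEq V] {G : SimpleGraph V} {π : V → Set V} {s s₀ : List V} {T : V → V → V → V → Prop}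

theorem nodet_spl {V : Type} {π : V → Set V} {a b c d : V} (ab : π a ≠ π b) (cd : π c ≠ π d) :
    ∃ J : Set (Set V), Spl {v | π v ∈ J} a b c d := by
  by_cases bc : π b = π c
  · refine ⟨{π b}, ?_, ?_⟩
    · intro h
      exact ab (h.mpr rfl)
    · intro h
      have h1 : π d = π b := h.mp bc.symm
      exact cd (bc ▸ h1.symm)
  · by_cases ad : π a = π d
    · refine ⟨{π a}, ?_, ?_⟩
      · intro h
        have h1 : π b = π a := h.mp rfl
        exact ab h1.symm
      · intro h
        have h1 : π c = π a := h.mpr ad.symm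
        exact cd (h1.trans ad)
    · refine ⟨{π a, π c}, ?_, ?_⟩
      · intro h
        have h1 : π b = π a ∨ π b = π c := h.mp (Or.inl rfl)
        rcases h1 with h1 | h1
        · exact ab h1.symm
        · exact bc h1
      · intro h
        have h1 : π d = π a ∨ π d = π c := h.mp (Or.inr rfl)
        rcases h1 with h1 | h1
        · exact ad h1.symm
        · exact cd h1.symm

/-- PROOF. Suppose there is such an X. node_complete (with the E-WO order s, ewo_of_qt): all unions are EPCs. Hub G π: for a rigid pair a b, c d with π a ≠ π b, π c ≠ π d take J := {π a, π c} if π b, π d ∉ {π a, π c}, J := {π a} if π d = π a.. (as in blk_or: if π b = π c: J := {π b}; if π a = π d: J := {π a}; otherwise J := {π a, π c}): the union is a P-cut split by a b and c d: contradiction.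
NW: the same for the W4. hci: parts are single vertices or strong (hπ.part, stre_ci). seven_false. -/
theorem node_rigid [Finite V] (hG : PrimeG G) (hc : CFree G) (hs : IsEnum s) (hT : QT G (Cross s) T) (hπ : Node G π)
    {v : Fin 7 → V} (hv : ∀ i j, i ≠ j → π (v i) ≠ π (v j)) {X : Set V} (hX : EPC G X)
    (h2 : ∃ a b, a ∈ X ∧ b ∈ X ∧ π a ≠ π b) (h2' : ∃ a b, a ∉ X ∧ b ∉ X ∧ π a ≠ π b) : False := by
  have hE : EWO G s := ewo_of_qt hs hT
  have hall := node_complete hG hc hE hπ hX h2 h2'
  have hH : Hub G π := by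
    intro a b c d hr
    by_contra hcon
    push Not at hcon
    obtain ⟨J, hJ⟩ := nodet_spl hcon.1 hcon.2
    exact corner_spl (hall J).cut hr hJ
  have hN : NW G π := by
    intro p p' q q' r hw hp
    by_contra hq
    obtain ⟨J, hJ⟩ := nodet_spl hp hq
    exact (hall J).w4 hw hJ
  have hci : ∀ u, CI s {w | π w = π u} := by
    intro u
    rcases hπ.part u with h | h
    · intro x hx x' hx' y hy y' hy'
      rw [h x hx, h x' hx']
      exact sep_self_left _ _ _ _
    · exact stre_ci hG hc hE h
  exact seven_false hG hH hN ⟨hs, hT⟩ hci hv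

/-- PROOF. If not: uniq gives an EPC X with Spl X a b c d: two of the points are in X, two are not, all in different parts: node_rigid. -/
theorem node_rot [Finite V] (hG : PrimeG G) (hc : CFree G) (hs : IsEnum s) (hT : QT G (Cross s) T) (h0 : EWO G s₀) (hπ : Node G π)
    {v : Fin 7 → V} (hv : ∀ i j, i ≠ j → π (v i) ≠ π (v j)) {a b c d : V} (ab : π a ≠ π b) (ac : π a ≠ π c) (ad : π a ≠ π d)
    (bc : π b ≠ π c) (bd : π b ≠ π d) (cd : π c ≠ π d) : Cross s a b c d ↔ Cross s₀ a b c d := by
  by_contra hne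
  have ne : ∀ {x y : V}, π x ≠ π y → x ≠ y := fun h e => h (e ▸ rfl)
  obtain ⟨X, hX, hsp⟩ := uniq hG hc hs hT h0 (ne ac) (ne ad) (ne bc) (ne bd) hne
  obtain ⟨h1, h2⟩ := hsp
  have key : ∀ {x y z w : V}, x ∈ X → y ∈ X → z ∉ X → w ∉ X → π x ≠ π y → π z ≠ π w → False :=
    fun hx hy hz hw h3 h4 => node_rigid hG hc hs hT hπ hv hX ⟨_, _, hx, hy, h3⟩ ⟨_, _, hz, hw, h4⟩
  by_cases ha : a ∈ X <;> by_cases hb : b ∈ X
  · exact h1 ⟨fun _ => hb, fun _ => ha⟩
  · by_cases hc' : c ∈ X <;> by_cases hd : d ∈ X
    · exact h2 ⟨fun _ => hd, fun _ => hc'⟩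
    · exact key ha hc' hb hd ac bd
    · exact key ha hd hb hc' ad bc
    · exact h2 ⟨fun h => absurd h hc', fun h => absurd h hd⟩
  · by_cases hc' : c ∈ X <;> by_cases hd : d ∈ X
    · exact h2 ⟨fun _ => hd, fun _ => hc'⟩
    · exact key hb hc' ha hd bc ad
    · exact key hb hd ha hc' bd ac
    · exact h2 ⟨fun h => absurd h hc', fun h => absurd h hd⟩
  · exact h1 ⟨fun h => absurd h ha, fun h => absurd h hb⟩


end Pool.Agent.SOE
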