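import Pool.Agent.SOE.Defs
import Pool.Agent.SOW.ThmV

/-! Project SOE, module Pair (size 1): the family of two orders.
-/

set_option autoImplicit false

open Set

namespace Pool.Agent.SOE

open Pool.Agent.SOC Pool.Agent.SOD Pool.Agent.SOS Pool.Agent.SOP Pool.Agent.SOW Pool.Agent.RUP

variable {V : Type} [DecidableEq V] {G : SimpleGraph V} {s s' : List V}

/-- PROOF: ordFn_skew. -/
theorem pairF_sk (hs : IsEnum s) (hs' : IsEnum s') : Sk (pairF s s') := by
  intro i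
  cases i
  · exact ⟨1, ordFn_skew hs'⟩
  · exact ⟨1, ordFn_skew hs⟩

/-- PROOF: pairF_sk; isWO_iff; not_cross_iff. -/
theorem pairF_fam (hs : EWO G s) (hs' : EWO G s') : Fam G (pairF s s') := by
  refine ⟨pairF_sk hs.enum hs'.enum, ?_, ?_⟩
  · intro i
    cases i
    · exact (isWO_iff hs'.enum).1 hs'.wo
    · exact (isWO_iff hs.enum).1 hs.wo
  · intro p p' q q' r h i
    cases i
    · exact (not_cross_iff hs'.enum h.pq.ne h.pq'.ne h.p'q.ne h.p'q'.ne).1 (hs'.w4 h)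
    · exact (not_cross_iff hs.enum h.pq.ne h.pq'.ne h.p'q.ne h.p'q'.ne).1 (hs.w4 h)

/-- PROOF: cases on Bool. -/
theorem pairF_cspl {X : Set V} : CSpl (pairF s s') X ↔ CI s X ∧ CI s' X := by
  constructor
  · intro h
    exact ⟨h true, h false⟩
  · rintro ⟨h1, h2⟩ i
    cases i
    · exact h2
    · exact h1

/-- PROOF. Let x, x' ∈ X, y, y' ∉ X with Rigid G x y x' y'. thmV (pairF_fam.sol): a common split U with x, y ∈ U, x', y' ∉ U. Then X and U cross (x, x', y, y'): contradiction to hX.st. -/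
theorem sc_cut (hG : G.Preconnected) (hs : EWO G s) (hs' : EWO G s') {X : Set V} (hX : SC s s' X) : IsPCut G X := by
  intro x hx x' hx' y hy y' hy' hr
  obtain ⟨U, h1, h2, h3, h4, h5⟩ := thmV hG (pairF_fam hs hs').sol hr
  obtain ⟨h6, h7⟩ := pairF_cspl.1 h5
  exact hX.st U h6 h7 ⟨⟨x, hx, h1⟩, ⟨x', hx', h3⟩, ⟨y, hy, h2⟩, ⟨y', hy', h4⟩⟩


end Pool.Agent.SOE
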