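import Pool.Agent.SOE.Endp
import Pool.Agent.SOE.RefC

/-! Project SOE, module PairC (size 4): with two switching vertices one of the intermediate sets is a P-cut.
-/

set_option autoImplicit false

open Set

namespace Pool.Agent.SOE

open Pool.Agent.SOC Pool.Agent.SOD Pool.Agent.SOS Pool.Agent.SOP Pool.Agent.SOW Pool.Agent.RUP

variable {V : Type} [DecidableEq V] {G : SimpleGraph V} {s s' : List V} {T : V → V → V → V → Prop} {p q P Q r : V}

omit [DecidableEq V] in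
theorem pairC_claim {X X' : Set V} {z t : V} (hX : IsPCut G X) (hX' : IsPCut G X') (he : X' = insert z (insert t X))
    (E : ∀ a ∈ X, ∀ b, b ∉ X' → G.Adj a b → G.Adj z a ∧ G.Adj z b ∧ G.Adj t a ∧ G.Adj t b)
    (hn : ¬ IsPCut G (insert z X)) : (∃ y, y ∉ X' ∧ G.Adj z y ∧ ¬ G.Adj t y) ∨ (∃ x ∈ X, G.Adj t x ∧ ¬ G.Adj z x) := by
  have hzX' : z ∈ X' := by rw [he]; exact mem_insert _ _
  have hsub : ∀ c ∈ X, c ∈ X' := fun c hc => by rw [he]; exact mem_insert_of_mem _ (mem_insert_of_mem _ hc)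
  have hcase : ∀ b, b ∉ insert z X → b ∉ X' ∨ b = t := by
    intro b hb
    by_cases h : b ∈ X'
    · right
      rw [he] at h
      rcases h with h | h | h
      · exact (hb (h ▸ mem_insert _ _)).elim
      · exact h
      · exact (hb (mem_insert_of_mem _ h)).elim
    · exact Or.inl h
  have sub : ∀ c ∈ X, ∀ b d, b ∉ insert z X → d ∉ insert z X → Rigid G z b c d →
      (∃ y, y ∉ X' ∧ G.Adj z y ∧ ¬ G.Adj t y) ∨ (∃ x ∈ X, G.Adj t x ∧ ¬ G.Adj z x) := by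
    intro c hc b d hb hd hr
    rcases hcase b hb with hb' | rfl
    · rcases hcase d hd with hd' | rfl
      · exact (hX' z hzX' c (hsub c hc) b hb' d hd' hr).elim
      · by_cases htb : G.Adj d b
        · right
          exact ⟨c, hc, hr.cd.symm, fun k => hr.n1 ⟨k, htb.symm⟩⟩
        · left
          exact ⟨b, hb', hr.ab, htb⟩
    · rcases hcase d hd with hd' | rfl
      · have k := E c hc d hd' hr.cd
        exact (hr.n1 ⟨k.1, k.2.2.2⟩).elim
      · exact (hr.bd rfl).elim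
  unfold IsPCut at hn
  push Not at hn
  obtain ⟨x, hx, x', hx', y, hy, y', hy', hr⟩ := hn
  rcases hx with hx | hx
  · rcases hx' with hx' | hx'
    · exact (hr.ac (hx.trans hx'.symm)).elim
    · subst hx
      exact sub x' hx' y y' hy hy' hr
  · rcases hx' with hx' | hx'
    · subst hx'
      exact sub x hx y' y hy' hy hr.symm
    · exact (hX x hx x' hx' y (fun k => hy (mem_insert_of_mem _ k)) y' (fun k => hy' (mem_insert_of_mem _ k)) hr).elim

/-- PROOF. X' := insert z (insert t X); z ≠ t (cf0), At4 z, At4 t (uniqR, uniqL), z ~ t (cf3); P, Q ∉ X' (CrD). (E) := endp for m = z and for m = t: if a ∈ X, b ∉ X', a ~ b then z ~ a, z ~ b, t ~ a, t ~ b.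
CLAIM 1: if insert z X is not a P-cut then (∃ y ∉ X', z ~ y ∧ ¬ t ~ y) ∨ (∃ x ∈ X, t ~ x ∧ ¬ z ~ x). CLAIM 2: the same with z and t exchanged (Set.insert_comm).
Refutations: (x, x'): prxx, (y, y'): pryy, (y, x): pryx, (x, y): prxy (RefC). The memberships in X and X' are clear. -/
theorem pair_cut (hG : PrimeG G) (h : Ctx G s s' T p q P Q r) {X : Set V} (hX : IsPCut G X) {z t : V}
    (hz : SwR s s' p q P Q z) (ht : SwL s s' p q P Q t) (hX' : IsPCut G (insert z (insert t X)))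
    (hp : p ∈ X) (hq : q ∈ X) (hP : P ∉ X) (hQ : Q ∉ X) (hzX : z ∉ X) (htX : t ∉ X) :
    IsPCut G (insert z X) ∨ IsPCut G (insert t X) := by
  by_contra hcon
  push Not at hcon
  obtain ⟨hn1, hn2⟩ := hcon
  have hbs : Bs G s s' T := ctx_bs h
  obtain ⟨hc, hc'⟩ := ctx_cd h
  have hzt : z ≠ t := fun e => cf0 h hz (e ▸ ht)
  have az : At4 G p q P Q z := (uniqR hG h hz hz).2
  have at4 : At4 G p q P Q t := (uniqL hG h ht ht).2
  have ezt : G.Adj z t := cf3 h hz ht az at4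
  have dpQ := hc.1.1
  have dpq := hc.1.2.1
  have dpP := hc.1.2.2.1
  have dQq := hc.1.2.2.2.1.symm
  have dQP := hc.1.2.2.2.2.1.symm
  have dqP := hc.1.2.2.2.2.2
  have dpz : p ≠ z := az.1.ne.symm
  have dqz : q ≠ z := az.2.1.ne.symm
  have dPz : P ≠ z := az.2.2.1.ne.symm
  have dQz : Q ≠ z := az.2.2.2.ne.symm
  have dpt : p ≠ t := at4.1.ne.symm
  have dqt : q ≠ t := at4.2.1.ne.symm
  have dPt : P ≠ t := at4.2.2.1.ne.symm
  have dQt : Q ≠ t := at4.2.2.2.ne.symm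
  obtain ⟨X', he⟩ : ∃ X' : Set V, X' = insert z (insert t X) := ⟨_, rfl⟩
  rw [← he] at hX'
  have hXX : X ⊆ X' := fun c hc => by rw [he]; exact mem_insert_of_mem _ (mem_insert_of_mem _ hc)
  have zX' : z ∈ X' := by rw [he]; exact mem_insert _ _
  have tX' : t ∈ X' := by rw [he]; exact mem_insert_of_mem _ (mem_insert _ _)
  have hP' : P ∉ X' := by
    rw [he]
    rintro (k | k | k)
    · exact dPz k
    · exact dPt k
    · exact hP k
  have hQ' : Q ∉ X' := by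
    rw [he]
    rintro (k | k | k)
    · exact dQz k
    · exact dQt k
    · exact hQ k
  have E : ∀ a ∈ X, ∀ b, b ∉ X' → G.Adj a b → G.Adj z a ∧ G.Adj z b ∧ G.Adj t a ∧ G.Adj t b := by
    intro a ha b hb hab
    have k1 := endp hG h hX hX' hXX hp hq hP' hQ' (Or.inl hz) hzX zX' ha hb hab
    have k2 := endp hG h hX hX' hXX hp hq hP' hQ' (Or.inr ht) htX tX' ha hb hab
    exact ⟨k1.1, k1.2, k2.1, k2.2⟩
  have c1 := pairC_claim hX hX' he E hn1
  have c2 := pairC_claim hX hX' (he.trans (Set.insert_comm _ _ _)) (fun a ha b hb hab =>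
    let k := E a ha b hb hab; ⟨k.2.2.1, k.2.2.2, k.1, k.2.1⟩) hn2
  -- properties of the witnesses
  have wx : ∀ x ∈ X, (¬ G.Adj z x ∨ ¬ G.Adj t x) → (p ≠ x ∧ q ≠ x ∧ P ≠ x ∧ Q ≠ x ∧ z ≠ x ∧ t ≠ x) ∧ ¬ G.Adj x P ∧ ¬ G.Adj x Q ∧
      ∀ y, y ∉ X' → ¬ G.Adj x y := by
    intro x hx hn
    have hE : ∀ y, y ∉ X' → ¬ G.Adj x y := fun y hy hxy => by
      have k := E x hx y hy hxy
      rcases hn with hn | hn
      · exact hn k.1
      · exact hn k.2.2.1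
    refine ⟨⟨?_, ?_, ?_, ?_, ?_, ?_⟩, hE P hP', hE Q hQ', hE⟩
    · rintro rfl
      exact hn.elim (fun k => k az.1) (fun k => k at4.1)
    · rintro rfl
      exact hn.elim (fun k => k az.2.1) (fun k => k at4.2.1)
    · rintro rfl
      exact hP hx
    · rintro rfl
      exact hQ hx
    · rintro rfl
      exact hzX hx
    · rintro rfl
      exact htX hx
  have wy : ∀ y, y ∉ X' → (¬ G.Adj z y ∨ ¬ G.Adj t y) → (p ≠ y ∧ q ≠ y ∧ P ≠ y ∧ Q ≠ y ∧ z ≠ y ∧ t ≠ y) ∧ ¬ G.Adj y p ∧ ¬ G.Adj y q := by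
    intro y hy hn
    have hE : ∀ x ∈ X, ¬ G.Adj y x := fun x hx hxy => by
      have k := E x hx y hy hxy.symm
      rcases hn with hn | hn
      · exact hn k.2.1
      · exact hn k.2.2.2
    refine ⟨⟨?_, ?_, ?_, ?_, ?_, ?_⟩, hE p hp, hE q hq⟩
    · rintro rfl
      exact hy (hXX hp)
    · rintro rfl
      exact hy (hXX hq)
    · rintro rfl
      exact hn.elim (fun k => k az.2.2.1) (fun k => k at4.2.2.1)
    · rintro rfl
      exact hn.elim (fun k => k az.2.2.2) (fun k => k at4.2.2.2)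
    · rintro rfl
      exact hy zX'
    · rintro rfl
      exact hy tX'
  have nd8 : ∀ u v : V, (p ≠ u ∧ q ≠ u ∧ P ≠ u ∧ Q ≠ u ∧ z ≠ u ∧ t ≠ u) → (p ≠ v ∧ q ≠ v ∧ P ≠ v ∧ Q ≠ v ∧ z ≠ v ∧ t ≠ v) → u ≠ v →
      [p, q, P, Q, z, t, u, v].Nodup := by
    rintro u v ⟨u1, u2, u3, u4, u5, u6⟩ ⟨v1, v2, v3, v4, v5, v6⟩ huv
    simp only [List.nodup_cons, List.mem_cons, List.not_mem_nil, or_false, not_or, List.nodup_nil, and_true, not_false_eq_true]
    exact ⟨⟨dpq, dpP, dpQ, dpz, dpt, u1, v1⟩, ⟨dqP, dQq, dqz, dqt, u2, v2⟩, ⟨dQP, dPz, dPt, u3, v3⟩, ⟨dQz, dQt, u4, v4⟩, ⟨hzt, u5, v5⟩, ⟨u6, v6⟩, huv⟩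
  have nX : ∀ y, y ∉ X' → y ∉ X := fun y hy k => hy (hXX k)
  rcases c1 with ⟨y, hy, y1, y2⟩ | ⟨x, hx, x1, x2⟩
  · have w1 := wy y hy (Or.inr y2)
    rcases c2 with ⟨y', hy', y1', y2'⟩ | ⟨x', hx', x1', x2'⟩
    · have w2 := wy y' hy' (Or.inl y2')
      exact pryy hbs (nd8 y y' w1.1 w2.1 (fun e => y2 (e ▸ y1'))) h.w hc hc' hz ht az at4 ezt y1.symm (fun k => y2 k.symm) w1.2.1 w1.2.2
        y1'.symm (fun k => y2' k.symm) w2.2.1 w2.2.2 hX hX' hp hq hP hQ (nX _ hy) (nX _ hy') hzX htX (hXX hp) (hXX hq) zX' tX' hP' hQ' hy hy'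
    · have w2 := wx x' hx' (Or.inr x2')
      exact pryx hbs (nd8 y x' w1.1 w2.1 (fun e => hy (e ▸ hXX hx'))) h.w hc hc' hz ht az at4 ezt y1.symm (fun k => y2 k.symm) w1.2.1 w1.2.2
        x1'.symm (fun k => x2' k.symm) w2.2.1 w2.2.2.1 (fun k => w2.2.2.2 y hy k.symm) hX hX' hp hq hx' hP hQ (nX _ hy) hzX htX (hXX hp) (hXX hq)
        (hXX hx') zX' tX' hP' hQ' hy
  · have w1 := wx x hx (Or.inl x2)
    rcases c2 with ⟨y', hy', y1', y2'⟩ | ⟨x', hx', x1', x2'⟩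
    · have w2 := wy y' hy' (Or.inl y2')
      exact prxy hbs (nd8 x y' w1.1 w2.1 (fun e => hy' (e ▸ hXX hx))) h.w hc hc' hz ht az at4 ezt x1.symm (fun k => x2 k.symm) w1.2.1 w1.2.2.1
        y1'.symm (fun k => y2' k.symm) w2.2.1 w2.2.2 (w1.2.2.2 y' hy') hX hX' hp hq hx hP hQ (nX _ hy') hzX htX (hXX hp) (hXX hq)
        (hXX hx) zX' tX' hP' hQ' hy'
    · have w2 := wx x' hx' (Or.inr x2')
      exact prxx hbs (nd8 x x' w1.1 w2.1 (fun e => x2 (e ▸ x1'))) h.w hc hc' hz ht az at4 ezt x1.symm (fun k => x2 k.symm) w1.2.1 w1.2.2.1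
        x1'.symm (fun k => x2' k.symm) w2.2.1 w2.2.2.1 hX hX' hp hq hx hx' hP hQ hzX htX (hXX hp) (hXX hq)
        (hXX hx) (hXX hx') zX' tX' hP' hQ'

end Pool.Agent.SOE
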