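import Pool.Agent.SOE.Sep
import Pool.Agent.SOE.Pair
import Pool.Agent.SOP.KStrong

/-! Project SOE, module Rep (size 3): two orders without a common prime partition differ by reversing strong common intervals.
-/

set_option autoImplicit false

open Set

namespace Pool.Agent.SOE

open Pool.Agent.SOC Pool.Agent.SOD Pool.Agent.SOS Pool.Agent.SOP Pool.Agent.SOW Pool.Agent.RUP

variable {V : Type} [DecidableEq V] {G : SimpleGraph V} {s s' : List V}

/-- PROOF. V empty: L := [] (no points). Otherwise fix v. There is a finite family F of nontrivial common intervals, pairwise not crossing, with the maximal number of members (V finite, Set.Finite; or Zorn for subsets of the finite set of all sets): h4 of full_or_pp holds (if Y crosses no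
member and Y ∉ F, then insert Y F is larger; Y does not cross itself). full_or_pp with hpp: Full ⊤ F. w := fun x y => ordFn s x y + ordFn s' x y is Skew 0, and IsSol ⊤ w (there are no rigid pairs in ⊤: a, b, c, d different are pairwise adjacent). kspan_strong for G = ⊤ (preconnected), w, v: L' with members X: v ∉ X, X crosses no split of w.
L := the members of L' which are Nontriv. SC: a common interval U is a split of w (sum), so X does not cross U; in particular X crosses no member of F, so by Full (IsPCut ⊤ X is trivial) X ∈ F or Xᶜ ∈ F, so CI s X, CI s' X (IsSplit.compl). The formula: as in the proof of SOP.diff_cuts (copy it; typec_list is not needed,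
trivial members of L' contribute 0: typec_spv_triv). -/
theorem rep_exists [Finite V] (hs : IsEnum s) (hs' : IsEnum s') (hpp : ∀ π : V → Set V, ¬ PP (pairF s s') π) :
    ∃ L, RepL s s' L := by
  classical
  rcases isEmpty_or_nonempty V with hV | ⟨⟨v⟩⟩
  · exact ⟨[], by simp, fun a => hV.elim a⟩
  -- the maximal family
  obtain ⟨F, -, hF⟩ := (Set.toFinite {F : Set (Set V) | (∀ X ∈ F, CSpl (pairF s s') X) ∧ (∀ X ∈ F, Nontriv X) ∧
    (∀ X ∈ F, ∀ Y ∈ F, ¬ Crossing X Y)}).exists_le_maximal (a := (∅ : Set (Set V)))
    ⟨fun X hX => absurd hX (Set.notMem_empty X), fun X hX => absurd hX (Set.notMem_empty X),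
      fun X hX => absurd hX (Set.notMem_empty X)⟩
  obtain ⟨f1, f2, f3⟩ := hF.prop
  have f4 : ∀ Y, CSpl (pairF s s') Y → Nontriv Y → (∀ X ∈ F, ¬ Crossing X Y) → Y ∈ F ∨ Yᶜ ∈ F := by
    intro Y hY hYn hYc
    left
    refine hF.le_of_ge (y := insert Y F) ⟨?_, ?_, ?_⟩ (Set.subset_insert Y F) (Set.mem_insert Y F)
    · intro X hX
      rcases hX with rfl | hX
      · exact hY
      · exact f1 X hX
    · intro X hX
      rcases hX with rfl | hX
      · exact hYn
      · exact f2 X hX
    · intro X hX Z hZ hc
      rcases hX with rfl | hX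
      · rcases hZ with rfl | hZ
        · obtain ⟨-, ⟨p, hp, hp'⟩, -⟩ := hc
          exact hp' hp
        · exact hYc Z hZ (crossing_comm.1 hc)
      · rcases hZ with rfl | hZ
        · exact hYc X hX hc
        · exact f3 X hX Z hZ hc
  have hfull : Full (⊤ : SimpleGraph V) F := by
    rcases full_or_pp (pairF_sk hs hs') f1 f2 f3 f4 with h | ⟨π, h⟩
    · exact h
    · exact absurd h (hpp π)
  have hnr : ∀ a b c d : V, ¬ Rigid (⊤ : SimpleGraph V) a b c d := by
    intro a b c d h
    exact h.n1 ⟨(SimpleGraph.top_adj a c).2 h.ac, (SimpleGraph.top_adj b d).2 h.bd⟩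
  have hwo : IsWO (⊤ : SimpleGraph V) s := fun a b c d h => absurd h (hnr a b c d)
  have hwo' : IsWO (⊤ : SimpleGraph V) s' := fun a b c d h => absurd h (hnr a b c d)
  have hG : (⊤ : SimpleGraph V).Preconnected := SimpleGraph.preconnected_top
  obtain ⟨w, hwdef⟩ : ∃ w : V → V → ZMod 2, w = fun x y => ordFn s x y + ordFn s' x y := ⟨_, rfl⟩
  obtain ⟨k1, k2⟩ := sum_wo hs hs' hwo hwo'
  rw [← hwdef] at k1 k2
  obtain ⟨L', hL1, hL2⟩ := kspan_strong hG k1 k2 v
  have hspl : ∀ X, CI s X → CI s' X → IsSplit w X := by
    intro X h h' x hx x' hx' y hy y' hy'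
    have e1 := h x hx x' hx' y hy y' hy'
    have e2 := h' x hx x' hx' y hy y' hy'
    rw [hwdef]
    unfold sep at e1 e2 ⊢
    linear_combination e1 + e2
  refine ⟨L'.filter (fun X => Nontriv X), ?_, ?_⟩
  · intro X hX
    obtain ⟨hX1, hX2⟩ := List.mem_filter.1 hX
    have hXn : Nontriv X := of_decide_eq_true hX2
    obtain ⟨-, -, hXs⟩ := hL1 X hX1
    have hcr : ∀ Y ∈ F, ¬ Crossing Y X := fun Y hY hc =>
      hXs Y (hspl Y (pairF_cspl.1 (f1 Y hY)).1 (pairF_cspl.1 (f1 Y hY)).2) (crossing_comm.1 hc)
    have hpc : IsPCut (⊤ : SimpleGraph V) X := fun a _ b _ c _ d _ => hnr _ _ _ _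
    have hci : CI s X ∧ CI s' X := by
      rcases hfull X hpc hXn hcr with h | h
      · exact pairF_cspl.1 (f1 X h)
      · have h1 := pairF_cspl.1 (f1 _ h)
        have h2 : IsSplit (ordFn s) Xᶜᶜ := IsSplit.compl (ordFn_skew hs) h1.1
        have h3 : IsSplit (ordFn s') Xᶜᶜ := IsSplit.compl (ordFn_skew hs') h1.2
        rw [compl_compl] at h2 h3
        exact ⟨h2, h3⟩
    exact ⟨hXn, hci.1, hci.2, fun U hU hU' => hXs U (hspl U hU hU')⟩
  intro a b c d h1 h2 h3 h4
  have hfil : ((L'.filter (fun X => Nontriv X)).map (fun X => spv X a b c d)).sum =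
      (L'.map (fun X => spv X a b c d)).sum := by
    clear hL1 hL2
    induction L' with
    | nil => rfl
    | cons X L' ih =>
      by_cases hn : Nontriv X
      · rw [List.filter_cons_of_pos (by simpa using hn), List.map_cons, List.sum_cons, ih, List.map_cons,
          List.sum_cons]
      · rw [List.filter_cons_of_neg (by simpa using hn), ih, List.map_cons, List.sum_cons,
          typec_spv_triv hn h1 h2 h3 h4, zero_add]
  rw [hfil, ← typec_sep_cutSum]
  -- the difference function
  obtain ⟨g, hg⟩ : ∃ g : V → V → ZMod 2, g = fun x y => nrm w v x y + cutSum L' x y := ⟨_, rfl⟩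
  have hgv : ∀ x y, x ≠ y → g x y = if x = v ∨ y = v then w v v else 0 := by
    intro x y hxy
    rw [hg]
    dsimp only
    by_cases hx : x = v
    · subst hx
      rw [if_pos (Or.inl rfl), typec_cutSum_left (fun X hX => (hL1 X hX).2.1), add_zero]
      unfold nrm
      have := zadd_self (w x y)
      linear_combination this
    · by_cases hy : y = v
      · subst hy
        rw [if_pos (Or.inr rfl), typec_cutSum_right (fun X hX => (hL1 X hX).2.1), add_zero]
        unfold nrm
        have := k1 x y hxy
        linear_combination this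
      · rw [if_neg (fun h => h.elim hx hy), hL2 x y hx hy hxy]
        exact zadd_self _
  have hsg : sep g a b c d = 0 := by
    unfold sep
    rw [hgv a c h1, hgv a d h2, hgv b c h3, hgv b d h4]
    have t := zadd_self (w v v)
    by_cases ha : a = v <;> by_cases hb : b = v <;> by_cases hc : c = v <;> by_cases hd : d = v <;>
      first
      | exact absurd (ha.trans hc.symm) h1
      | exact absurd (ha.trans hd.symm) h2
      | exact absurd (hb.trans hc.symm) h3
      | exact absurd (hb.trans hd.symm) h4
      | (simp only [ha, hb, hc, hd, or_self, or_true, true_or, or_false, false_or, if_true, if_false]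
         linear_combination 2 * t)
      | (simp only [ha, hb, hc, hd, or_self, or_true, true_or, or_false, false_or, if_true, if_false]
         linear_combination t)
      | (simp only [ha, hb, hc, hd, or_self, or_true, true_or, or_false, false_or, if_true, if_false]
         ring)
  have e1 : sep g a b c d = sep (nrm w v) a b c d + sep (cutSum L') a b c d := by
    rw [hg]
    unfold sep
    ring
  rw [hsg, typec_sep_nrm] at e1
  have e2 : sep w a b c d = sep (cutSum L') a b c d := zadd_eq_zero e1.symm
  rw [← e2]
  have e3 : sep w a b c d = sep (ordFn s) a b c d + sep (ordFn s') a b c d := by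
    rw [hwdef]
    unfold sep
    ring
  rw [e3]
  have t := zadd_self (sep (ordFn s) a b c d)
  linear_combination -t

/-- PROOF: Nat.find for the length, or WellFounded.min. -/
theorem min_exists (h : ∃ L, RepL s s' L) : ∃ L, MinL s s' L := by
  classical
  have h' : ∃ n, ∃ L, RepL s s' L ∧ L.length = n := by
    obtain ⟨L, hL⟩ := h
    exact ⟨L.length, L, hL, rfl⟩
  obtain ⟨L, hL, hn⟩ := Nat.find_spec h'
  exact ⟨L, hL, fun L' hL' => hn ▸ Nat.find_min' h' ⟨L', hL', rfl⟩⟩

/-- PROOF. If X occurs twice, L is a permutation of X :: X :: L₁ (List.exists_perm_cons or duplicate lemmas: List.exists_duplicate_iff_not_nodup, List.Duplicate, List.perm_cons_erase); L₁ is RepL (the sum of the two equal terms is 0, List.Perm.sum_eq), shorter. -/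
theorem min_nodup {L : List (Set V)} (h : MinL s s' L) : L.Nodup := by
  classical
  by_contra hd
  obtain ⟨X, hX⟩ := List.exists_duplicate_iff_not_nodup.2 hd
  obtain ⟨L₁, hp⟩ := (List.duplicate_iff_sublist.1 hX).exists_perm_append
  have hlen : L.length = L₁.length + 2 := by
    rw [hp.length_eq]
    simp only [List.cons_append, List.nil_append, List.length_cons]
  have hrep : RepL s s' L₁ := by
    refine ⟨fun Y hY => h.rep.sc Y (hp.mem_iff.2 ?_), fun a b c d h1 h2 h3 h4 => ?_⟩
    · simp only [List.cons_append, List.nil_append, List.mem_cons]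
      exact Or.inr (Or.inr hY)
    · rw [h.rep.eq a b c d h1 h2 h3 h4, (hp.map (fun X => spv X a b c d)).sum_eq]
      simp only [List.cons_append, List.nil_append, List.map_cons, List.sum_cons]
      have t := zadd_self (spv X a b c d)
      linear_combination t
  have := h.min L₁ hrep
  omega

open Classical in
/-- PROOF. Same length, SC.compl, typec_spv_compl (spv Xᶜ = spv X). -/
theorem min_norm (hs : IsEnum s) (hs' : IsEnum s') {L : List (Set V)} (h : MinL s s' L) (P : V) :
    MinL s s' (L.map (fun X => if P ∈ X then Xᶜ else X)) := by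
  refine ⟨⟨?_, ?_⟩, ?_⟩
  · intro X hX
    obtain ⟨Y, hY, rfl⟩ := List.mem_map.1 hX
    split_ifs
    · exact (h.rep.sc Y hY).compl hs hs'
    · exact h.rep.sc Y hY
  · intro a b c d h1 h2 h3 h4
    rw [h.rep.eq a b c d h1 h2 h3 h4, List.map_map]
    congr 2
    apply List.map_congr_left
    intro X _
    dsimp only [Function.comp]
    split_ifs
    · exact (typec_spv_compl X a b c d).symm
    · rfl
  · intro L' hL'
    rw [List.length_map]
    exact h.min L' hL'


end Pool.Agent.SOE
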