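import Pool.Agent.SOE.Defs
import Pool.Agent.RUP.Gen

/-! Project SOE, module Sem: the families of relations for the refutations. -/

set_option autoImplicit false

open Set

namespace Pool.Agent.SOE

open Pool.Agent.SOC Pool.Agent.SOD Pool.Agent.SOS Pool.Agent.SOP Pool.Agent.SOW Pool.Agent.RUP

/-- a SOC order and an E-WO order -/
structure Bs {V : Type} [DecidableEq V] (G : SimpleGraph V) (s s' : List V) (T : V → V → V → V → Prop) : Prop where
  en : IsEnum s
  qt : QT G (Cross s) T
  ew : EWO G s'

/-- a SOC order -/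
structure Bt {V : Type} [DecidableEq V] (G : SimpleGraph V) (s : List V) (T : V → V → V → V → Prop) : Prop where
  en : IsEnum s
  qt : QT G (Cross s) T

section
variable {V : Type} [DecidableEq V] {G : SimpleGraph V} {s s' : List V} {T : V → V → V → V → Prop}

theorem Bs.s0 (h : Bs G s s' T) : Sepr (CrD s) := crD_sepr h.en

theorem Bs.s2 (h : Bs G s s' T) : Sepr (CrD s') := crD_sepr h.ew.enum

theorem Bt.s0 (h : Bt G s T) : Sepr (CrD s) := crD_sepr h.en

/-- quaternary relations: 0 crossing in `s`, 1 quartets of `s`, 2 crossing in `s'` -/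
def fam4 (s s' : List V) (T : V → V → V → V → Prop) : Nat → V → V → V → V → Prop
  | 0 => CrD s
  | 1 => T
  | _ => CrD s'

/-- the relations for two orders -/
def Bs.rel (h : Bs G s s' T) : SRel V where
  r2 _ a b := G.Adj a b
  r3 := fun _ _ _ _ => False
  s3 := fun h => h
  s3' := fun h => h
  r4 := fam4 s s' T
  s2 := fun k => k.symm
  s4 := fun {r a b c d} k => match r, k with
    | 0, k => h.s0.swap k
    | 1, k => h.qt.swap₁ k
    | _ + 2, k => h.s2.swap k
  s4' := fun {r a b c d} k => match r, k with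
    | 0, k => h.s0.comm k
    | 1, k => h.qt.swap₂ k
    | _ + 2, k => h.s2.comm k

/-- the relations for one order -/
def Bt.rel (h : Bt G s T) : SRel V where
  r2 _ a b := G.Adj a b
  r3 := fun _ _ _ _ => False
  s3 := fun h => h
  s3' := fun h => h
  r4 := fam4 s s T
  s2 := fun k => k.symm
  s4 := fun {r a b c d} k => match r, k with
    | 0, k => h.s0.swap k
    | 1, k => h.qt.swap₁ k
    | _ + 2, k => h.s0.swap k
  s4' := fun {r a b c d} k => match r, k with
    | 0, k => h.s0.comm k
    | 1, k => h.qt.swap₂ k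
    | _ + 2, k => h.s0.comm k

/-- distinctness of two points of a list without repetitions -/
theorem ndne {l : List V} (nd : l.Nodup) {o : V} (i j : Nat) (hi : i < l.length) (hj : j < l.length) (hij : i ≠ j) :
    pt l o i ≠ pt l o j := fun e => hij (pt_inj nd rfl i j hi hj e)

theorem ndk {l : List V} (nd : l.Nodup) {o : V} {k : Nat} (hk : l.length = k) (i j : Nat) (hi : i < k) (hj : j < k)
    (hij : i ≠ j) : pt l o i ≠ pt l o j := fun e => hij (pt_inj nd hk i j hi hj e)

end

/-- the alternatives for two edges leaving a P-cut -/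
theorem pcc {V : Type} {G : SimpleGraph V} {X : Set V} (hX : IsPCut G X) {a a' b b' : V} (ha : a ∈ X) (ha' : a' ∈ X)
    (hb : b ∉ X) (hb' : b' ∉ X) (n1 : a ≠ a') (n2 : b ≠ b') (h1 : G.Adj a b) (h2 : G.Adj a' b') :
    (G.Adj a a' ∧ G.Adj b b') ∨ (G.Adj a b' ∧ G.Adj b a') := by
  by_contra hcon
  push Not at hcon
  exact hX a ha a' ha' b hb b' hb' ⟨h1, h2, n1, fun e => hb' (e ▸ ha), fun e => hb (e ▸ ha'), n2,
    fun k => hcon.1 k.1 k.2, fun k => hcon.2 k.1 k.2⟩

end Pool.Agent.SOE
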