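import Pool.Agent.SOE.Defs

/-! Project SOE, module Sep (size 4): a maximal cross-free family of common splits is maximal among all sets, or there is a prime partition.
-/

set_option autoImplicit false

open Set

namespace Pool.Agent.SOE

open Pool.Agent.SOC Pool.Agent.SOD Pool.Agent.SOS Pool.Agent.SOP Pool.Agent.SOW Pool.Agent.RUP

variable {V ι : Type} {w : ι → V → V → ZMod 2}

theorem sep_pick {α : Type} {P Q : α → Prop} {x1 x2 y1 y2 f1 f2 f3 f4 : α} (hx1 : P x1) (hx2 : P x2) (hx : x1 ≠ x2)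
    (hy1 : Q y1) (hy2 : Q y2) (hy : y1 ≠ y2) (h1 : P f1 ∨ Q f1) (h2 : P f2 ∨ Q f2) (h3 : P f3 ∨ Q f3)
    (h4 : P f4 ∨ Q f4) (h12 : f1 ≠ f2) (h13 : f1 ≠ f3) (h14 : f1 ≠ f4) (h23 : f2 ≠ f3) (h24 : f2 ≠ f4) (h34 : f3 ≠ f4) :
    ∃ a b c d, P a ∧ P b ∧ Q c ∧ Q d ∧ a ≠ b ∧ a ≠ c ∧ a ≠ d ∧ b ≠ c ∧ b ≠ d ∧ c ≠ d := by
  classical
  let U : Finset α := {x1, x2, y1, y2, f1, f2, f3, f4}
  let p := U.filter P
  let q := U.filter Q
  have hp : 2 ≤ p.card := by
    have h : ({x1, x2} : Finset α) ⊆ p := by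
      intro z hz
      rw [Finset.mem_insert, Finset.mem_singleton] at hz
      rcases hz with rfl | rfl
      · exact Finset.mem_filter.2 ⟨by simp [U], hx1⟩
      · exact Finset.mem_filter.2 ⟨by simp [U], hx2⟩
    calc 2 = ({x1, x2} : Finset α).card := (Finset.card_pair hx).symm
      _ ≤ _ := Finset.card_le_card h
  have hq : 2 ≤ q.card := by
    have h : ({y1, y2} : Finset α) ⊆ q := by
      intro z hz
      rw [Finset.mem_insert, Finset.mem_singleton] at hz
      rcases hz with rfl | rfl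
      · exact Finset.mem_filter.2 ⟨by simp [U], hy1⟩
      · exact Finset.mem_filter.2 ⟨by simp [U], hy2⟩
    calc 2 = ({y1, y2} : Finset α).card := (Finset.card_pair hy).symm
      _ ≤ _ := Finset.card_le_card h
  have hpq : 4 ≤ (p ∪ q).card := by
    have h : ({f1, f2, f3, f4} : Finset α) ⊆ p ∪ q := by
      intro z hz
      have key : ∀ f, f ∈ U → P f ∨ Q f → f ∈ p ∪ q := by
        intro f hf hPQ
        rcases hPQ with h | h
        · exact Finset.mem_union_left _ (Finset.mem_filter.2 ⟨hf, h⟩)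
        · exact Finset.mem_union_right _ (Finset.mem_filter.2 ⟨hf, h⟩)
      simp only [Finset.mem_insert, Finset.mem_singleton] at hz
      rcases hz with rfl | rfl | rfl | rfl
      · exact key _ (by simp [U]) h1
      · exact key _ (by simp [U]) h2
      · exact key _ (by simp [U]) h3
      · exact key _ (by simp [U]) h4
    have hc : ({f1, f2, f3, f4} : Finset α).card = 4 := by
      rw [Finset.card_insert_of_notMem, Finset.card_insert_of_notMem, Finset.card_pair h34]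
      · simp [h23, h24]
      · simp [h12, h13, h14]
    calc 4 = ({f1, f2, f3, f4} : Finset α).card := hc.symm
      _ ≤ _ := Finset.card_le_card h
  obtain ⟨C, hCq, hC2, hpC⟩ : ∃ C ⊆ q, C.card = 2 ∧ 2 ≤ (p \ C).card := by
    rcases le_total (q \ p).card 2 with h | h
    · obtain ⟨C, h5, h6, h7⟩ := Finset.exists_subsuperset_card_eq (Finset.sdiff_subset : q \ p ⊆ q) h hq
      refine ⟨C, h6, h7, ?_⟩
      have h8 : p ∪ q ⊆ (p \ C) ∪ C := by
        intro z hz
        by_cases hzC : z ∈ C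
        · exact Finset.mem_union_right _ hzC
        · rcases Finset.mem_union.1 hz with h9 | h9
          · exact Finset.mem_union_left _ (Finset.mem_sdiff.2 ⟨h9, hzC⟩)
          · by_cases hzp : z ∈ p
            · exact Finset.mem_union_left _ (Finset.mem_sdiff.2 ⟨hzp, hzC⟩)
            · exact absurd (h5 (Finset.mem_sdiff.2 ⟨h9, hzp⟩)) hzC
      have h9 := (Finset.card_le_card h8).trans (Finset.card_union_le _ _)
      omega
    · obtain ⟨C, h5, h7⟩ := Finset.exists_subset_card_eq h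
      refine ⟨C, h5.trans Finset.sdiff_subset, h7, ?_⟩
      have h8 : p \ C = p := by
        rw [Finset.sdiff_eq_self_iff_disjoint, Finset.disjoint_left]
        intro z hz hzC
        exact (Finset.mem_sdiff.1 (h5 hzC)).2 hz
      rw [h8]
      exact hp
  obtain ⟨c, d, hcd, hC⟩ := Finset.card_eq_two.1 hC2
  obtain ⟨a, ha, b, hb, hab⟩ := Finset.one_lt_card.1 (show 1 < (p \ C).card by omega)
  rw [Finset.mem_sdiff, hC, Finset.mem_insert, Finset.mem_singleton, not_or] at ha hb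
  have hc : c ∈ q := hCq (by rw [hC]; simp)
  have hd : d ∈ q := hCq (by rw [hC]; simp)
  exact ⟨a, b, c, d, (Finset.mem_filter.1 ha.1).2, (Finset.mem_filter.1 hb.1).2, (Finset.mem_filter.1 hc).2,
    (Finset.mem_filter.1 hd).2, hab, ha.2.1, ha.2.2, hb.2.1, hb.2.2, hcd⟩

/-- PROOF. Suppose not Full: there is Z, Nontriv, crossing no member of F, Z ∉ F, Zᶜ ∉ F. Call S SMALL if (S ∈ F ∨ Sᶜ ∈ F) and (S ⊆ Z ∨ S ⊆ Zᶜ). Every X ∈ F does not cross Z, so one of the four corners is empty, so X or Xᶜ is small.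
Small sets are CSpl (cspl_compl). Two small sets S, S' with a common point: the members of F behind them do not cross, so S ⊆ S', or S' ⊆ S, or S ∪ S' = univ (or disjoint). S ∪ S' = univ is impossible: if both are ⊆ Z then Z = univ; if S ⊆ Z, S' ⊆ Zᶜ then
S = Z, so Z ∈ F or Zᶜ ∈ F. So small sets are nested or disjoint. Let π v := ⋃₀ {S | S small, v ∈ S} ∪ {v}. As V is finite and the small sets containing v form a chain, π v = {v} or π v is a small set (the largest one containing v). The sets π v form a partition: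
u ∈ π v ↔ π u = π v. So {u | π u = π v} = π v, CSpl (cspl_single or small).
PRIME: let X be CSpl. Suppose X and Xᶜ are not inside one fibre: X contains points of two different fibres and so does Xᶜ. Let B be the set of fibres which meet X and Xᶜ, I the fibres inside X, O the fibres inside Xᶜ. |I| + |B| ≥ 2, |O| + |B| ≥ 2, and there are at least four fibres
(FOUR below), so one can choose B = B₁ ∪ B₂ with |I| + |B₁| ≥ 2, |O| + |B₂| ≥ 2. Let Y := (X ∪ ⋃ B₁) minus ⋃ B₂. Y is a CSpl: add the fibres of B₁ one by one (cspl_union, common point in the fibre and in X), remove the fibres of B₂ one by one (cspl_inter with the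
complement of the fibre; a common outside point: a point of the fibre outside X). [Suggestion: an induction lemma: for a CSpl X and two points a, b ∈ X, c, d ∉ X with a, b, c, d in four or at least suitable fibres ... ; simplest: state the lemma for arbitrary finite sets of fibres, or avoid counting:
choose a, b ∈ X in different fibres and c, d ∉ X in different fibres. Case 1: π c ∉ {π a, π b} and π d ∉ {π a, π b}: add all fibres which meet X except those of c and d, and remove those of c, d. Case 2: π c = π a (then this fibre is in B) and π d ∉ {π a, π b}: there is a fourth fibre e; if e meets X put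
e, b on the inside and a = c, d outside, if e is outside X put a = c, b inside, e, d outside; similarly the other cases.] Y is a union of fibres with at least two fibres inside and two outside, so Nontriv, and Y crosses no member of F (every member of F or its complement is small, so inside a fibre).
By h4 Y ∈ F or Yᶜ ∈ F, so Y or Yᶜ is small, so inside a fibre: contradiction.
FOUR: Z is a union of fibres (small sets are inside Z or Zᶜ), Z is not one fibre (it would be a small set, so Z ∈ F or Zᶜ ∈ F, or a single point, but Nontriv Z), so Z and Zᶜ contain at least two fibres each. -/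
theorem full_or_pp [Finite V] (hw : Sk w) {F : Set (Set V)} (h1 : ∀ X ∈ F, CSpl w X) (h2 : ∀ X ∈ F, Nontriv X)
    (h3 : ∀ X ∈ F, ∀ Y ∈ F, ¬ Crossing X Y)
    (h4 : ∀ Y, CSpl w Y → Nontriv Y → (∀ X ∈ F, ¬ Crossing X Y) → Y ∈ F ∨ Yᶜ ∈ F) :
    Full (⊤ : SimpleGraph V) F ∨ ∃ π : V → Set V, PP w π := by
  classical
  by_cases hfull : Full (⊤ : SimpleGraph V) F
  · exact Or.inl hfull
  right
  unfold Full at hfull
  push Not at hfull
  obtain ⟨Z, -, hZn, hZc, hZ1, hZ2⟩ := hfull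
  let Sm : Set V → Prop := fun S => (S ∈ F ∨ Sᶜ ∈ F) ∧ (S ⊆ Z ∨ S ⊆ Zᶜ)
  have ha : ∀ X ∈ F, Sm X ∨ Sm Xᶜ := by
    intro X hX
    by_cases c1 : ∃ p, p ∈ X ∧ p ∈ Z
    · by_cases c2 : ∃ p, p ∈ X ∧ p ∉ Z
      · by_cases c3 : ∃ p, p ∉ X ∧ p ∈ Z
        · by_cases c4 : ∃ p, p ∉ X ∧ p ∉ Z
          · exact absurd ⟨c1, c2, c3, c4⟩ (hZc X hX)
          · push Not at c4
            exact Or.inr ⟨Or.inr (by rwa [compl_compl]), Or.inl fun p hp => c4 p hp⟩
        · push Not at c3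
          exact Or.inr ⟨Or.inr (by rwa [compl_compl]), Or.inr fun p hp => c3 p hp⟩
      · push Not at c2
        exact Or.inl ⟨Or.inl hX, Or.inl fun p hp => c2 p hp⟩
    · push Not at c1
      exact Or.inl ⟨Or.inl hX, Or.inr fun p hp => c1 p hp⟩
  have hb : ∀ S, Sm S → CSpl w S := by
    rintro S ⟨h | h, -⟩
    · exact h1 S h
    · have := cspl_compl hw (h1 _ h)
      rwa [compl_compl] at this
  -- small sets do not cross
  have hncr : ∀ S S', (S ∈ F ∨ Sᶜ ∈ F) → (S' ∈ F ∨ S'ᶜ ∈ F) → ¬ Crossing S S' := by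
    intro S S' h h' hc
    rcases h with h | h <;> rcases h' with h' | h'
    · exact h3 S h S' h' hc
    · exact h3 S h _ h' (crossing_compl.2 hc)
    · exact h3 _ h _ h' (crossing_comm.1 (crossing_compl.2 (crossing_comm.1 hc)))
    · exact h3 _ h _ h' (crossing_compl.2 (crossing_comm.1 (crossing_compl.2 (crossing_comm.1 hc))))
  have hc : ∀ S S', Sm S → Sm S' → ∀ u, u ∈ S → u ∈ S' → S ⊆ S' ∨ S' ⊆ S := by
    intro S S' hS hS' u hu hu'
    by_contra hcon
    rw [not_or, not_subset, not_subset] at hcon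
    obtain ⟨⟨p, hp, hp'⟩, ⟨q, hq, hq'⟩⟩ := hcon
    by_cases c4 : ∃ r, r ∉ S ∧ r ∉ S'
    · exact hncr S S' hS.1 hS'.1 ⟨⟨u, hu, hu'⟩, ⟨p, hp, hp'⟩, ⟨q, hq', hq⟩, c4⟩
    · push Not at c4
      obtain ⟨⟨z, hz, -⟩, ⟨y, hy, -⟩⟩ := hZn
      by_cases huZ : u ∈ Z
      · have e1 : S ⊆ Z := hS.2.resolve_right fun h => h hu huZ
        have e2 : S' ⊆ Z := hS'.2.resolve_right fun h => h hu' huZ
        by_cases hyS : y ∈ S
        · exact hy (e1 hyS)
        · exact hy (e2 (c4 y hyS))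
      · have e1 : S ⊆ Zᶜ := hS.2.resolve_left fun h => huZ (h hu)
        have e2 : S' ⊆ Zᶜ := hS'.2.resolve_left fun h => huZ (h hu')
        by_cases hzS : z ∈ S
        · exact e1 hzS hz
        · exact e2 (c4 z hzS) hz
  let π : V → Set V := fun v => {u | u = v ∨ ∃ S, Sm S ∧ v ∈ S ∧ u ∈ S}
  have hself : ∀ v, v ∈ π v := fun v => Or.inl rfl
  have hsym : ∀ u v, u ∈ π v → v ∈ π u := by
    rintro u v (rfl | ⟨S, h, h', h''⟩)
    · exact Or.inl rfl
    · exact Or.inr ⟨S, h, h'', h'⟩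
  have htr : ∀ u v x, u ∈ π v → v ∈ π x → u ∈ π x := by
    rintro u v x (rfl | ⟨S, e1, e2, e3⟩) h'
    · exact h'
    · rcases h' with rfl | ⟨S', e4, e5, e6⟩
      · exact Or.inr ⟨S, e1, e2, e3⟩
      · rcases hc S S' e1 e4 v e2 e6 with h | h
        · exact Or.inr ⟨S', e4, e5, h e3⟩
        · exact Or.inr ⟨S, e1, h e5, e3⟩
  have hπ : ∀ u v, π u = π v ↔ u ∈ π v := by
    intro u v
    constructor
    · intro h
      rw [← h]
      exact hself u
    · intro h
      ext x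
      exact ⟨fun hx => htr x u v hx h, fun hx => htr x v u hx (hsym u v h)⟩
  have hfib : ∀ v, {u | π u = π v} = π v := by
    intro v
    ext u
    exact hπ u v
  have hin : ∀ S, Sm S → ∀ u ∈ S, ∀ v ∈ S, π u = π v := fun S hS u hu v hv => (hπ u v).2 (Or.inr ⟨S, hS, hv, hu⟩)
  have hd : ∀ v, π v = {v} ∨ Sm (π v) := by
    intro v
    by_cases hne : ({S | Sm S ∧ v ∈ S} : Set (Set V)).Nonempty
    · obtain ⟨M, hM⟩ := (Set.toFinite _).exists_maximal hne
      right
      have h5 : π v = M := by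
        ext u
        constructor
        · rintro (rfl | ⟨S, e1, e2, e3⟩)
          · exact hM.1.2
          · rcases hc S M e1 hM.1.1 v e2 hM.1.2 with h | h
            · exact h e3
            · exact hM.2 (show Sm S ∧ v ∈ S from ⟨e1, e2⟩) h e3
        · intro hu
          exact Or.inr ⟨M, hM.1.1, hM.1.2, hu⟩
      rw [h5]
      exact hM.1.1
    · left
      ext u
      constructor
      · rintro (rfl | ⟨S, e1, e2, e3⟩)
        · rfl
        · exact absurd ⟨S, e1, e2⟩ hne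
      · rintro rfl
        exact hself u
  have hZfib : ∀ u v, π u = π v → (u ∈ Z ↔ v ∈ Z) := by
    intro u v h
    rcases (hπ u v).1 h with rfl | ⟨S, e1, e2, e3⟩
    · exact Iff.rfl
    · rcases e1.2 with h' | h'
      · exact ⟨fun _ => h' e2, fun _ => h' e3⟩
      · exact ⟨fun hu => absurd hu (h' e3), fun hv => absurd hv (h' e2)⟩
  have hnotSm : ¬ Sm Z ∧ ¬ Sm Zᶜ := by
    constructor
    · rintro ⟨h | h, -⟩
      · exact hZ1 h
      · exact hZ2 h
    · rintro ⟨h | h, -⟩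
      · exact hZ2 h
      · rw [compl_compl] at h
        exact hZ1 h
  have hfour1 : ∀ Y : Set V, ¬ Sm Y → (∀ u v, π u = π v → (u ∈ Y ↔ v ∈ Y)) → ∀ x ∈ Y, ∀ x' ∈ Y, x ≠ x' →
      ∃ a ∈ Y, ∃ b ∈ Y, π a ≠ π b := by
    intro Y hY hY' x hx x' hx' hne
    by_contra hcon
    push Not at hcon
    have e1 : x' ∈ π x := (hπ x' x).1 (hcon x' hx' x hx)
    rcases hd x with h | h
    · rw [h] at e1
      exact hne (mem_singleton_iff.1 e1).symm
    · apply hY
      have e2 : π x = Y := by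
        ext u
        constructor
        · intro hu
          exact (hY' u x ((hπ u x).2 hu)).2 hx
        · intro hu
          exact (hπ u x).1 (hcon u hu x hx)
      rwa [e2] at h
  obtain ⟨⟨z1, hz1, z2, hz2, hz12⟩, ⟨y1, hy1, y2, hy2, hy12⟩⟩ := hZn
  obtain ⟨a, haZ, b, hbZ, hab⟩ := hfour1 Z hnotSm.1 hZfib z1 hz1 z2 hz2 hz12
  obtain ⟨c, hcZ, d, hdZ, hcd⟩ := hfour1 Zᶜ hnotSm.2 (fun u v h => not_congr (hZfib u v h)) y1 hy1 y2 hy2 hy12
  have hac : ∀ x ∈ Z, ∀ y ∈ Zᶜ, π x ≠ π y := fun x hx y hy e => hy ((hZfib x y e).1 hx)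
  have hpart : ∀ v, CSpl w {u | π u = π v} := by
    intro v
    rw [hfib]
    rcases hd v with h | h
    · rw [h]
      exact cspl_single v
    · exact hb _ h
  refine ⟨π, hpart, ?_, ⟨a, b, c, d, hab, hac a haZ c hcZ, hac a haZ d hdZ, hac b hbZ c hcZ, hac b hbZ d hdZ, hcd⟩⟩
  intro X hX
  by_contra hcon
  rw [not_or] at hcon
  push Not at hcon
  obtain ⟨hX1, hX2⟩ := hcon
  obtain ⟨x1, hx1, -⟩ := hX1 z1
  obtain ⟨x2, hx2, hx12⟩ := hX1 x1
  obtain ⟨t1, ht1, -⟩ := hX2 z1
  obtain ⟨t2, ht2, ht12⟩ := hX2 t1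
  have hPQ : ∀ v, (∃ x ∈ X, π x = π v) ∨ (∃ x, x ∉ X ∧ π x = π v) := by
    intro v
    by_cases hv : v ∈ X
    · exact Or.inl ⟨v, hv, rfl⟩
    · exact Or.inr ⟨v, hv, rfl⟩
  obtain ⟨A, B, C, D, ⟨xa, hxa, hA⟩, ⟨xb, hxb, hB⟩, ⟨xc, hxc, hC⟩, ⟨xd, hxd, hD⟩, hAB, hAC, hAD, hBC, hBD, hCD⟩ :=
    sep_pick (P := fun κ : Set V => ∃ x ∈ X, π x = κ) (Q := fun κ : Set V => ∃ x, x ∉ X ∧ π x = κ)
      ⟨x2, hx2, rfl⟩ ⟨x1, hx1, rfl⟩ hx12 ⟨t2, ht2, rfl⟩ ⟨t1, ht1, rfl⟩ ht12 (hPQ a) (hPQ b) (hPQ c) (hPQ d)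
      hab (hac a haZ c hcZ) (hac a haZ d hdZ) (hac b hbZ c hcZ) (hac b hbZ d hdZ) hcd
  let J : Set (Set V) := {κ | (∃ x ∈ X, π x = κ) ∧ κ ≠ C ∧ κ ≠ D}
  have hrep : ∀ v, ∃ x, π x = π v ∧ (π v ∈ J → x ∈ X) ∧ (π v ∉ J → x ∉ X) := by
    intro v
    by_cases hv : π v ∈ J
    · obtain ⟨⟨x, hx, hxv⟩, -⟩ := id hv
      exact ⟨x, hxv, fun _ => hx, fun h => absurd hv h⟩
    · by_cases hPv : ∃ x ∈ X, π x = π v
      · by_cases hvC : π v = C
        · exact ⟨xc, hC.trans hvC.symm, fun h => absurd h hv, fun _ => hxc⟩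
        · by_cases hvD : π v = D
          · exact ⟨xd, hD.trans hvD.symm, fun h => absurd h hv, fun _ => hxd⟩
          · exact absurd ⟨hPv, hvC, hvD⟩ hv
      · exact ⟨v, rfl, fun h => absurd h hv, fun _ h => hPv ⟨v, h, rfl⟩⟩
  choose ρ hρ1 hρ2 hρ3 using hrep
  have hY : CSpl w {v | π v ∈ J} := cspl_of_reps hw hpart hρ1 fun p q r t hp hq hr ht =>
    cspl_iff.1 hX _ (hρ2 p hp) _ (hρ2 q hq) _ (hρ3 r hr) _ (hρ3 t ht)
  have hAJ : π xa ∈ J := by
    rw [hA]
    exact ⟨⟨xa, hxa, hA⟩, hAC, hAD⟩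
  have hBJ : π xb ∈ J := by
    rw [hB]
    exact ⟨⟨xb, hxb, hB⟩, hBC, hBD⟩
  have hCJ : π xc ∉ J := fun h => h.2.1 hC
  have hDJ : π xd ∉ J := fun h => h.2.2 hD
  have hab' : π xa ≠ π xb := by rwa [hA, hB]
  have hcd' : π xc ≠ π xd := by rwa [hC, hD]
  have hYn : Nontriv {v | π v ∈ J} :=
    ⟨⟨xa, hAJ, xb, hBJ, fun e => hab' (by rw [e])⟩, ⟨xc, hCJ, xd, hDJ, fun e => hcd' (by rw [e])⟩⟩
  have hYc : ∀ S ∈ F, ¬ Crossing S {v | π v ∈ J} := by
    intro S hS hcr
    obtain ⟨⟨p, hp1, hp2⟩, ⟨q, hq1, hq2⟩, ⟨r, hr1, hr2⟩, ⟨t, ht1, ht2⟩⟩ := hcr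
    rcases ha S hS with h | h
    · have e := hin S h p hp1 q hq1
      exact hq2 (by rw [mem_setOf_eq, ← e]; exact hp2)
    · have e := hin _ h r hr1 t ht1
      exact ht2 (by rw [mem_setOf_eq, ← e]; exact hr2)
  have hfin : Sm {v | π v ∈ J} ∨ Sm {v | π v ∈ J}ᶜ := by
    rcases h4 _ hY hYn hYc with h | h
    · exact ha _ h
    · rcases ha _ h with h' | h'
      · exact Or.inr h'
      · rw [compl_compl] at h'
        exact Or.inl h'
  rcases hfin with h | h
  · exact hab' (hin _ h xa hAJ xb hBJ)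
  · exact hcd' (hin _ h xc hCJ xd hDJ)


end Pool.Agent.SOE
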