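import Pool.Agent.SOE.CF

/-! Project SOE, module Split (size 3): at most one switching vertex on each side.
-/

set_option autoImplicit false

open Set

namespace Pool.Agent.SOE

open Pool.Agent.SOC Pool.Agent.SOD Pool.Agent.SOS Pool.Agent.SOP Pool.Agent.SOW Pool.Agent.RUP

variable {V : Type} [DecidableEq V] {G : SimpleGraph V} {s s' : List V} {T : V → V → V → V → Prop} {p q P Q r : V}

/-- PROOF. A := {v | SwR s s' p q P Q v}; p, q, P, Q ∉ A (CrD: different points). (1) There is a₀ ∈ A with At4: otherwise all v ∈ A are Un4 (cf1), and no a ∈ A has a neighbour b ∉ A: if SwL b, cf4 gives At4 a; if not SwL b: cf2. But G is connected (hG.1), m ∈ A, p ∉ A: a walk from m to p leaves A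
(induction on Relation.ReflTransGen / Walk, or use SOC/SOP lemmas on Preconnected). (2) IsSpl G A a₀ p: adj: a₀ ~ p. rect for a ∈ A, b ∉ A: if a ~ b then a is At4 (if Un4 a: SwL b impossible by cf4, ¬ SwL b by cf2), so a ~ p; and a₀ ~ b: SwL b: At4 b (cf4), cf3; ¬ SwL b: cf5 from a to a₀.
If a ~ p and a₀ ~ b: a is At4 (cf1; not Un4); SwL b: At4 b by cf4 for a₀, cf3 gives a ~ b; ¬ SwL b: cf5 from a₀ to a. (3) hG.2: A = {a₀} or Aᶜ = {p}; the second is impossible (q ∉ A, q ≠ p). So m = a₀ = k. -/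
theorem uniqR (hG : PrimeG G) (h : Ctx G s s' T p q P Q r) {m k : V} (hm : SwR s s' p q P Q m)
    (hk : SwR s s' p q P Q k) : m = k ∧ At4 G p q P Q m := by
  have nA : ∀ v, (v = p ∨ v = q ∨ v = P ∨ v = Q) → ¬ SwR s s' p q P Q v := by
    rintro v hv ⟨⟨⟨_, h2, _, h4, _, h6⟩, _⟩, ⟨⟨_, _, _, k4, _, _⟩, _⟩⟩
    rcases hv with e | e | e | e
    · exact h6 e
    · exact h2 e.symm
    · exact k4 e.symm
    · exact h4 e.symm
  obtain ⟨A, hA⟩ : ∃ A : Set V, A = {v | SwR s s' p q P Q v} := ⟨_, rfl⟩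
  have hAm : ∀ v, v ∈ A ↔ SwR s s' p q P Q v := by
    intro v
    rw [hA]
    rfl
  have hex : ∃ a₀, SwR s s' p q P Q a₀ ∧ At4 G p q P Q a₀ := by
    by_contra hcon
    push Not at hcon
    obtain ⟨wk⟩ := hG.1.preconnected m p
    obtain ⟨d, _, hd1, hd2⟩ := wk.exists_boundary_dart A ((hAm m).2 hm)
      (fun t => nA p (Or.inl rfl) ((hAm p).1 t))
    rw [hAm] at hd1 hd2
    have hu : Un4 G p q P Q d.fst := (cf1 h hd1).resolve_left (hcon _ hd1)
    by_cases hb : SwL s s' p q P Q d.snd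
    · exact hcon _ hd1 (cf4 h hd1 hb d.adj).1
    · exact cf2 h hd1 hu hd2 hb d.adj
  obtain ⟨a₀, ha₀, at₀⟩ := hex
  have hspl : IsSpl G A a₀ p := by
    refine ⟨(hAm a₀).2 ha₀, fun t => nA p (Or.inl rfl) ((hAm p).1 t), at₀.1, ?_⟩
    intro a b ha hb
    rw [hAm] at ha hb
    constructor
    · intro hab
      have hat : At4 G p q P Q a := by
        rcases cf1 h ha with k | k
        · exact k
        · by_cases hl : SwL s s' p q P Q b
          · exact (cf4 h ha hl hab).1
          · exact absurd hab (cf2 h ha k hb hl)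
      refine ⟨hat.1, ?_⟩
      by_cases hl : SwL s s' p q P Q b
      · exact cf3 h ha₀ hl at₀ (cf4 h ha hl hab).2
      · exact cf5 h ha ha₀ hat at₀ hb hl hab
    · rintro ⟨hap, hab⟩
      have hat : At4 G p q P Q a := (cf1 h ha).resolve_right (fun k => k.1 hap)
      by_cases hl : SwL s s' p q P Q b
      · exact cf3 h ha hl hat (cf4 h ha₀ hl hab).2
      · exact cf5 h ha₀ ha at₀ hat hb hl hab
  rcases hG.2 A a₀ p hspl with e | e
  · have h1 : m = a₀ := by
      have := (hAm m).2 hm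
      rw [e] at this
      exact this
    have h2 : k = a₀ := by
      have := (hAm k).2 hk
      rw [e] at this
      exact this
    exact ⟨h1.trans h2.symm, h1 ▸ at₀⟩
  · exfalso
    have h3 : q ∈ Aᶜ := fun t => nA q (Or.inr (Or.inl rfl)) ((hAm q).1 t)
    rw [e] at h3
    exact h.w.pq.ne (h3 : q = p).symm

/-- PROOF: uniqR for h.mir. -/
theorem uniqL (hG : PrimeG G) (h : Ctx G s s' T p q P Q r) {m k : V} (hm : SwL s s' p q P Q m)
    (hk : SwL s s' p q P Q k) : m = k ∧ At4 G p q P Q m := by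
  obtain ⟨h1, h2⟩ := uniqR hG h.mir (m := m) (k := k) hm hk
  exact ⟨h1, h2.2.1, h2.1, h2.2.2.2, h2.2.2.1⟩


end Pool.Agent.SOE
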