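import Pool.Agent.SOE.Sem

/-! Project SOE: templates of two orders (generated). -/

set_option autoImplicit false
set_option maxRecDepth 100000
set_option linter.unusedVariables false

namespace Pool.Agent.SOE

open Pool.Agent.SOC Pool.Agent.SOD Pool.Agent.SOS Pool.Agent.SOP Pool.Agent.SOW Pool.Agent.RUP

/-- templates -/
def tO : List Tm := [
  ⟨4, [], ad4, [.q true 0 0 1 2 3, .q true 0 0 2 1 3, .q true 0 0 3 1 2]⟩,
  ⟨4, [], ad4, [.q false 0 0 1 2 3, .q false 0 0 2 1 3]⟩,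
  ⟨5, [], ad5, [.q false 0 0 1 2 3, .q false 0 0 1 3 4, .q false 0 0 1 2 4]⟩,
  ⟨5, [], ad5, [.q false 0 0 1 2 3, .q true 0 0 1 3 4, .q true 0 0 1 2 4]⟩]

theorem tO_h {V : Type} [DecidableEq V] {G : SimpleGraph V} {s s' : List V} {T : V → V → V → V → Prop} (h : Bs G s s' T) : UHs h.rel tO :=
  .cons (fun v n01 n02 n03 n12 n13 n23 h0 h1 h2 => (h.s0.one n01 n02 n03 n12 n13 n23).elim h0 (fun k => k.elim h1 h2)) (
  .cons (fun v n01 n02 n03 n12 n13 n23 h0 h1 => h.s0.amo h0 h1) (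
  .cons (fun v n01 n02 n03 n04 n12 n13 n14 n23 n24 n34 h0 h1 h2 => h.s0.add h0 h1 h2) (
  .cons (fun v n01 n02 n03 n04 n12 n13 n14 n23 n24 n34 h0 h1 h2 => (h.s0.add2 h0 n34 n24 n04 n14).elim h1 h2) (
  .nil))))

theorem tO1_h {V : Type} [DecidableEq V] {G : SimpleGraph V} {s : List V} {T : V → V → V → V → Prop} (h : Bt G s T) : UHs h.rel tO :=
  .cons (fun v n01 n02 n03 n12 n13 n23 h0 h1 h2 => (h.s0.one n01 n02 n03 n12 n13 n23).elim h0 (fun k => k.elim h1 h2)) (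
  .cons (fun v n01 n02 n03 n12 n13 n23 h0 h1 => h.s0.amo h0 h1) (
  .cons (fun v n01 n02 n03 n04 n12 n13 n14 n23 n24 n34 h0 h1 h2 => h.s0.add h0 h1 h2) (
  .cons (fun v n01 n02 n03 n04 n12 n13 n14 n23 n24 n34 h0 h1 h2 => (h.s0.add2 h0 n34 n24 n04 n14).elim h1 h2) (
  .nil))))

/-- templates -/
def tV : List Tm := [
  ⟨4, [], ad4, [.q false 1 0 1 2 3, .q false 0 0 1 2 3]⟩,
  ⟨4, [], ad4, [.q false 1 0 1 2 3, .b true 0 0 2]⟩,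
  ⟨4, [], ad4, [.b false 0 0 1, .b false 0 2 3, .q false 0 0 1 2 3, .q true 1 0 2 1 3, .q true 1 0 3 1 2]⟩,
  ⟨4, [], ad4, [.q false 1 0 1 2 3, .q false 1 0 2 1 3]⟩,
  ⟨5, [], ad5, [.q false 1 0 1 2 3, .q false 1 0 1 3 4, .q true 1 0 1 2 4]⟩,
  ⟨5, [], ad5, [.q false 1 0 1 2 3, .q false 1 0 3 2 4, .q true 1 0 1 2 4]⟩,
  ⟨6, [], ad6, [.q false 1 0 1 2 3, .q false 1 0 4 2 5, .q true 1 0 1 2 5, .q true 1 0 4 2 3]⟩]

theorem tV_h {V : Type} [DecidableEq V] {G : SimpleGraph V} {s s' : List V} {T : V → V → V → V → Prop} (h : Bs G s s' T) : UHs h.rel tV :=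
  .cons (fun v n01 n02 n03 n12 n13 n23 h0 h1 => h.qt.nocross h0 h1.2) (
  .cons (fun v n01 n02 n03 n12 n13 n23 h0 h1 => h1 (h.qt.adj h0)) (
  .cons (fun v n01 n02 n03 n12 n13 n23 h0 h1 h2 h3 h4 => (h.qt.some h0 h1 n02 n03 n12.symm n13 h2.2).elim h3 (fun k => h4 (h.qt.swap₂ (h.qt.swap₁ (h.qt.swap₂ k))))) (
  .cons (fun v n01 n02 n03 n12 n13 n23 h0 h1 => h.qt.notboth (h.qt.swap₂ (h.qt.swap₁ (h.qt.swap₂ h0))) h1) (
  .cons (fun v n01 n02 n03 n04 n12 n13 n14 n23 n24 n34 h0 h1 h2 => h2 (h.qt.trans h0 h1 n24)) (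
  .cons (fun v n01 n02 n03 n04 n12 n13 n14 n23 n24 n34 h0 h1 h2 => (h.qt.ferrers h0 h1).elim h2 (fun k => (h.qt.adj (h.qt.swap₁ (h.qt.swap₂ (h.qt.swap₁ k)))).ne rfl)) (
  .cons (fun v n01 n02 n03 n04 n05 n12 n13 n14 n15 n23 n24 n25 n34 n35 n45 h0 h1 h2 h3 => (h.qt.ferrers h0 h1).elim h2 h3) (
  .nil)))))))

theorem tV1_h {V : Type} [DecidableEq V] {G : SimpleGraph V} {s : List V} {T : V → V → V → V → Prop} (h : Bt G s T) : UHs h.rel tV :=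
  .cons (fun v n01 n02 n03 n12 n13 n23 h0 h1 => h.qt.nocross h0 h1.2) (
  .cons (fun v n01 n02 n03 n12 n13 n23 h0 h1 => h1 (h.qt.adj h0)) (
  .cons (fun v n01 n02 n03 n12 n13 n23 h0 h1 h2 h3 h4 => (h.qt.some h0 h1 n02 n03 n12.symm n13 h2.2).elim h3 (fun k => h4 (h.qt.swap₂ (h.qt.swap₁ (h.qt.swap₂ k))))) (
  .cons (fun v n01 n02 n03 n12 n13 n23 h0 h1 => h.qt.notboth (h.qt.swap₂ (h.qt.swap₁ (h.qt.swap₂ h0))) h1) (
  .cons (fun v n01 n02 n03 n04 n12 n13 n14 n23 n24 n34 h0 h1 h2 => h2 (h.qt.trans h0 h1 n24)) (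
  .cons (fun v n01 n02 n03 n04 n12 n13 n14 n23 n24 n34 h0 h1 h2 => (h.qt.ferrers h0 h1).elim h2 (fun k => (h.qt.adj (h.qt.swap₁ (h.qt.swap₂ (h.qt.swap₁ k)))).ne rfl)) (
  .cons (fun v n01 n02 n03 n04 n05 n12 n13 n14 n15 n23 n24 n25 n34 n35 n45 h0 h1 h2 h3 => (h.qt.ferrers h0 h1).elim h2 h3) (
  .nil)))))))

/-- templates -/
def tP : List Tm := [
  ⟨4, [], ad4, [.q true 2 0 1 2 3, .q true 2 0 2 1 3, .q true 2 0 3 1 2]⟩,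
  ⟨4, [], ad4, [.q false 2 0 1 2 3, .q false 2 0 2 1 3]⟩,
  ⟨5, [], ad5, [.q false 2 0 1 2 3, .q false 2 0 1 3 4, .q false 2 0 1 2 4]⟩,
  ⟨5, [], ad5, [.q false 2 0 1 2 3, .q true 2 0 1 3 4, .q true 2 0 1 2 4]⟩]

theorem tP_h {V : Type} [DecidableEq V] {G : SimpleGraph V} {s s' : List V} {T : V → V → V → V → Prop} (h : Bs G s s' T) : UHs h.rel tP :=
  .cons (fun v n01 n02 n03 n12 n13 n23 h0 h1 h2 => (h.s2.one n01 n02 n03 n12 n13 n23).elim h0 (fun k => k.elim h1 h2)) (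
  .cons (fun v n01 n02 n03 n12 n13 n23 h0 h1 => h.s2.amo h0 h1) (
  .cons (fun v n01 n02 n03 n04 n12 n13 n14 n23 n24 n34 h0 h1 h2 => h.s2.add h0 h1 h2) (
  .cons (fun v n01 n02 n03 n04 n12 n13 n14 n23 n24 n34 h0 h1 h2 => (h.s2.add2 h0 n34 n24 n04 n14).elim h1 h2) (
  .nil))))

/-- templates -/
def tE : List Tm := [
  ⟨4, [], ad4, [.b false 0 0 1, .b false 0 2 3, .q false 2 0 1 2 3, .b true 0 0 2, .b true 0 0 3]⟩,
  ⟨4, [], ad4, [.b false 0 0 1, .b false 0 2 3, .q false 2 0 1 2 3, .b true 0 0 2, .b true 0 1 2]⟩,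
  ⟨4, [], ad4, [.b false 0 0 1, .b false 0 2 3, .q false 2 0 1 2 3, .b true 0 1 3, .b true 0 0 3]⟩,
  ⟨4, [], ad4, [.b false 0 0 1, .b false 0 2 3, .q false 2 0 1 2 3, .b true 0 1 3, .b true 0 1 2]⟩,
  ⟨5, [], ad5, [.b true 0 0 1, .b true 0 2 3, .b false 0 0 2, .b false 0 0 3, .b false 0 1 2, .b false 0 1 3, .b false 0 4 0, .b false 0 4 1, .b false 0 4 2, .b false 0 4 3, .q false 2 0 1 2 3]⟩]

theorem tE_h {V : Type} [DecidableEq V] {G : SimpleGraph V} {s s' : List V} {T : V → V → V → V → Prop} (h : Bs G s s' T) : UHs h.rel tE :=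
  .cons (fun v n01 n02 n03 n12 n13 n23 h0 h1 h2 h3 h4 => h.ew.wo _ _ _ _ ⟨h0, h1, n02, n03, n12, n13, fun k => h3 k.1, fun k => h4 k.1⟩ h2.2) (
  .cons (fun v n01 n02 n03 n12 n13 n23 h0 h1 h2 h3 h4 => h.ew.wo _ _ _ _ ⟨h0, h1, n02, n03, n12, n13, fun k => h3 k.1, fun k => h4 k.2⟩ h2.2) (
  .cons (fun v n01 n02 n03 n12 n13 n23 h0 h1 h2 h3 h4 => h.ew.wo _ _ _ _ ⟨h0, h1, n02, n03, n12, n13, fun k => h3 k.2, fun k => h4 k.1⟩ h2.2) (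
  .cons (fun v n01 n02 n03 n12 n13 n23 h0 h1 h2 h3 h4 => h.ew.wo _ _ _ _ ⟨h0, h1, n02, n03, n12, n13, fun k => h3 k.2, fun k => h4 k.2⟩ h2.2) (
  .cons (fun v n01 n02 n03 n04 n12 n13 n14 n23 n24 n34 h0 h1 h2 h3 h4 h5 h6 h7 h8 h9 h10 => h.ew.w4 ⟨h0, h1, n01, n23, h2, h3, h4, h5, h6, h7, h8, h9⟩ h10.2) (
  .nil)))))

end Pool.Agent.SOE
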