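import Pool.Agent.SOE.StrI

/-! Project SOE, module TreeI (size 3): strong E-P-cuts are recognised by the intervals of one E-WO order.
-/

set_option autoImplicit false

open Set

namespace Pool.Agent.SOE

open Pool.Agent.SOC Pool.Agent.SOD Pool.Agent.SOS Pool.Agent.SOP Pool.Agent.SOW Pool.Agent.RUP

variable {V : Type} [DecidableEq V] {G : SimpleGraph V} {s s' : List V}

private theorem treei_ci (hs : IsEnum s) {Z : Set V} {a c : V} (hac : ∀ z, ¬ SOC.Btw s a c z) :
    CI s {z | Blk s Z a z ∨ Blk s Z c z} := by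
  obtain ⟨W, hWdef⟩ : ∃ W : Set V, W = {z | Blk s Z a z ∨ Blk s Z c z} := ⟨_, rfl⟩
  have hWm : ∀ z, z ∈ W ↔ Blk s Z a z ∨ Blk s Z c z := by
    intro z
    rw [hWdef]
    rfl
  have haW : a ∈ W := (hWm a).2 (Or.inl (blk_refl hs a))
  have hcW : c ∈ W := (hWm c).2 (Or.inr (blk_refl hs c))
  rw [← hWdef]
  have hrep : ∀ p ∈ W, ∃ b, (b = a ∨ b = c) ∧ Blk s Z b p := by
    intro p hp
    rcases (hWm p).1 hp with h | h
    · exact ⟨a, Or.inl rfl, h⟩
    · exact ⟨c, Or.inr rfl, h⟩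
  intro p hp q hq z hz z' hz'
  obtain ⟨b, hb, hbp⟩ := hrep p hp
  obtain ⟨b', hb', hbq⟩ := hrep q hq
  have nb : ∀ b, (b = a ∨ b = c) → ∀ z, z ∉ W → ¬ Blk s Z b z := by
    rintro b (rfl | rfl) z hz h
    · exact hz ((hWm z).2 (Or.inl h))
    · exact hz ((hWm z).2 (Or.inr h))
  have e1 := strong_blk_int hs hbp (nb b hb z hz) (nb b hb z' hz')
  have e2 := strong_blk_int hs hbq (nb b' hb' z hz) (nb b' hb' z' hz')
  have nz : ∀ w z, w ∈ W → z ∉ W → w ≠ z := fun w z hw hz e => hz (e ▸ hw)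
  have e0 : sep (ordFn s) a c z z' = 0 := by
    rw [← not_cross_iff hs (nz a z haW hz) (nz a z' haW hz') (nz c z hcW hz) (nz c z' hcW hz')]
    intro h
    exact h ⟨fun h => absurd h (hac z), fun h => absurd h (hac z')⟩
  have e3 : sep (ordFn s) b b' z z' = 0 := by
    rcases hb with rfl | rfl <;> rcases hb' with rfl | rfl
    · exact sep_self_left _ _ _ _
    · exact e0
    · rw [sep_swap_left]; exact e0
    · exact sep_self_left _ _ _ _
  have e4 := sep_add_left (ordFn s) p b b' z z'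
  have e5 := sep_add_left (ordFn s) p b' q z z'
  rw [← e5, ← e4, sep_swap_left (ordFn s) p b, e1, e3, e2, add_zero, add_zero]

omit [DecidableEq V] in
/-- a set which meets both sides of `Y` contains a point on the other side than `a` -/
private theorem treei_other {S Y : Set V} {p q : V} (hp : p ∈ S) (hpY : p ∈ Y) (hq : q ∈ S) (hqY : q ∉ Y) (a : V) :
    ∃ w ∈ S, ¬ (a ∈ Y ↔ w ∈ Y) := by
  by_cases ha : a ∈ Y
  · exact ⟨q, hq, fun h => hqY (h.1 ha)⟩
  · exact ⟨p, hp, fun h => ha (h.2 hpY)⟩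

/-- PROOF. (→) stre_ci. (←) Suppose an EPC Y crosses X; Y is not an interval of s (h). All unions of blocks of Y are EPCs (epc_blocks, Nontriv Y from the crossing). X contains points of Y and of Yᶜ, and so does Xᶜ. Look for U: one block of Y, or the union of two adjacent blocks, with CI s U and Crossing X U: contradiction.
CASE A: some block β = {z | Blk s Y b z} meets X and Xᶜ. U := β: CI s U (strong_blk_int), U ⊄ ... X is not inside β (X contains points of Y and Yᶜ, β is on one side of Y), Xᶜ is not inside β: so X \ β and Xᶜ \ β are nonempty: Crossing X U.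
CASE B: every block is inside X or Xᶜ. strong_adj for Z := X: a ∈ X, c ∉ X with no element between them in s. U := block of a ∪ block of c: CI s U as hWi in full_of_intervals (strong_blk_int, sep_add_left). Crossing: a ∈ X ∩ U, c ∈ U \ X; X \ U: X contains a point of the other side of Y than a, it is not in the block of a, not in the block of c (this is inside Xᶜ);
the same for Xᶜ. -/
theorem stre_iff [Finite V] (hG : PrimeG G) (hc : CFree G) (hs : EWO G s) {X : Set V} :
    StrE G X ↔ EPC G X ∧ Nontriv X ∧ CI s X ∧ ∀ Y, EPC G Y → CI s Y → ¬ Crossing X Y := by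
  have hse := hs.enum
  constructor
  · intro h
    exact ⟨h.epc, h.nt, stre_ci hG hc hs h, fun Y hY _ => h.st Y hY⟩
  · rintro ⟨h1, h2, h3, h4⟩
    refine ⟨h1, h2, ?_⟩
    rintro Y hY ⟨⟨p, hpX, hpY⟩, ⟨q, hqX, hqY⟩, ⟨r, hrX, hrY⟩, ⟨t, htX, htY⟩⟩
    have hn : Nontriv Y := ⟨⟨p, hpY, r, hrY, fun e => hrX (e ▸ hpX)⟩, ⟨q, hqY, t, htY, fun e => htX (e ▸ hqX)⟩⟩
    have hXo : ∀ a, ∃ w ∈ X, ¬ (a ∈ Y ↔ w ∈ Y) := treei_other hpX hpY hqX hqY
    have hXo' : ∀ a, ∃ w ∈ Xᶜ, ¬ (a ∈ Y ↔ w ∈ Y) :=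
      treei_other (S := Xᶜ) (p := r) (q := t) hrX hrY htX htY
    by_cases hA : ∃ b u v, Blk s Y b u ∧ Blk s Y b v ∧ u ∈ X ∧ v ∉ X
    · obtain ⟨b, u, v, hu, hv, huX, hvX⟩ := hA
      have hU : EPC G {z | Blk s Y b z} := epc_blocks hG hc hs hY hn (U := {z | Blk s Y b z})
        (fun x z hxz hx => blk_trans hse hx hxz)
      have hI : CI s {z | Blk s Y b z} := by
        intro x hx x' hx' y hy y' hy'
        have e1 := strong_blk_int hse (show Blk s Y b x from hx) (show ¬ Blk s Y b y from hy) (show ¬ Blk s Y b y' from hy')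
        have e2 := strong_blk_int hse (show Blk s Y b x' from hx') (show ¬ Blk s Y b y from hy) (show ¬ Blk s Y b y' from hy')
        have e3 := sep_add_left (ordFn s) x b x' y y'
        rw [← e3, sep_swap_left (ordFn s) x b, e1, e2, add_zero]
      obtain ⟨w, hwX, hw⟩ := hXo b
      obtain ⟨w', hwX', hw'⟩ := hXo' b
      exact h4 _ hU hI ⟨⟨u, huX, hu⟩, ⟨w, hwX, fun h => hw h.1⟩, ⟨v, hvX, hv⟩, ⟨w', hwX', fun h => hw' h.1⟩⟩
    · push Not at hA
      obtain ⟨a, c, ha, hc', hac⟩ := strong_adj (s := s) (Z := X) ⟨p, hpX⟩ ⟨r, hrX⟩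
      have hU : EPC G {z | Blk s Y a z ∨ Blk s Y c z} := by
        refine epc_blocks hG hc hs hY hn ?_
        intro x z hxz hx
        exact hx.imp (fun h => blk_trans hse h hxz) (fun h => blk_trans hse h hxz)
      obtain ⟨w, hwX, hw⟩ := hXo a
      obtain ⟨w', hwX', hw'⟩ := hXo' c
      refine h4 _ hU (treei_ci hse hac) ⟨⟨a, ha, Or.inl (blk_refl hse a)⟩, ⟨w, hwX, ?_⟩, ⟨c, hc', Or.inr (blk_refl hse c)⟩,
        ⟨w', hwX', ?_⟩⟩
      · rintro (h | h)
        · exact hw h.1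
        · exact hc' (hA c w c h (blk_refl hse c) hwX)
      · rintro (h | h)
        · exact hwX' (hA a a w' (blk_refl hse a) h ha)
        · exact hw' h.1

end Pool.Agent.SOE
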